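import Mathlib

namespace Pool.Agent.Helper377.Mass

open Finset Nat

theorem prod_Icc_id (n : ℕ) : ∏ x ∈ Icc 1 n, x = n ! := by
  induction n with
  | zero => simp
  | succ n ih =>
    rw [Finset.prod_Icc_succ_top (by omega), ih, Nat.factorial_succ, mul_comm]

theorem prod_dvd_factorial (S : Finset ℕ) (f : ℕ → ℕ) (m : ℕ) (hinj : Set.InjOn f S)
    (h : ∀ q ∈ S, 1 ≤ f q ∧ f q ≤ m) : ∏ q ∈ S, f q ∣ m ! := by
  rw [← prod_Icc_id]
  have h1 : ∏ q ∈ S, f q = ∏ x ∈ S.image f, x := by
    rw [Finset.prod_image]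
    exact hinj
  rw [h1]
  apply Finset.prod_dvd_prod_of_subset
  intro x hx
  rw [Finset.mem_image] at hx
  obtain ⟨q, hq, rfl⟩ := hx
  rw [Finset.mem_Icc]
  exact h q hq

theorem pow_dvd_factorial (X n p : ℕ) (A : Finset ℕ) (k : ℕ → ℕ)
    (hk : ∀ q ∈ A, k q ≤ X) (hinj : Set.InjOn k A) (e : ℕ) (he : e ∈ A)
    (hmax : ∀ q ∈ A, (n + k q).factorization p ≤ (n + k e).factorization p) :
    p ^ (∑ q ∈ A.erase e, (n + k q).factorization p) ∣ X ! := by
  set v : ℕ → ℕ := fun q => (n + k q).factorization p with hv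
  set K := k e with hK
  have hKX : K ≤ X := hk e he
  rw [← Finset.prod_pow_eq_pow_sum]
  have hne : ∀ q ∈ A.erase e, k q ≠ K := by
    intro q hq h
    rw [Finset.mem_erase] at hq
    exact hq.1 (hinj hq.2 he h)
  rw [← Finset.prod_filter_mul_prod_filter_not (A.erase e) (fun q => k q < K)]
  have hd : ∀ q ∈ A.erase e, p ^ v q ∣ n + k q ∧ p ^ v q ∣ n + K := by
    intro q hq
    rw [Finset.mem_erase] at hq
    refine ⟨Nat.ordProj_dvd _ _, ?_⟩
    exact (pow_dvd_pow p (hmax q hq.2)).trans (Nat.ordProj_dvd _ _)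
  have h1 : ∏ q ∈ (A.erase e).filter (fun q => k q < K), p ^ v q ∣ K ! := by
    refine (Finset.prod_dvd_prod_of_dvd (fun q => p ^ v q) (fun q => K - k q) ?_).trans ?_
    · intro q hq
      rw [Finset.mem_filter] at hq
      obtain ⟨ha, hb⟩ := hd q hq.1
      have : K - k q = (n + K) - (n + k q) := by omega
      show p ^ v q ∣ K - k q
      rw [this]
      exact Nat.dvd_sub hb ha
    · apply prod_dvd_factorial
      · intro x hx y hy hxy
        simp only [Finset.coe_filter, Set.mem_ofPred_eq, Finset.mem_erase] at hx hy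
        have : k x = k y := by
          have h3 := hx.2
          have h4 := hy.2
          simp only at hxy
          omega
        exact hinj hx.1.2 hy.1.2 this
      · intro q hq
        rw [Finset.mem_filter] at hq
        omega
  have h2 : ∏ q ∈ (A.erase e).filter (fun q => ¬ k q < K), p ^ v q ∣ (X - K) ! := by
    refine (Finset.prod_dvd_prod_of_dvd (fun q => p ^ v q) (fun q => k q - K) ?_).trans ?_
    · intro q hq
      rw [Finset.mem_filter] at hq
      obtain ⟨ha, hb⟩ := hd q hq.1
      have h3 := hq.2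
      have : k q - K = (n + k q) - (n + K) := by omega
      show p ^ v q ∣ k q - K
      rw [this]
      exact Nat.dvd_sub ha hb
    · apply prod_dvd_factorial
      · intro x hx y hy hxy
        simp only [Finset.coe_filter, Set.mem_ofPred_eq, Finset.mem_erase] at hx hy
        have : k x = k y := by
          have h3 := hx.2
          have h4 := hy.2
          simp only at hxy
          omega
        exact hinj hx.1.2 hy.1.2 this
      · intro q hq
        rw [Finset.mem_filter] at hq
        have h3 := hne q hq.1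
        have h4 := hk q (Finset.mem_of_mem_erase hq.1)
        omega
  exact (Nat.mul_dvd_mul h1 h2).trans (Nat.factorial_mul_factorial_dvd_factorial hKX)

theorem prod_primes_eq (X m : ℕ) (hm : m ≠ 0) (h : ∀ p, p.Prime → p ∣ m → p ≤ X) :
    ∏ p ∈ (range (X + 1)).filter Nat.Prime, p ^ (m.factorization p) = m := by
  conv_rhs => rw [← Nat.prod_factorization_pow_eq_self hm]
  rw [Finsupp.prod_of_support_subset (s := (range (X + 1)).filter Nat.Prime)]
  · intro p hp
    rw [Nat.support_factorization, Nat.mem_primeFactors] at hp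
    rw [Finset.mem_filter, Finset.mem_range]
    exact ⟨by have := h p hp.1 hp.2.1; omega, hp.1⟩
  · intro i _
    simp

theorem mass (X n : ℕ) (hn : 0 < n) (A : Finset ℕ) (hA : A.Nonempty) (k : ℕ → ℕ)
    (hk : ∀ q ∈ A, k q ≤ X) (hinj : Set.InjOn k A)
    (hsm : ∀ q ∈ A, ∀ p, p.Prime → p ∣ n + k q → p ≤ X) :
    ∃ e : ℕ → ℕ, (∀ p, e p ∈ A) ∧
      n ^ A.card ≤ X ! * ∏ p ∈ (range (X + 1)).filter Nat.Prime,
        p ^ ((n + k (e p)).factorization p) := by
  have hex : ∀ p : ℕ, ∃ e ∈ A, ∀ q ∈ A, (n + k q).factorization p ≤ (n + k e).factorization p :=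
    fun p => Finset.exists_max_image A (fun q => (n + k q).factorization p) hA
  choose e he hmax using hex
  refine ⟨e, he, ?_⟩
  set P := (range (X + 1)).filter Nat.Prime with hP
  have h1 : n ^ A.card ≤ ∏ q ∈ A, (n + k q) := by
    rw [← Finset.prod_const]
    apply Finset.prod_le_prod
    · intro i _; omega
    · intro i _; omega
  have h2 : ∏ q ∈ A, (n + k q) = ∏ q ∈ A, ∏ p ∈ P, p ^ ((n + k q).factorization p) := by
    apply Finset.prod_congr rfl
    intro q hq
    rw [prod_primes_eq X (n + k q) (by omega) (hsm q hq)]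
  have h3 : X ! = ∏ p ∈ P, p ^ ((X !).factorization p) := by
    rw [prod_primes_eq X (X !) (Nat.factorial_ne_zero X)]
    intro p hp hd
    exact (hp.dvd_factorial).1 hd
  rw [h2, Finset.prod_comm] at h1
  refine h1.trans ?_
  rw [h3, ← Finset.prod_mul_distrib]
  apply Finset.prod_le_prod
  · intro i _; positivity
  · intro p hp
    rw [hP, Finset.mem_filter] at hp
    rw [← Finset.mul_prod_erase A _ (he p), mul_comm]
    apply Nat.mul_le_mul_right
    rw [Finset.prod_pow_eq_pow_sum]
    apply Nat.pow_le_pow_right hp.2.pos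
    rw [← hp.2.pow_dvd_iff_le_factorization (Nat.factorial_ne_zero X)]
    exact pow_dvd_factorial X n p A k hk hinj (e p) (he p) (hmax p)

end Pool.Agent.Helper377.Mass
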