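import Mathlib
import Pool.Agent.Helper377.Mass

namespace Pool.Agent.Helper377.Count

open Finset Nat

/-- Chebyshev's lower bound, in a form adapted to powers of two. -/
theorem cheb (x : ℕ) : 2 ^ x ≤ x + 1 + x * ((range (2 ^ x + 1)).filter Nat.Prime).card := by
  set P := (range (2 ^ x + 1)).filter Nat.Prime with hP
  have h1 : 2 ^ (2 ^ x) ≤ (2 ^ x + 1) * lcmUpto (2 ^ x) := Chebyshev.two_pow_le_mul_lcmUpto _
  have h2 : lcmUpto (2 ^ x) ≤ (2 ^ x) ^ P.card := by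
    rw [lcmUpto_eq_prod_pow_log, primesLE_eq_filter_range, ← Finset.prod_const]
    apply Finset.prod_le_prod
    · intro i _; positivity
    · intro i _
      exact Nat.pow_log_le_self i (by positivity)
  have h3 : 2 ^ x + 1 ≤ 2 ^ (x + 1) := by
    rw [pow_succ]
    have : 1 ≤ 2 ^ x := Nat.one_le_two_pow
    omega
  have h4 : 2 ^ (2 ^ x) ≤ 2 ^ (x + 1 + x * P.card) := by
    calc 2 ^ (2 ^ x) ≤ (2 ^ x + 1) * lcmUpto (2 ^ x) := h1
      _ ≤ 2 ^ (x + 1) * (2 ^ x) ^ P.card := Nat.mul_le_mul h3 h2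
      _ = 2 ^ (x + 1 + x * P.card) := by rw [← pow_mul, ← pow_add]
  exact (Nat.pow_le_pow_iff_right (by norm_num)).1 h4

theorem card_le_log (S : Finset ℕ) (Q : ℕ) (hQ : Q ≠ 0) (hS : ∀ p ∈ S, p.Prime ∧ p ∣ Q) :
    2 ^ S.card ≤ Q := by
  calc 2 ^ S.card = ∏ _p ∈ S, 2 := by rw [Finset.prod_const]
    _ ≤ ∏ p ∈ S, p := Finset.prod_le_prod (fun _ _ => by norm_num) (fun p hp => (hS p hp).1.two_le)
    _ ≤ Q := by
      apply Nat.le_of_dvd (Nat.pos_of_ne_zero hQ)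
      apply Finset.prod_primes_dvd
      · intro p hp; exact (hS p hp).1.prime
      · intro p hp; exact (hS p hp).2

/-- Few primes can be bad. -/
theorem bad_card (X n M : ℕ) (hn : 0 < n) (P : Finset ℕ) (f : ℕ → ℕ) (N2 : ℕ)
    (hf : ∀ p ∈ P, f p ≤ N2) (hnN : n ≤ N2) (hM : 0 < M) (a D : ℕ) (hP : P.card = a + D)
    (hmass : n ^ a ≤ X ! * ∏ p ∈ P, f p) (hN2 : N2 = 2 * n) :
    M ^ (P.filter (fun p => M * f p ≤ n)).card ≤ X ^ X * (2 ^ P.card * n ^ D) := by
  set Bd := P.filter (fun p => M * f p ≤ n) with hB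
  have h1 : M ^ Bd.card * ∏ p ∈ P, f p ≤ N2 ^ P.card := by
    have e1 : M ^ Bd.card = ∏ p ∈ P, (if M * f p ≤ n then M else 1) := by
      rw [Finset.prod_ite, Finset.prod_const, Finset.prod_const_one, mul_one]
    rw [e1, ← Finset.prod_mul_distrib, ← Finset.prod_const]
    apply Finset.prod_le_prod
    · intro i _; positivity
    · intro p hp
      split_ifs with h
      · exact h.trans hnN
      · rw [one_mul]; exact hf p hp
  have h2 : M ^ Bd.card * n ^ a ≤ X ^ X * (2 ^ P.card * n ^ D) * n ^ a := by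
    calc M ^ Bd.card * n ^ a ≤ M ^ Bd.card * (X ! * ∏ p ∈ P, f p) := Nat.mul_le_mul_left _ hmass
      _ = X ! * (M ^ Bd.card * ∏ p ∈ P, f p) := by ring
      _ ≤ X ^ X * N2 ^ P.card := Nat.mul_le_mul (Nat.factorial_le_pow X) h1
      _ = X ^ X * (2 ^ P.card * n ^ D) * n ^ a := by
        rw [hN2, mul_pow]
        rw [show n ^ P.card = n ^ a * n ^ D by rw [← pow_add, ← hP]]
        ring
  exact Nat.le_of_mul_le_mul_right h2 (by positivity)

end Pool.Agent.Helper377.Count
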