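import Mathlib

set_option autoImplicit false

open Finset Filter Topology

namespace Pool.Agent.Helper377.DivLimit

/-! ### decomposition of an integer into a rough and a smooth part -/

/-- all prime factors of `m ≠ 0` are at least `K` -/
def Rg (K m : ℕ) : Prop := m ≠ 0 ∧ ∀ p, p.Prime → p ∣ m → K ≤ p

theorem exists_dec (K : ℕ) (a : ℕ) (ha : a ≠ 0) :
    ∃ m s, Rg K m ∧ s ∈ Nat.smoothNumbers K ∧ m * s = a := by
  induction a using Nat.strong_induction_on with
  | _ a ih =>
    by_cases h1 : a = 1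
    · refine ⟨1, 1, ⟨one_ne_zero, fun p hp h => absurd (Nat.dvd_one.1 h) hp.ne_one⟩, ?_, by simp [h1]⟩
      rw [Nat.mem_smoothNumbers']
      intro p hp h
      exact absurd (Nat.dvd_one.1 h) hp.ne_one
    · obtain ⟨p, hp, b, rfl⟩ := Nat.exists_prime_and_dvd h1
      have hb : b ≠ 0 := fun h => ha (by rw [h, mul_zero])
      have hlt : b < p * b := by
        have := hp.two_le
        have := Nat.pos_of_ne_zero hb
        nlinarith
      obtain ⟨m, s, hm, hs, rfl⟩ := ih b hlt hb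
      by_cases hpK : p < K
      · refine ⟨m, p * s, hm, ?_, by ring⟩
        rw [Nat.mem_smoothNumbers'] at hs ⊢
        intro q hq hqd
        rcases (Nat.Prime.dvd_mul hq).1 hqd with h | h
        · rw [(Nat.prime_dvd_prime_iff_eq hq hp).1 h]; exact hpK
        · exact hs q hq h
      · refine ⟨p * m, s, ⟨mul_ne_zero hp.ne_zero hm.1, ?_⟩, hs, by ring⟩
        intro q hq hqd
        rcases (Nat.Prime.dvd_mul hq).1 hqd with h | h
        · rw [(Nat.prime_dvd_prime_iff_eq hq hp).1 h]; exact not_lt.1 hpK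
        · exact hm.2 q hq h

theorem rg_coprime {K m s : ℕ} (hm : Rg K m) (hs : s ∈ Nat.smoothNumbers K) : Nat.Coprime m s := by
  by_contra h
  obtain ⟨p, hp, h1, h2⟩ := Nat.Prime.not_coprime_iff_dvd.1 h
  have h3 := hm.2 p hp h1
  have h4 := Nat.mem_smoothNumbers'.1 hs p hp h2
  omega

theorem dec_unique {K m s m' s' : ℕ} (hm : Rg K m) (hs : s ∈ Nat.smoothNumbers K)
    (hm' : Rg K m') (hs' : s' ∈ Nat.smoothNumbers K) (h : m * s = m' * s') : m = m' ∧ s = s' := by
  have h1 : m ∣ m' := (rg_coprime hm hs').dvd_of_dvd_mul_right (h ▸ Dvd.intro _ rfl)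
  have h2 : m' ∣ m := (rg_coprime hm' hs).dvd_of_dvd_mul_right (h.symm ▸ Dvd.intro _ rfl)
  have h3 : m = m' := Nat.dvd_antisymm h1 h2
  refine ⟨h3, ?_⟩
  subst h3
  exact Nat.eq_of_mul_eq_mul_left (Nat.pos_of_ne_zero hm.1) h

open Classical in
/-- rough part -/
noncomputable def rp (K a : ℕ) : ℕ := if h : a ≠ 0 then (exists_dec K a h).choose else 0

open Classical in
/-- smooth part -/
noncomputable def sp (K a : ℕ) : ℕ :=
  if h : a ≠ 0 then (exists_dec K a h).choose_spec.choose else 0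

theorem dec_spec (K : ℕ) {a : ℕ} (ha : a ≠ 0) :
    Rg K (rp K a) ∧ sp K a ∈ Nat.smoothNumbers K ∧ rp K a * sp K a = a := by
  unfold rp sp
  rw [dif_pos ha, dif_pos ha]
  exact (exists_dec K a ha).choose_spec.choose_spec

theorem rp_sp_mul {K m s : ℕ} (hm : Rg K m) (hs : s ∈ Nat.smoothNumbers K) :
    rp K (m * s) = m ∧ sp K (m * s) = s := by
  have h0 : m * s ≠ 0 := mul_ne_zero hm.1 (Nat.ne_zero_of_mem_smoothNumbers hs)
  obtain ⟨h1, h2, h3⟩ := dec_spec K h0
  exact dec_unique h1 h2 hm hs h3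

theorem rp_eq_of_dvd {K a b : ℕ} (ha : a ≠ 0) (hb : b ≠ 0) (h : a ∣ b) (hK : b < K * a) :
    rp K a = rp K b := by
  obtain ⟨h1, h2, h3⟩ := dec_spec K ha
  obtain ⟨c, rfl⟩ := h
  have hc0 : 0 < c := Nat.pos_of_ne_zero (fun h => hb (by rw [h, mul_zero]))
  have hc : c < K := by
    rw [mul_comm K a] at hK
    exact lt_of_mul_lt_mul_left hK (Nat.zero_le a)
  have hcs : c ∈ Nat.smoothNumbers K := Nat.mem_smoothNumbers_of_lt hc0 hc
  have h4 : a * c = rp K a * (sp K a * c) := by
    rw [← mul_assoc, h3]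
  rw [h4]
  exact (rp_sp_mul h1 (Nat.mul_mem_smoothNumbers h2 hcs)).1.symm

/-! ### maximal cardinalities -/

open Classical in
/-- largest cardinality of a subset of `X` with the property `Adm` -/
noncomputable def mx (Adm : Finset ℕ → Prop) (X : Finset ℕ) : ℕ :=
  (X.powerset.filter Adm).sup Finset.card

theorem le_mx {Adm : Finset ℕ → Prop} {A X : Finset ℕ} (h : A ⊆ X) (hA : Adm A) :
    A.card ≤ mx Adm X := by
  classical
  exact Finset.le_sup (f := Finset.card) (mem_filter.2 ⟨mem_powerset.2 h, hA⟩)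

theorem exists_mx {Adm : Finset ℕ → Prop} (h0 : Adm ∅) (X : Finset ℕ) :
    ∃ A ⊆ X, Adm A ∧ A.card = mx Adm X := by
  classical
  have hne : (X.powerset.filter Adm).Nonempty :=
    ⟨∅, mem_filter.2 ⟨mem_powerset.2 (empty_subset _), h0⟩⟩
  obtain ⟨A, hA, h⟩ := Finset.exists_mem_eq_sup _ hne Finset.card
  obtain ⟨h1, h2⟩ := mem_filter.1 hA
  exact ⟨A, mem_powerset.1 h1, h2, h.symm⟩

/-- the properties of the constraint that are used -/
structure Good (Adm : Finset ℕ → Prop) : Prop where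
  emp : Adm ∅
  sub : ∀ A B : Finset ℕ, B ⊆ A → Adm A → Adm B
  dil : ∀ m : ℕ, m ≠ 0 → ∀ A : Finset ℕ, Adm (A.image (fun s => m * s)) ↔ Adm A
  loc : ∀ (K : ℕ) (A : Finset ℕ), (∀ a ∈ A, a ≠ 0) → (∀ a ∈ A, ∀ b ∈ A, b < K * a) →
    (∀ m, Adm (A.filter (fun a => rp K a = m))) → Adm A

open Classical in
/-- the `K`-smooth numbers up to `j` -/
noncomputable def smo (K j : ℕ) : Finset ℕ := (Icc 1 j).filter (fun s => s ∈ Nat.smoothNumbers K)

theorem mem_smo {K j s : ℕ} : s ∈ smo K j ↔ (1 ≤ s ∧ s ≤ j) ∧ s ∈ Nat.smoothNumbers K := by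
  unfold smo
  rw [mem_filter, mem_Icc]

open Classical in
/-- the `K`-rough numbers up to `n` -/
noncomputable def rgo (K n : ℕ) : Finset ℕ := (Icc 1 n).filter (fun m => Rg K m)

theorem mem_rgo {K n m : ℕ} : m ∈ rgo K n ↔ (1 ≤ m ∧ m ≤ n) ∧ Rg K m := by
  classical
  unfold rgo
  rw [mem_filter, mem_Icc]

/-- counting by the rough part -/
theorem count_rp (K n : ℕ) (B : ℕ → Finset ℕ) (hB : ∀ j, B j ⊆ smo K j) :
    ((Icc 1 n).filter (fun k => sp K k ∈ B (n / rp K k))).card =
      ∑ m ∈ rgo K n, (B (n / m)).card := by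
  classical
  rw [Finset.card_eq_sum_card_fiberwise (f := fun k => rp K k) (t := rgo K n)]
  · apply Finset.sum_congr rfl
    intro m hm
    obtain ⟨⟨hm1, hm2⟩, hm3⟩ := mem_rgo.1 hm
    symm
    apply Finset.card_bij (fun s _ => m * s)
    · intro s hs
      obtain ⟨⟨hs1, hs2⟩, hs3⟩ := mem_smo.1 (hB _ hs)
      obtain ⟨h1, h2⟩ := rp_sp_mul hm3 hs3
      rw [mem_filter, mem_filter, mem_Icc, h1, h2]
      refine ⟨⟨⟨Nat.mul_pos hm1 hs1, ?_⟩, hs⟩, rfl⟩
      calc m * s ≤ m * (n / m) := Nat.mul_le_mul_left _ hs2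
        _ ≤ n := Nat.mul_div_le n m
    · intro s _ s' _ h
      exact Nat.eq_of_mul_eq_mul_left hm1 h
    · intro k hk
      rw [mem_filter, mem_filter, mem_Icc] at hk
      obtain ⟨⟨⟨hk1, hk2⟩, hk3⟩, hk4⟩ := hk
      obtain ⟨h1, h2, h3⟩ := dec_spec K (by omega : k ≠ 0)
      refine ⟨sp K k, ?_, ?_⟩
      · rw [← hk4]; exact hk3
      · rw [← hk4]; exact h3
  · intro k hk
    obtain ⟨hk1, hk2⟩ := mem_filter.1 (Finset.mem_coe.1 hk)
    rw [mem_Icc] at hk1
    obtain ⟨h1, h2, h3⟩ := dec_spec K (by omega : k ≠ 0)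
    apply Finset.mem_coe.2
    rw [mem_rgo]
    refine ⟨⟨Nat.pos_of_ne_zero h1.1, ?_⟩, h1⟩
    have : 1 ≤ sp K k := Nat.pos_of_ne_zero (Nat.ne_zero_of_mem_smoothNumbers h2)
    nlinarith

variable {Adm : Finset ℕ → Prop}

/-- the extremal function of the smooth numbers -/
noncomputable def HH (Adm : Finset ℕ → Prop) (K j : ℕ) : ℕ := mx Adm (smo K j)

/-- class-wise admissible sets -/
def Cl (Adm : Finset ℕ → Prop) (K : ℕ) (A : Finset ℕ) : Prop :=
  ∀ m, Adm (A.filter (fun a => rp K a = m))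

theorem fK_eq (h : Good Adm) (K n : ℕ) :
    mx (Cl Adm K) (Icc 1 n) = ∑ m ∈ rgo K n, HH Adm K (n / m) := by
  classical
  apply le_antisymm
  · obtain ⟨A, hA1, hA2, hA3⟩ := exists_mx (Adm := Cl Adm K)
      (fun m => by rw [Finset.filter_empty]; exact h.emp) (Icc 1 n)
    rw [← hA3, Finset.card_eq_sum_card_fiberwise (f := fun k => rp K k) (t := rgo K n)]
    · apply Finset.sum_le_sum
      intro m hm
      obtain ⟨⟨hm1, hm2⟩, hm3⟩ := mem_rgo.1 hm
      have himg : ((A.filter (fun k => rp K k = m)).image (sp K)).image (fun s => m * s) =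
          A.filter (fun k => rp K k = m) := by
        rw [Finset.image_image]
        ext k
        rw [mem_image]
        constructor
        · rintro ⟨a, ha, rfl⟩
          obtain ⟨ha1, ha2⟩ := mem_filter.1 ha
          have ha0 : a ≠ 0 := by have := (mem_Icc.1 (hA1 ha1)).1; omega
          have : m * sp K a = a := by rw [← ha2]; exact (dec_spec K ha0).2.2
          simp only [Function.comp_apply]
          rw [this]; exact ha
        · intro hk
          obtain ⟨hk1, hk2⟩ := mem_filter.1 hk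
          have hk0 : k ≠ 0 := by have := (mem_Icc.1 (hA1 hk1)).1; omega
          refine ⟨k, hk, ?_⟩
          show m * sp K k = k
          rw [← hk2]; exact (dec_spec K hk0).2.2
      have h1 : Adm ((A.filter (fun k => rp K k = m)).image (sp K)) := by
        rw [← h.dil m (by omega), himg]
        exact hA2 m
      have hcard : ((A.filter (fun k => rp K k = m)).image (sp K)).card =
          (A.filter (fun k => rp K k = m)).card := by
        apply Finset.card_image_of_injOn
        intro a ha b hb hab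
        obtain ⟨ha1, ha2⟩ := mem_filter.1 (Finset.mem_coe.1 ha)
        obtain ⟨hb1, hb2⟩ := mem_filter.1 (Finset.mem_coe.1 hb)
        have ha0 : a ≠ 0 := by have := (mem_Icc.1 (hA1 ha1)).1; omega
        have hb0 : b ≠ 0 := by have := (mem_Icc.1 (hA1 hb1)).1; omega
        rw [← (dec_spec K ha0).2.2, ← (dec_spec K hb0).2.2, ha2, hb2, hab]
      rw [← hcard]
      apply le_mx _ h1
      intro s hs
      obtain ⟨a, ha, rfl⟩ := mem_image.1 hs
      obtain ⟨ha1, ha2⟩ := mem_filter.1 ha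
      have ha3 := mem_Icc.1 (hA1 ha1)
      have ha0 : a ≠ 0 := by omega
      obtain ⟨h2, h3, h4⟩ := dec_spec K ha0
      rw [mem_smo]
      refine ⟨⟨Nat.pos_of_ne_zero (Nat.ne_zero_of_mem_smoothNumbers h3), ?_⟩, h3⟩
      rw [Nat.le_div_iff_mul_le hm1, mul_comm, ← ha2, h4]
      exact ha3.2
    · intro k hk
      have hk1 := mem_Icc.1 (hA1 (Finset.mem_coe.1 hk))
      obtain ⟨h1, h2, h3⟩ := dec_spec K (by omega : k ≠ 0)
      apply Finset.mem_coe.2
      rw [mem_rgo]
      refine ⟨⟨Nat.pos_of_ne_zero h1.1, ?_⟩, h1⟩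
      have : 1 ≤ sp K k := Nat.pos_of_ne_zero (Nat.ne_zero_of_mem_smoothNumbers h2)
      nlinarith
  · have hB : ∀ j, ∃ B ⊆ smo K j, Adm B ∧ B.card = HH Adm K j := fun j => exists_mx h.emp _
    choose B hB1 hB2 hB3 using hB
    have h1 := count_rp K n B hB1
    simp only [hB3] at h1
    rw [← h1]
    apply le_mx (Finset.filter_subset _ _)
    intro m
    by_cases hm : m ∈ rgo K n
    · obtain ⟨⟨hm1, hm2⟩, hm3⟩ := mem_rgo.1 hm
      refine h.sub _ _ ?_ ((h.dil m (by omega) (B (n / m))).2 (hB2 _))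
      intro k hk
      rw [mem_filter, mem_filter, mem_Icc] at hk
      obtain ⟨⟨⟨hk1, hk2⟩, hk3⟩, hk4⟩ := hk
      obtain ⟨h5, h6, h7⟩ := dec_spec K (by omega : k ≠ 0)
      rw [mem_image]
      refine ⟨sp K k, ?_, ?_⟩
      · rw [← hk4]; exact hk3
      · rw [← hk4]; exact h7
    · have : ((Icc 1 n).filter (fun k => sp K k ∈ B (n / rp K k))).filter
          (fun a => rp K a = m) = ∅ := by
        rw [Finset.filter_eq_empty_iff]
        intro k hk hkm
        apply hm
        have hk1 := mem_Icc.1 (mem_filter.1 hk).1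
        obtain ⟨h1, h2, h3⟩ := dec_spec K (by omega : k ≠ 0)
        rw [mem_rgo, ← hkm]
        refine ⟨⟨Nat.pos_of_ne_zero h1.1, ?_⟩, h1⟩
        have : 1 ≤ sp K k := Nat.pos_of_ne_zero (Nat.ne_zero_of_mem_smoothNumbers h2)
        nlinarith
      rw [this]; exact h.emp

/-- the set of places where the extremal function of the smooth numbers increases -/
def GG (Adm : Finset ℕ → Prop) (K : ℕ) : Set ℕ :=
  {s | s ∈ Nat.smoothNumbers K ∧ HH Adm K (s - 1) < HH Adm K s}

theorem smo_succ_sub (K j : ℕ) : smo K (j + 1) ⊆ insert (j + 1) (smo K j) := by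
  intro s hs
  rw [mem_smo] at hs
  rw [mem_insert, mem_smo]
  by_cases h : s = j + 1
  · exact Or.inl h
  · exact Or.inr ⟨⟨hs.1.1, by omega⟩, hs.2⟩

theorem HH_mono (h : Good Adm) (K j : ℕ) : HH Adm K j ≤ HH Adm K (j + 1) := by
  obtain ⟨A, hA1, hA2, hA3⟩ := exists_mx h.emp (smo K j)
  unfold HH
  rw [← hA3]
  apply le_mx _ hA2
  intro s hs
  have := mem_smo.1 (hA1 hs)
  exact mem_smo.2 ⟨⟨this.1.1, by omega⟩, this.2⟩

theorem HH_succ (h : Good Adm) (K j : ℕ) : HH Adm K (j + 1) ≤ HH Adm K j + 1 := by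
  classical
  obtain ⟨A, hA1, hA2, hA3⟩ := exists_mx h.emp (smo K (j + 1))
  unfold HH
  rw [← hA3]
  have h1 : (A.erase (j + 1)).card ≤ mx Adm (smo K j) := by
    apply le_mx _ (h.sub _ _ (Finset.erase_subset _ _) hA2)
    intro s hs
    obtain ⟨hs1, hs2⟩ := mem_erase.1 hs
    exact (mem_insert.1 (smo_succ_sub K j (hA1 hs2))).resolve_left hs1
  have h2 := Finset.pred_card_le_card_erase (s := A) (a := j + 1)
  omega

theorem HH_succ_not (K j : ℕ) (hj : j + 1 ∉ Nat.smoothNumbers K) :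
    HH Adm K (j + 1) = HH Adm K j := by
  unfold HH
  congr 1
  ext s
  rw [mem_smo, mem_smo]
  constructor
  · rintro ⟨⟨h1, h2⟩, h3⟩
    refine ⟨⟨h1, ?_⟩, h3⟩
    rcases Nat.lt_or_ge j s with h4 | h4
    · exfalso
      apply hj
      rwa [show j + 1 = s by omega]
    · exact h4
  · rintro ⟨⟨h1, h2⟩, h3⟩
    exact ⟨⟨h1, by omega⟩, h3⟩

open Classical in
theorem HH_eq_card (h : Good Adm) (K j : ℕ) :
    ((Icc 1 j).filter (fun s => s ∈ GG Adm K)).card = HH Adm K j := by
  induction j with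
  | zero =>
    obtain ⟨A, hA1, hA2, hA3⟩ := exists_mx h.emp (smo K 0)
    have : A = ∅ := by
      rw [Finset.eq_empty_iff_forall_notMem]
      intro s hs
      have := mem_smo.1 (hA1 hs)
      omega
    unfold HH
    rw [← hA3, this]
    simp
  | succ j ih =>
    rw [← Finset.insert_Icc_right_eq_Icc_add_one (by omega : 1 ≤ j + 1), Finset.filter_insert]
    by_cases hg : j + 1 ∈ GG Adm K
    · rw [if_pos hg, Finset.card_insert_of_notMem, ih]
      · have h1 := hg.2
        have h2 := HH_succ h K j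
        rw [Nat.add_sub_cancel] at h1
        omega
      · intro h1
        have := mem_Icc.1 (mem_filter.1 h1).1
        omega
    · rw [if_neg hg, ih]
      by_cases hs : j + 1 ∈ Nat.smoothNumbers K
      · have h1 : ¬ HH Adm K (j + 1 - 1) < HH Adm K (j + 1) := fun h1 => hg ⟨hs, h1⟩
        rw [Nat.add_sub_cancel] at h1
        have := HH_mono h K j
        omega
      · exact (HH_succ_not K j hs).symm

open Classical in
theorem fK_eq_card (h : Good Adm) (K n : ℕ) :
    mx (Cl Adm K) (Icc 1 n) = ((Icc 1 n).filter (fun k => sp K k ∈ GG Adm K)).card := by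
  rw [fK_eq h]
  have h1 := count_rp K n (fun j => (Icc 1 j).filter (fun s => s ∈ GG Adm K)) (by
    intro j s hs
    obtain ⟨h1, h2⟩ := mem_filter.1 hs
    exact mem_smo.2 ⟨mem_Icc.1 h1, h2.1⟩)
  simp only [HH_eq_card h] at h1
  rw [← h1]
  congr 1
  apply Finset.filter_congr
  intro k hk
  rw [mem_Icc] at hk
  obtain ⟨h2, h3, h4⟩ := dec_spec K (by omega : k ≠ 0)
  rw [mem_filter, mem_Icc]
  constructor
  · exact fun h => h.2
  · intro h5
    refine ⟨⟨Nat.pos_of_ne_zero (Nat.ne_zero_of_mem_smoothNumbers h3), ?_⟩, h5⟩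
    rw [Nat.le_div_iff_mul_le (Nat.pos_of_ne_zero h2.1), mul_comm, h4]
    exact hk.2

/-! ### densities -/

theorem rgo_card_eq (K n : ℕ) :
    (rgo K n).card = ((Icc 1 n).filter (fun m => (∏ p ∈ Nat.primesBelow K, p).Coprime m)).card := by
  classical
  congr 1
  unfold rgo
  apply Finset.filter_congr
  intro m hm
  rw [mem_Icc] at hm
  constructor
  · intro h
    rw [Nat.coprime_prod_left_iff]
    intro p hp
    have hp' := Nat.mem_primesBelow.1 hp
    rw [Nat.Prime.coprime_iff_not_dvd hp'.2]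
    intro hd
    have := h.2 p hp'.2 hd
    omega
  · intro h
    refine ⟨by omega, fun p hp hd => ?_⟩
    by_contra hlt
    rw [Nat.coprime_prod_left_iff] at h
    have := h p (Nat.mem_primesBelow.2 ⟨not_le.1 hlt, hp⟩)
    rw [Nat.Prime.coprime_iff_not_dvd hp] at this
    exact this hd

/-- the density of the rough numbers -/
noncomputable def rho (K : ℕ) : ℝ := ∏ p ∈ Nat.primesBelow K, (1 - (p : ℝ)⁻¹)

theorem totient_rho (K : ℕ) :
    (Nat.totient (∏ p ∈ Nat.primesBelow K, p) : ℝ) = (∏ p ∈ Nat.primesBelow K, p : ℕ) * rho K := by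
  have h := Nat.totient_eq_mul_prod_factors (∏ p ∈ Nat.primesBelow K, p)
  rw [Nat.primeFactors_prod (fun p hp => (Nat.mem_primesBelow.1 hp).2)] at h
  have h2 := congrArg (fun x : ℚ => (x : ℝ)) h
  unfold rho
  push_cast at h2 ⊢
  exact h2

theorem count_blocks (a : ℕ) (q : ℕ) :
    ((Ico 1 (1 + a * q)).filter (fun m => a.Coprime m)).card = q * Nat.totient a := by
  induction q with
  | zero => simp
  | succ q ih =>
    have h1 : Ico 1 (1 + a * (q + 1)) = Ico 1 (1 + a * q) ∪ Ico (1 + a * q) (1 + a * q + a) := by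
      rw [Finset.Ico_union_Ico_eq_Ico (by omega) (by omega)]
      congr 1
      ring
    rw [h1, Finset.filter_union, Finset.card_union_of_disjoint, ih,
      Nat.filter_coprime_Ico_eq_totient]
    · ring
    · apply Finset.disjoint_filter_filter
      exact Finset.Ico_disjoint_Ico_consecutive _ _ _

theorem rgo_card_bound (K n : ℕ) :
    |((rgo K n).card : ℝ) - rho K * n| ≤ 2 * (∏ p ∈ Nat.primesBelow K, p : ℕ) := by
  obtain ⟨a, ha⟩ : ∃ a, a = ∏ p ∈ Nat.primesBelow K, p := ⟨_, rfl⟩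
  have ha0 : 0 < a := by
    rw [ha]; exact Finset.prod_pos (fun p hp => (Nat.mem_primesBelow.1 hp).2.pos)
  have ha0' : (0 : ℝ) < a := by exact_mod_cast ha0
  have htot := totient_rho K
  rw [rgo_card_eq, ← ha]
  rw [← ha] at htot
  obtain ⟨q, hq⟩ : ∃ q, q = n / a := ⟨_, rfl⟩
  have hn1 : a * q ≤ n := by rw [hq]; exact Nat.mul_div_le n a
  have hn2 : n < a * q + a := by
    rw [hq]
    have := Nat.lt_mul_div_succ n ha0
    rw [Nat.mul_add, Nat.mul_one] at this
    exact this
  have hlow : q * Nat.totient a ≤ ((Icc 1 n).filter (fun m => a.Coprime m)).card := by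
    rw [← count_blocks a q]
    apply Finset.card_le_card
    apply Finset.filter_subset_filter
    intro m hm
    rw [mem_Ico] at hm
    rw [mem_Icc]
    omega
  have hup : ((Icc 1 n).filter (fun m => a.Coprime m)).card ≤ (q + 1) * Nat.totient a := by
    rw [← count_blocks a (q + 1)]
    apply Finset.card_le_card
    apply Finset.filter_subset_filter
    intro m hm
    rw [mem_Icc] at hm
    rw [mem_Ico, Nat.mul_add, Nat.mul_one]
    omega
  have hr1 : 0 ≤ rho K := by
    unfold rho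
    apply Finset.prod_nonneg
    intro p hp
    have h2 : (1 : ℝ) ≤ p := by exact_mod_cast (Nat.mem_primesBelow.1 hp).2.one_lt.le
    have := inv_le_one_of_one_le₀ h2
    linarith
  have hr2 : rho K ≤ 1 := by
    unfold rho
    apply Finset.prod_le_one
    · intro p hp
      have h2 : (1 : ℝ) ≤ p := by exact_mod_cast (Nat.mem_primesBelow.1 hp).2.one_lt.le
      have := inv_le_one_of_one_le₀ h2
      linarith
    · intro p hp
      have : (0 : ℝ) ≤ (p : ℝ)⁻¹ := by positivity
      linarith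
  have hlow' : (q : ℝ) * (a * rho K) ≤ ((Icc 1 n).filter (fun m => a.Coprime m)).card := by
    rw [← htot]; exact_mod_cast hlow
  have hup' : (((Icc 1 n).filter (fun m => a.Coprime m)).card : ℝ) ≤ (q + 1) * (a * rho K) := by
    rw [← htot]; exact_mod_cast hup
  have hn1' : (a : ℝ) * q ≤ n := by exact_mod_cast hn1
  have hn2' : (n : ℝ) ≤ a * q + a := by exact_mod_cast hn2.le
  have har : (a : ℝ) * rho K ≤ a := by nlinarith
  rw [abs_le]
  constructor
  · nlinarith [mul_le_mul_of_nonneg_right hn2' hr1]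
  · nlinarith [mul_le_mul_of_nonneg_right hn1' hr1]

/-- reciprocal as a monoid homomorphism -/
noncomputable def invHom : ℕ →* ℝ where
  toFun n := (n : ℝ)⁻¹
  map_one' := by simp
  map_mul' a b := by push_cast; rw [mul_inv]

open Classical in
theorem summable_smooth (K : ℕ) :
    Summable (fun s : ℕ => if s ∈ Nat.smoothNumbers K then (s : ℝ)⁻¹ else 0) := by
  have h := (EulerProduct.summable_and_hasSum_smoothNumbers_prod_primesBelow_geometric
    (f := invHom) (fun {p} hp => by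
      show ‖((p : ℕ) : ℝ)⁻¹‖ < 1
      rw [norm_inv, Real.norm_natCast]
      exact inv_lt_one_of_one_lt₀ (by exact_mod_cast hp.one_lt)) K).1
  have h2 : Summable ((fun m : ℕ => (m : ℝ)⁻¹) ∘ ((↑) : Nat.smoothNumbers K → ℕ)) := by
    refine h.congr (fun m => ?_)
    show ‖((m : ℕ) : ℝ)⁻¹‖ = _
    rw [norm_inv, Real.norm_natCast]
    rfl
  have h3 := summable_subtype_iff_indicator.1 h2
  refine h3.congr (fun m => ?_)
  rw [Set.indicator_apply]

open Classical in
theorem count_sp (K n : ℕ) (G : Set ℕ) (hG : G ⊆ Nat.smoothNumbers K) :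
    ((Icc 1 n).filter (fun k => sp K k ∈ G)).card =
      ∑ s ∈ (Icc 1 n).filter (fun s => s ∈ G), (rgo K (n / s)).card := by
  rw [Finset.card_eq_sum_card_fiberwise (f := fun k => sp K k)
    (t := (Icc 1 n).filter (fun s => s ∈ G))]
  · apply Finset.sum_congr rfl
    intro s hs
    obtain ⟨hs1, hs2⟩ := mem_filter.1 hs
    rw [mem_Icc] at hs1
    symm
    apply Finset.card_bij (fun m _ => m * s)
    · intro m hm
      obtain ⟨⟨hm1, hm2⟩, hm3⟩ := mem_rgo.1 hm
      obtain ⟨h1, h2⟩ := rp_sp_mul hm3 (hG hs2)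
      rw [mem_filter, mem_filter, mem_Icc, h2]
      refine ⟨⟨⟨Nat.mul_pos hm1 hs1.1, ?_⟩, hs2⟩, rfl⟩
      calc m * s ≤ (n / s) * s := Nat.mul_le_mul_right _ hm2
        _ ≤ n := Nat.div_mul_le_self n s
    · intro m _ m' _ h
      exact Nat.eq_of_mul_eq_mul_right hs1.1 h
    · intro k hk
      rw [mem_filter, mem_filter, mem_Icc] at hk
      obtain ⟨⟨⟨hk1, hk2⟩, hk3⟩, hk4⟩ := hk
      obtain ⟨h1, h2, h3⟩ := dec_spec K (by omega : k ≠ 0)
      refine ⟨rp K k, ?_, ?_⟩
      · rw [mem_rgo]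
        refine ⟨⟨Nat.pos_of_ne_zero h1.1, ?_⟩, h1⟩
        rw [Nat.le_div_iff_mul_le hs1.1, ← hk4, h3]
        exact hk2
      · show rp K k * s = k
        rw [← hk4]; exact h3
  · intro k hk
    obtain ⟨hk1, hk2⟩ := mem_filter.1 (Finset.mem_coe.1 hk)
    rw [mem_Icc] at hk1
    obtain ⟨h1, h2, h3⟩ := dec_spec K (by omega : k ≠ 0)
    apply Finset.mem_coe.2
    rw [mem_filter, mem_Icc]
    refine ⟨⟨Nat.pos_of_ne_zero (Nat.ne_zero_of_mem_smoothNumbers h2), ?_⟩, hk2⟩
    have : 1 ≤ rp K k := Nat.pos_of_ne_zero h1.1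
    nlinarith

theorem rho_nonneg (K : ℕ) : 0 ≤ rho K := by
  unfold rho
  apply Finset.prod_nonneg
  intro p hp
  have h2 : (1 : ℝ) ≤ p := by exact_mod_cast (Nat.mem_primesBelow.1 hp).2.one_lt.le
  have := inv_le_one_of_one_le₀ h2
  linarith

theorem rho_le_one (K : ℕ) : rho K ≤ 1 := by
  unfold rho
  apply Finset.prod_le_one
  · intro p hp
    have h2 : (1 : ℝ) ≤ p := by exact_mod_cast (Nat.mem_primesBelow.1 hp).2.one_lt.le
    have := inv_le_one_of_one_le₀ h2
    linarith
  · intro p hp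
    have : (0 : ℝ) ≤ (p : ℝ)⁻¹ := by positivity
    linarith

theorem tendsto_rgo (K s : ℕ) (hs : 1 ≤ s) :
    Tendsto (fun n : ℕ => ((rgo K (n / s)).card : ℝ) / n) atTop (𝓝 (rho K / s)) := by
  obtain ⟨C, hC⟩ : ∃ C : ℝ, C = 2 * (∏ p ∈ Nat.primesBelow K, p : ℕ) + 1 := ⟨_, rfl⟩
  rw [tendsto_iff_norm_sub_tendsto_zero]
  have hlim : Tendsto (fun n : ℕ => C / (n : ℝ)) atTop (𝓝 0) := tendsto_const_div_atTop_nhds_zero_nat C
  refine squeeze_zero' (Eventually.of_forall (fun n => norm_nonneg _)) ?_ hlim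
  filter_upwards [eventually_ge_atTop 1] with n hn
  have hn0 : (0 : ℝ) < n := by exact_mod_cast hn
  have hs0 : (0 : ℝ) < s := by exact_mod_cast hs
  have h1 := rgo_card_bound K (n / s)
  have h2 : ((n / s : ℕ) : ℝ) ≤ n / s := Nat.cast_div_le
  have h3 : (n : ℝ) / s ≤ ((n / s : ℕ) : ℝ) + 1 := by
    rw [div_le_iff₀ hs0]
    have := Nat.lt_mul_div_succ n (show 0 < s from hs)
    have h4 : (n : ℝ) ≤ (s * (n / s + 1) : ℕ) := by exact_mod_cast this.le
    push_cast at h4
    linarith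
  have hr1 := rho_nonneg K
  have hr2 := rho_le_one K
  have h5 : ((rgo K (n / s)).card : ℝ) / n - rho K / s =
      (((rgo K (n / s)).card : ℝ) - rho K * (n / s)) / n := by
    field_simp
  rw [h5, Real.norm_eq_abs, abs_div, abs_of_pos hn0]
  apply div_le_div_of_nonneg_right _ hn0.le
  rw [abs_le] at h1 ⊢
  rw [hC]
  constructor
  · nlinarith [mul_le_mul_of_nonneg_left h3 hr1]
  · nlinarith [mul_le_mul_of_nonneg_left h2 hr1]

/-- the `K`-th approximation of the limit -/
noncomputable def lam (Adm : Finset ℕ → Prop) (K : ℕ) : ℝ :=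
  rho K * ∑' s : GG Adm K, (1 : ℝ) / (s : ℕ)

open Classical in
theorem lam_eq (Adm : Finset ℕ → Prop) (K : ℕ) :
    lam Adm K = ∑' s : ℕ, if s ∈ GG Adm K then rho K / s else 0 := by
  unfold lam
  rw [← tsum_mul_left, tsum_subtype (GG Adm K) (fun s : ℕ => rho K * (1 / (s : ℝ)))]
  apply tsum_congr
  intro s
  rw [Set.indicator_apply, mul_one_div]

theorem fK_tendsto (h : Good Adm) (K : ℕ) :
    Tendsto (fun n : ℕ => (mx (Cl Adm K) (Icc 1 n) : ℝ) / n) atTop (𝓝 (lam Adm K)) := by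
  classical
  rw [lam_eq]
  have hsub : GG Adm K ⊆ Nat.smoothNumbers K := fun s hs => hs.1
  have hpos : ∀ s ∈ GG Adm K, 1 ≤ s := fun s hs =>
    Nat.pos_of_ne_zero (Nat.ne_zero_of_mem_smoothNumbers (hsub hs))
  have key := tendsto_tsum_of_dominated_convergence (𝓕 := atTop)
    (f := fun (n : ℕ) (s : ℕ) => if s ∈ GG Adm K then ((rgo K (n / s)).card : ℝ) / n else 0)
    (g := fun s : ℕ => if s ∈ GG Adm K then rho K / s else 0)
    (bound := fun s : ℕ => if s ∈ Nat.smoothNumbers K then (s : ℝ)⁻¹ else 0)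
    (summable_smooth K) (fun s => by
      by_cases hs : s ∈ GG Adm K
      · simp only [hs, if_true]
        exact tendsto_rgo K s (hpos s hs)
      · simp only [hs, if_false]
        exact tendsto_const_nhds) (Eventually.of_forall (fun n s => by
      by_cases hs : s ∈ GG Adm K
      · simp only [hs, hsub hs, if_true]
        have hs1 := hpos s hs
        have hs0 : (0 : ℝ) < s := by exact_mod_cast hs1
        rw [Real.norm_eq_abs, abs_of_nonneg (by positivity)]
        rcases Nat.eq_zero_or_pos n with hn | hn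
        · rw [hn]; simp
        · have hn0 : (0 : ℝ) < n := by exact_mod_cast hn
          rw [div_le_iff₀ hn0]
          have h1 : (rgo K (n / s)).card ≤ n / s := by
            have : (rgo K (n / s)).card ≤ (Icc 1 (n / s)).card :=
              Finset.card_le_card (Finset.filter_subset _ _)
            simpa using this
          have h2 : ((n / s : ℕ) : ℝ) ≤ n / s := Nat.cast_div_le
          calc ((rgo K (n / s)).card : ℝ) ≤ ((n / s : ℕ) : ℝ) := by exact_mod_cast h1
            _ ≤ n / s := h2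
            _ = (s : ℝ)⁻¹ * n := by rw [div_eq_inv_mul]
      · simp only [hs, if_false, norm_zero]
        split_ifs <;> positivity))
  refine key.congr (fun n => ?_)
  rw [fK_eq_card h, count_sp K n _ hsub, tsum_eq_sum (s := Icc 1 n)]
  · rw [← Finset.sum_filter]
    push_cast
    rw [Finset.sum_div]
  · intro s hs
    by_cases hg : s ∈ GG Adm K
    · have hs1 := hpos s hg
      have hsn : n < s := by
        by_contra hcon
        exact hs (mem_Icc.2 ⟨hs1, not_lt.1 hcon⟩)
      rw [if_pos hg, Nat.div_eq_of_lt hsn]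
      have : rgo K 0 = ∅ := by
        rw [Finset.eq_empty_iff_forall_notMem]
        intro m hm
        have := mem_rgo.1 hm
        omega
      rw [this]; simp
    · rw [if_neg hg]

theorem f_le_fK (h : Good Adm) (K n : ℕ) : mx Adm (Icc 1 n) ≤ mx (Cl Adm K) (Icc 1 n) := by
  obtain ⟨A, hA1, hA2, hA3⟩ := exists_mx h.emp (Icc 1 n)
  rw [← hA3]
  exact le_mx hA1 (fun m => h.sub _ _ (Finset.filter_subset _ _) hA2)

theorem fK_le (h : Good Adm) {K : ℕ} (hK : 1 ≤ K) (n : ℕ) :
    mx (Cl Adm K) (Icc 1 n) ≤ mx Adm (Icc 1 n) + n / K := by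
  classical
  obtain ⟨A, hA1, hA2, hA3⟩ := exists_mx (Adm := Cl Adm K)
    (fun m => by rw [Finset.filter_empty]; exact h.emp) (Icc 1 n)
  rw [← hA3]
  have h1 : Adm (A.filter (fun a => n < K * a)) := by
    apply h.loc K
    · intro a ha
      have := (mem_Icc.1 (hA1 (mem_filter.1 ha).1)).1
      omega
    · intro a ha b hb
      have h2 := (mem_Icc.1 (hA1 (mem_filter.1 hb).1)).2
      have h3 := (mem_filter.1 ha).2
      omega
    · intro m
      apply h.sub _ _ _ (hA2 m)
      exact Finset.filter_subset_filter _ (Finset.filter_subset _ _)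
  have h2 := le_mx ((Finset.filter_subset _ _).trans hA1) h1
  have h3 : (A.filter (fun a => ¬ n < K * a)).card ≤ n / K := by
    have : (A.filter (fun a => ¬ n < K * a)) ⊆ Icc 1 (n / K) := by
      intro a ha
      obtain ⟨ha1, ha2⟩ := mem_filter.1 ha
      have ha3 := (mem_Icc.1 (hA1 ha1)).1
      rw [mem_Icc, Nat.le_div_iff_mul_le (by omega), mul_comm]
      exact ⟨ha3, not_lt.1 ha2⟩
    have := Finset.card_le_card this
    simpa using this
  have h4 := Finset.card_filter_add_card_filter_not (s := A) (fun a => n < K * a)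
  omega

/-- **The limit exists** and is approximated by `lam Adm K` with error at most `1 / K`. -/
theorem limit (h : Good Adm) :
    ∃ L : ℝ, Tendsto (fun n : ℕ => (mx Adm (Icc 1 n) : ℝ) / n) atTop (𝓝 L) ∧
      ∀ K : ℕ, 1 ≤ K → L ≤ lam Adm K ∧ lam Adm K ≤ L + 1 / K := by
  have hle : ∀ K n : ℕ, (mx Adm (Icc 1 n) : ℝ) / n ≤ (mx (Cl Adm K) (Icc 1 n) : ℝ) / n := by
    intro K n
    apply div_le_div_of_nonneg_right _ (Nat.cast_nonneg n)
    exact_mod_cast f_le_fK h K n
  have hge : ∀ K n : ℕ, 1 ≤ K →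
      (mx (Cl Adm K) (Icc 1 n) : ℝ) / n ≤ (mx Adm (Icc 1 n) : ℝ) / n + 1 / K := by
    intro K n hK
    have hK0 : (0 : ℝ) < K := by exact_mod_cast hK
    rcases Nat.eq_zero_or_pos n with hn | hn
    · rw [hn]; simp
    · have hn0 : (0 : ℝ) < n := by exact_mod_cast hn
      have h1 : (mx (Cl Adm K) (Icc 1 n) : ℝ) ≤ mx Adm (Icc 1 n) + ((n / K : ℕ) : ℝ) := by
        exact_mod_cast fK_le h hK n
      have h2 : ((n / K : ℕ) : ℝ) ≤ n / K := Nat.cast_div_le
      rw [div_le_iff₀ hn0, add_mul, div_mul_cancel₀ _ hn0.ne']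
      have h3 : 1 / (K : ℝ) * n = n / K := by ring
      rw [h3]; linarith
  have hcau : CauchySeq (fun n : ℕ => (mx Adm (Icc 1 n) : ℝ) / n) := by
    rw [Metric.cauchySeq_iff']
    intro ε hε
    obtain ⟨K, hK⟩ := exists_nat_gt (4 / ε)
    have hK0 : (0 : ℝ) < K := lt_trans (by positivity) hK
    have hK1 : 1 ≤ K := by exact_mod_cast hK0
    have hKε : 1 / (K : ℝ) < ε / 4 := by
      rw [div_lt_iff₀ hK0]
      rw [div_lt_iff₀ hε] at hK
      linarith
    have h1 := Metric.tendsto_atTop.1 (fK_tendsto h K) (ε / 4) (by positivity)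
    obtain ⟨N, hN⟩ := h1
    refine ⟨N, fun n hn => ?_⟩
    have h2 := hN n hn
    have h3 := hN N le_rfl
    rw [Real.dist_eq, abs_lt] at h2 h3 ⊢
    have h4 := hle K n
    have h5 := hle K N
    have h6 := hge K n hK1
    have h7 := hge K N hK1
    constructor <;> linarith
  obtain ⟨L, hL⟩ := cauchySeq_tendsto_of_complete hcau
  refine ⟨L, hL, fun K hK => ⟨?_, ?_⟩⟩
  · exact le_of_tendsto_of_tendsto' hL (fK_tendsto h K) (hle K)
  · exact le_of_tendsto_of_tendsto' (fK_tendsto h K) (hL.add_const _) (fun n => hge K n hK)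

end Pool.Agent.Helper377.DivLimit
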