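import Pool.Agent.Helper377.DivLimit

set_option autoImplicit false

open Finset Filter Topology

namespace Pool.Agent.Helper377.DivLimit

/-- no element of `A` divides `k` other elements of `A` -/
def DivK (k : ℕ) (A : Finset ℕ) : Prop :=
  ∀ a ∈ A, (A.filter (fun b => b ≠ a ∧ a ∣ b)).card < k

/-- no element of `A` is a multiple of `k` other elements of `A` -/
def MulK (k : ℕ) (A : Finset ℕ) : Prop :=
  ∀ a ∈ A, (A.filter (fun b => b ≠ a ∧ b ∣ a)).card < k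

theorem good_divK (k : ℕ) : Good (DivK k) where
  emp := fun a ha => absurd ha (Finset.notMem_empty a)
  sub := by
    intro A B hBA hA a ha
    exact lt_of_le_of_lt (Finset.card_le_card (Finset.filter_subset_filter _ hBA)) (hA a (hBA ha))
  dil := by
    intro m hm A
    have hinj : Function.Injective (fun s : ℕ => m * s) :=
      fun x y h => Nat.eq_of_mul_eq_mul_left (Nat.pos_of_ne_zero hm) h
    have key : ∀ a, ((A.image (fun s => m * s)).filter (fun b => b ≠ m * a ∧ m * a ∣ b)).card =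
        (A.filter (fun b => b ≠ a ∧ a ∣ b)).card := by
      intro a
      rw [← Finset.card_image_of_injective (A.filter (fun b => b ≠ a ∧ a ∣ b)) hinj]
      congr 1
      ext x
      simp only [mem_filter, mem_image]
      constructor
      · rintro ⟨⟨b, hb, rfl⟩, h1, h2⟩
        refine ⟨b, ⟨hb, fun h => h1 (by rw [h]), ?_⟩, rfl⟩
        exact Nat.dvd_of_mul_dvd_mul_left (Nat.pos_of_ne_zero hm) h2
      · rintro ⟨b, ⟨hb, h1, h2⟩, rfl⟩
        exact ⟨⟨b, hb, rfl⟩, fun h => h1 (hinj h), Nat.mul_dvd_mul_left m h2⟩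
    constructor
    · intro h a ha
      rw [← key]
      exact h _ (mem_image_of_mem _ ha)
    · intro h x hx
      obtain ⟨a, ha, rfl⟩ := mem_image.1 hx
      rw [key]
      exact h a ha
  loc := by
    intro K A h0 hK hc a ha
    have h1 := hc (rp K a) a (mem_filter.2 ⟨ha, rfl⟩)
    refine lt_of_le_of_lt (Finset.card_le_card ?_) h1
    intro b hb
    obtain ⟨hb1, hb2, hb3⟩ := mem_filter.1 hb
    rw [mem_filter, mem_filter]
    exact ⟨⟨hb1, (rp_eq_of_dvd (h0 a ha) (h0 b hb1) hb3 (hK a ha b hb1)).symm⟩, hb2, hb3⟩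

theorem good_mulK (k : ℕ) : Good (MulK k) where
  emp := fun a ha => absurd ha (Finset.notMem_empty a)
  sub := by
    intro A B hBA hA a ha
    exact lt_of_le_of_lt (Finset.card_le_card (Finset.filter_subset_filter _ hBA)) (hA a (hBA ha))
  dil := by
    intro m hm A
    have hinj : Function.Injective (fun s : ℕ => m * s) :=
      fun x y h => Nat.eq_of_mul_eq_mul_left (Nat.pos_of_ne_zero hm) h
    have key : ∀ a, ((A.image (fun s => m * s)).filter (fun b => b ≠ m * a ∧ b ∣ m * a)).card =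
        (A.filter (fun b => b ≠ a ∧ b ∣ a)).card := by
      intro a
      rw [← Finset.card_image_of_injective (A.filter (fun b => b ≠ a ∧ b ∣ a)) hinj]
      congr 1
      ext x
      simp only [mem_filter, mem_image]
      constructor
      · rintro ⟨⟨b, hb, rfl⟩, h1, h2⟩
        refine ⟨b, ⟨hb, fun h => h1 (by rw [h]), ?_⟩, rfl⟩
        exact Nat.dvd_of_mul_dvd_mul_left (Nat.pos_of_ne_zero hm) h2
      · rintro ⟨b, ⟨hb, h1, h2⟩, rfl⟩
        exact ⟨⟨b, hb, rfl⟩, fun h => h1 (hinj h), Nat.mul_dvd_mul_left m h2⟩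
    constructor
    · intro h a ha
      rw [← key]
      exact h _ (mem_image_of_mem _ ha)
    · intro h x hx
      obtain ⟨a, ha, rfl⟩ := mem_image.1 hx
      rw [key]
      exact h a ha
  loc := by
    intro K A h0 hK hc a ha
    have h1 := hc (rp K a) a (mem_filter.2 ⟨ha, rfl⟩)
    refine lt_of_le_of_lt (Finset.card_le_card ?_) h1
    intro b hb
    obtain ⟨hb1, hb2, hb3⟩ := mem_filter.1 hb
    rw [mem_filter, mem_filter]
    exact ⟨⟨hb1, rp_eq_of_dvd (h0 b hb1) (h0 a ha) hb3 (hK b hb1 a ha)⟩, hb2, hb3⟩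

theorem divK_two (A : Finset ℕ) : DivK 2 A ↔
    ¬ ∃ a ∈ A, ∃ b ∈ A, ∃ c ∈ A, a ≠ b ∧ a ≠ c ∧ b ≠ c ∧ a ∣ b ∧ a ∣ c := by
  constructor
  · rintro h ⟨a, ha, b, hb, c, hc, hab, hac, hbc, h1, h2⟩
    have h3 := h a ha
    have h4 : 1 < (A.filter (fun b => b ≠ a ∧ a ∣ b)).card :=
      Finset.one_lt_card.2 ⟨b, mem_filter.2 ⟨hb, hab.symm, h1⟩, c,
        mem_filter.2 ⟨hc, hac.symm, h2⟩, hbc⟩
    omega
  · intro h a ha
    by_contra hcon
    obtain ⟨b, hb, c, hc, hbc⟩ := Finset.one_lt_card.1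
      (by omega : 1 < (A.filter (fun b => b ≠ a ∧ a ∣ b)).card)
    obtain ⟨hb1, hb2, hb3⟩ := mem_filter.1 hb
    obtain ⟨hc1, hc2, hc3⟩ := mem_filter.1 hc
    exact h ⟨a, ha, b, hb1, c, hc1, hb2.symm, hc2.symm, hbc, hb3, hc3⟩

theorem mulK_two (A : Finset ℕ) : MulK 2 A ↔
    ¬ ∃ a ∈ A, ∃ b ∈ A, ∃ c ∈ A, a ≠ b ∧ a ≠ c ∧ b ≠ c ∧ b ∣ a ∧ c ∣ a := by
  constructor
  · rintro h ⟨a, ha, b, hb, c, hc, hab, hac, hbc, h1, h2⟩
    have h3 := h a ha
    have h4 : 1 < (A.filter (fun b => b ≠ a ∧ b ∣ a)).card :=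
      Finset.one_lt_card.2 ⟨b, mem_filter.2 ⟨hb, hab.symm, h1⟩, c,
        mem_filter.2 ⟨hc, hac.symm, h2⟩, hbc⟩
    omega
  · intro h a ha
    by_contra hcon
    obtain ⟨b, hb, c, hc, hbc⟩ := Finset.one_lt_card.1
      (by omega : 1 < (A.filter (fun b => b ≠ a ∧ b ∣ a)).card)
    obtain ⟨hb1, hb2, hb3⟩ := mem_filter.1 hb
    obtain ⟨hc1, hc2, hc3⟩ := mem_filter.1 hc
    exact h ⟨a, ha, b, hb1, c, hc1, hb2.symm, hc2.symm, hbc, hb3, hc3⟩

theorem good_div : Good (fun A : Finset ℕ =>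
    ¬ ∃ a ∈ A, ∃ b ∈ A, ∃ c ∈ A, a ≠ b ∧ a ≠ c ∧ b ≠ c ∧ a ∣ b ∧ a ∣ c) := by
  have : (fun A : Finset ℕ =>
    ¬ ∃ a ∈ A, ∃ b ∈ A, ∃ c ∈ A, a ≠ b ∧ a ≠ c ∧ b ≠ c ∧ a ∣ b ∧ a ∣ c) = DivK 2 :=
    funext (fun A => propext (divK_two A).symm)
  rw [this]; exact good_divK 2

theorem good_mul : Good (fun A : Finset ℕ =>
    ¬ ∃ a ∈ A, ∃ b ∈ A, ∃ c ∈ A, a ≠ b ∧ a ≠ c ∧ b ≠ c ∧ b ∣ a ∧ c ∣ a) := by
  have : (fun A : Finset ℕ =>
    ¬ ∃ a ∈ A, ∃ b ∈ A, ∃ c ∈ A, a ≠ b ∧ a ≠ c ∧ b ≠ c ∧ b ∣ a ∧ c ∣ a) = MulK 2 :=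
    funext (fun A => propext (mulK_two A).symm)
  rw [this]; exact good_mulK 2

end Pool.Agent.Helper377.DivLimit
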