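import Mathlib

namespace Pool.Agent.Helper377.Pade

open Finset

/-- An alternating binomial sum, the coefficient of `x^m` in `(1-x)^j (1-x)^(-r-1)`. -/
def G (r j m : ℕ) : ℤ :=
  ∑ i ∈ range (m + 1), (-1 : ℤ) ^ i * (j.choose i) * ((m - i + r).choose r)

theorem G_zero_left (r m : ℕ) : G r 0 m = ((m + r).choose r : ℤ) := by
  unfold G
  rw [Finset.sum_range_succ']
  simp

theorem G_zero_right (r j : ℕ) : G r j 0 = 1 := by
  simp [G]

theorem G_succ (r j m : ℕ) : G r (j + 1) (m + 1) = G r j (m + 1) - G r j m := by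
  unfold G
  rw [Finset.sum_range_succ' _ (m + 1), Finset.sum_range_succ' _ (m + 1)]
  simp only [Nat.choose_succ_succ, Nat.cast_add, Nat.choose_zero_right, Nat.cast_one, mul_one,
    pow_zero, one_mul, Nat.sub_zero]
  have : ∀ i ∈ range (m + 1), (-1 : ℤ) ^ (i + 1) * ((j.choose i : ℤ) + (j.choose (i + 1) : ℤ)) *
      (((m + 1 - (i + 1) + r).choose r : ℕ) : ℤ) =
      (-1 : ℤ) ^ (i + 1) * (j.choose (i + 1) : ℤ) * (((m + 1 - (i + 1) + r).choose r : ℕ) : ℤ) -
      (-1 : ℤ) ^ i * (j.choose i : ℤ) * (((m - i + r).choose r : ℕ) : ℤ) := by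
    intro i hi
    rw [Nat.add_sub_add_right]
    ring
  rw [Finset.sum_congr rfl this, Finset.sum_sub_distrib]
  ring

theorem G_low (r : ℕ) : ∀ j m : ℕ, j ≤ r → G r j m = ((m + (r - j)).choose m : ℤ) := by
  intro j
  induction j with
  | zero =>
    intro m _
    rw [G_zero_left]
    congr 1
    rw [Nat.sub_zero, ← Nat.choose_symm_add]
  | succ j ih =>
    intro m hj
    cases m with
    | zero => rw [G_zero_right]; simp
    | succ m =>
      rw [G_succ, ih _ (by omega), ih _ (by omega)]
      obtain ⟨s, hs⟩ : ∃ s, r - j = s + 1 := ⟨r - j - 1, by omega⟩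
      have hs' : r - (j + 1) = s := by omega
      rw [hs, hs']
      have h1 : m + 1 + (s + 1) = (m + (s + 1)) + 1 := by ring
      have h2 : m + 1 + s = m + (s + 1) := by ring
      rw [h1, h2, Nat.choose_succ_succ]
      push_cast
      ring

theorem G_high (r : ℕ) : ∀ d m : ℕ, G r (r + 1 + d) m = (-1 : ℤ) ^ m * (d.choose m : ℤ) := by
  intro d
  induction d with
  | zero =>
    intro m
    cases m with
    | zero => rw [G_zero_right]; simp
    | succ m =>
      rw [Nat.add_zero, G_succ, G_low r r _ le_rfl, G_low r r _ le_rfl]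
      simp
  | succ d ih =>
    intro m
    cases m with
    | zero => rw [G_zero_right]; simp
    | succ m =>
      have : r + 1 + (d + 1) = (r + 1 + d) + 1 := by ring
      rw [this, G_succ, ih, ih, Nat.choose_succ_succ]
      push_cast
      ring

theorem hasse (N i : ℕ) (hi : i ≤ N) (c t : ℤ) :
    (N.choose i : ℤ) * t ^ i * (c + t) ^ (N - i) =
      ∑ j ∈ range (N + 1), (N.choose j : ℤ) * (j.choose i : ℤ) * t ^ j * c ^ (N - j) := by
  obtain ⟨d, rfl⟩ := Nat.exists_eq_add_of_le hi
  rw [show i + d + 1 = i + (d + 1) by ring, Finset.sum_range_add]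
  have h0 : ∑ x ∈ range i, ((i + d).choose x : ℤ) * (x.choose i : ℤ) * t ^ x * c ^ (i + d - x) = 0 := by
    apply Finset.sum_eq_zero
    intro x hx
    rw [Finset.mem_range] at hx
    rw [Nat.choose_eq_zero_of_lt hx]
    simp
  rw [h0, zero_add, show i + d - i = d by omega, add_comm c t, add_pow, Finset.mul_sum]
  apply Finset.sum_congr rfl
  intro m hm
  rw [Finset.mem_range] at hm
  have hmul : (i + d).choose (i + m) * (i + m).choose i = (i + d).choose i * d.choose m := by
    have := Nat.choose_mul (n := i + d) (k := i + m) (s := i) (by omega)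
    rw [this]
    congr 2 <;> omega
  have hmul' : ((i + d).choose (i + m) : ℤ) * ((i + m).choose i : ℤ) =
      ((i + d).choose i : ℤ) * (d.choose m : ℤ) := by exact_mod_cast hmul
  rw [hmul', show i + d - (i + m) = d - m by omega, pow_add]
  ring

/-- First approximant. -/
def A (r N : ℕ) (t x : ℤ) : ℤ :=
  ∑ i ∈ range (r + 1), (-1 : ℤ) ^ i * (N.choose i) * ((2 * r - i).choose r) * t ^ i * x ^ (r - i)

/-- Second approximant. -/
def B (r N : ℕ) (t c : ℤ) : ℤ :=
  ∑ j ∈ range (r + 1), (N.choose j : ℤ) * ((2 * r - j).choose r) * t ^ j * c ^ (r - j)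

/-- Remainder. -/
def R (r N : ℕ) (t c : ℤ) : ℤ :=
  ∑ j ∈ Ico (2 * r + 1) (N + 1), (N.choose j : ℤ) * ((j - r - 1).choose r) * t ^ j * c ^ (N - j)

theorem pade (r α : ℕ) (hα : r + 1 ≤ α) (c t : ℤ) :
    (c + t) ^ α * A r (α + r) t (c + t) =
      c ^ α * B r (α + r) t c + (-1) ^ r * R r (α + r) t c := by
  -- expand the left side
  have h1 : (c + t) ^ α * A r (α + r) t (c + t) =
      ∑ j ∈ range (α + r + 1), ((α + r).choose j : ℤ) * t ^ j * c ^ (α + r - j) * G r j r := by
    unfold A G
    rw [Finset.mul_sum]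
    have h2 : ∀ i ∈ range (r + 1), (c + t) ^ α * ((-1 : ℤ) ^ i * ((α + r).choose i) *
        ((2 * r - i).choose r) * t ^ i * (c + t) ^ (r - i)) =
        ∑ j ∈ range (α + r + 1), (-1 : ℤ) ^ i * ((2 * r - i).choose r) *
          (((α + r).choose j : ℤ) * (j.choose i : ℤ) * t ^ j * c ^ (α + r - j)) := by
      intro i hi
      rw [Finset.mem_range] at hi
      rw [← Finset.mul_sum, ← hasse (α + r) i (by omega) c t,
        show α + r - i = α + (r - i) by omega, pow_add]
      ring
    rw [Finset.sum_congr rfl h2, Finset.sum_comm]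
    apply Finset.sum_congr rfl
    intro j _
    rw [Finset.mul_sum]
    apply Finset.sum_congr rfl
    intro i hi
    rw [Finset.mem_range] at hi
    rw [show 2 * r - i = r - i + r by omega]
    ring
  rw [h1, show α + r + 1 = (2 * r + 1) + (α - r) by omega, Finset.sum_range_add,
    show 2 * r + 1 = (r + 1) + r by ring, Finset.sum_range_add]
  have hB : ∑ j ∈ range (r + 1), ((α + r).choose j : ℤ) * t ^ j * c ^ (α + r - j) * G r j r =
      c ^ α * B r (α + r) t c := by
    unfold B
    rw [Finset.mul_sum]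
    apply Finset.sum_congr rfl
    intro j hj
    rw [Finset.mem_range] at hj
    rw [G_low r j r (by omega), show r + (r - j) = 2 * r - j by omega,
      show α + r - j = α + (r - j) by omega, pow_add]
    ring
  have hZ : ∑ x ∈ range r, ((α + r).choose (r + 1 + x) : ℤ) * t ^ (r + 1 + x) *
      c ^ (α + r - (r + 1 + x)) * G r (r + 1 + x) r = 0 := by
    apply Finset.sum_eq_zero
    intro x hx
    rw [Finset.mem_range] at hx
    rw [G_high, Nat.choose_eq_zero_of_lt hx]
    simp
  have hR : ∑ x ∈ range (α - r), ((α + r).choose (r + 1 + r + x) : ℤ) * t ^ (r + 1 + r + x) *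
      c ^ (α + r - (r + 1 + r + x)) * G r (r + 1 + r + x) r = (-1) ^ r * R r (α + r) t c := by
    unfold R
    rw [Finset.sum_Ico_eq_sum_range, Finset.mul_sum,
      show α + r + 1 - (2 * r + 1) = α - r by omega]
    apply Finset.sum_congr rfl
    intro x hx
    rw [show r + 1 + r + x = r + 1 + (r + x) by ring, G_high,
      show 2 * r + 1 + x = r + 1 + (r + x) by ring,
      show r + 1 + (r + x) - r - 1 = r + x by omega]
    ring
  rw [hB, hZ, hR]
  ring

end Pool.Agent.Helper377.Pade
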