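import Mathlib
import Pool.Agent.Helper377.Pade

namespace Pool.Agent.Helper377.Engine

open Finset Pool.Agent.Helper377.Pade

theorem term_bound (r N i X : ℕ) (hi : i ≤ r) (hN : 1 ≤ N) (t x : ℤ) (ht0 : 0 ≤ t) (htX : t ≤ X)
    (hx0 : 0 ≤ x) (hxX : x ≤ X) :
    (N.choose i : ℤ) * ((2 * r - i).choose r) * t ^ i * x ^ (r - i) ≤
      (N : ℤ) ^ r * 4 ^ r * X ^ r := by
  have h1 : (N.choose i : ℤ) ≤ (N : ℤ) ^ r := by
    have : N.choose i ≤ N ^ i := Nat.choose_le_pow N i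
    have h2 : N ^ i ≤ N ^ r := Nat.pow_le_pow_right hN hi
    exact_mod_cast this.trans h2
  have h2 : (((2 * r - i).choose r : ℕ) : ℤ) ≤ 4 ^ r := by
    have h3 : (2 * r - i).choose r ≤ 2 ^ (2 * r - i) := Nat.choose_le_two_pow _ _
    have h4 : 2 ^ (2 * r - i) ≤ 2 ^ (2 * r) := Nat.pow_le_pow_right (by norm_num) (by omega)
    have h5 : (2 : ℕ) ^ (2 * r) = 4 ^ r := by rw [pow_mul]; norm_num
    exact_mod_cast h3.trans (h4.trans h5.le)
  have h3 : t ^ i * x ^ (r - i) ≤ (X : ℤ) ^ r := by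
    calc t ^ i * x ^ (r - i) ≤ (X : ℤ) ^ i * (X : ℤ) ^ (r - i) := by gcongr
      _ = (X : ℤ) ^ r := by rw [← pow_add]; congr 1; omega
  calc (N.choose i : ℤ) * ((2 * r - i).choose r) * t ^ i * x ^ (r - i)
      = ((N.choose i : ℤ) * ((2 * r - i).choose r)) * (t ^ i * x ^ (r - i)) := by ring
    _ ≤ ((N : ℤ) ^ r * 4 ^ r) * X ^ r := by gcongr

theorem B_bound (r N X : ℕ) (hN : 1 ≤ N) (t c : ℤ) (ht0 : 0 ≤ t) (htX : t ≤ X)
    (hc0 : 0 ≤ c) (hcX : c ≤ X) : B r N t c ≤ (r + 1) * ((N : ℤ) ^ r * 4 ^ r * X ^ r) := by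
  unfold B
  calc _ ≤ ∑ j ∈ range (r + 1), ((N : ℤ) ^ r * 4 ^ r * X ^ r) := by
        apply Finset.sum_le_sum
        intro i hi
        rw [Finset.mem_range] at hi
        exact term_bound r N i X (by omega) hN t c ht0 htX hc0 hcX
    _ = _ := by rw [Finset.sum_const, Finset.card_range, nsmul_eq_mul]; push_cast; ring

theorem B_nonneg (r N : ℕ) (t c : ℤ) (ht0 : 0 ≤ t) (hc0 : 0 ≤ c) : 0 ≤ B r N t c := by
  unfold B
  apply Finset.sum_nonneg
  intro i _
  positivity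

theorem A_bound (r N X : ℕ) (hN : 1 ≤ N) (t x : ℤ) (ht0 : 0 ≤ t) (htX : t ≤ X)
    (hx0 : 0 ≤ x) (hxX : x ≤ X) : |A r N t x| ≤ (r + 1) * ((N : ℤ) ^ r * 4 ^ r * X ^ r) := by
  unfold A
  calc _ ≤ ∑ i ∈ range (r + 1), |(-1 : ℤ) ^ i * (N.choose i) * ((2 * r - i).choose r) * t ^ i *
            x ^ (r - i)| := Finset.abs_sum_le_sum_abs _ _
    _ ≤ ∑ j ∈ range (r + 1), ((N : ℤ) ^ r * 4 ^ r * X ^ r) := by
        apply Finset.sum_le_sum
        intro i hi
        rw [Finset.mem_range] at hi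
        refine le_trans (le_of_eq ?_)
          (term_bound r N i X (by omega) hN t x ht0 htX hx0 hxX)
        rw [abs_mul, abs_mul, abs_mul, abs_mul, abs_pow, abs_neg, abs_one, one_pow, one_mul,
          Nat.abs_cast, Nat.abs_cast, abs_of_nonneg (pow_nonneg ht0 _),
          abs_of_nonneg (pow_nonneg hx0 _)]
    _ = _ := by rw [Finset.sum_const, Finset.card_range, nsmul_eq_mul]; push_cast; ring

theorem geom (y c : ℤ) (hy : 0 ≤ y) (hc : 2 * y ≤ c) : ∀ m : ℕ,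
    ∑ i ∈ range (m + 1), y ^ i * c ^ (m - i) ≤ 2 * c ^ m := by
  intro m
  have hc0 : 0 ≤ c := by linarith
  induction m with
  | zero => simp
  | succ m ih =>
    rw [Finset.sum_range_succ']
    have : ∑ k ∈ range (m + 1), y ^ (k + 1) * c ^ (m + 1 - (k + 1)) =
        y * ∑ i ∈ range (m + 1), y ^ i * c ^ (m - i) := by
      rw [Finset.mul_sum]
      apply Finset.sum_congr rfl
      intro i _
      rw [Nat.add_sub_add_right]
      ring
    rw [this]
    have h2 : y * ∑ i ∈ range (m + 1), y ^ i * c ^ (m - i) ≤ y * (2 * c ^ m) := by gcongr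
    have h3 : (2 * y) * c ^ m ≤ c * c ^ m := by gcongr
    have h4 : c ^ (m + 1) = c * c ^ m := by ring
    simp only [pow_zero, Nat.sub_zero, one_mul]
    rw [h4]
    nlinarith

theorem R_upper (r N : ℕ) (hN : 2 * r + 1 ≤ N) (t c : ℤ) (ht : 0 ≤ t)
    (hc : 2 * (2 * N * t) ≤ c) :
    R r N t c ≤ 2 * ((2 * N * t) ^ (2 * r + 1) * c ^ (N - (2 * r + 1))) := by
  have hy : 0 ≤ 2 * (N : ℤ) * t := by positivity
  have hc0 : 0 ≤ c := by linarith
  unfold R
  rw [Finset.sum_Ico_eq_sum_range, show N + 1 - (2 * r + 1) = (N - (2 * r + 1)) + 1 by omega]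
  have h1 : ∀ i ∈ range (N - (2 * r + 1) + 1),
      (N.choose (2 * r + 1 + i) : ℤ) * ((2 * r + 1 + i - r - 1).choose r) * t ^ (2 * r + 1 + i) *
        c ^ (N - (2 * r + 1 + i)) ≤
      (2 * N * t) ^ (2 * r + 1) * ((2 * N * t) ^ i * c ^ (N - (2 * r + 1) - i)) := by
    intro i hi
    rw [Finset.mem_range] at hi
    have h2 : (N.choose (2 * r + 1 + i) : ℤ) ≤ (N : ℤ) ^ (2 * r + 1 + i) := by
      exact_mod_cast Nat.choose_le_pow N (2 * r + 1 + i)
    have h3 : (((2 * r + 1 + i - r - 1).choose r : ℕ) : ℤ) ≤ 2 ^ (2 * r + 1 + i) := by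
      have h4 := Nat.choose_le_two_pow (2 * r + 1 + i - r - 1) r
      have h5 : 2 ^ (2 * r + 1 + i - r - 1) ≤ 2 ^ (2 * r + 1 + i) :=
        Nat.pow_le_pow_right (by norm_num) (by omega)
      exact_mod_cast h4.trans h5
    calc _ ≤ (N : ℤ) ^ (2 * r + 1 + i) * 2 ^ (2 * r + 1 + i) * t ^ (2 * r + 1 + i) *
          c ^ (N - (2 * r + 1 + i)) := by gcongr
      _ = (2 * N * t) ^ (2 * r + 1 + i) * c ^ (N - (2 * r + 1 + i)) := by
          rw [mul_pow, mul_pow]; ring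
      _ = _ := by
          rw [pow_add, show N - (2 * r + 1 + i) = N - (2 * r + 1) - i by omega]
          ring
  calc _ ≤ ∑ i ∈ range (N - (2 * r + 1) + 1),
        (2 * N * t) ^ (2 * r + 1) * ((2 * N * t) ^ i * c ^ (N - (2 * r + 1) - i)) :=
          Finset.sum_le_sum h1
    _ = (2 * N * t) ^ (2 * r + 1) * ∑ i ∈ range (N - (2 * r + 1) + 1),
          ((2 * N * t) ^ i * c ^ (N - (2 * r + 1) - i)) := by rw [Finset.mul_sum]
    _ ≤ (2 * N * t) ^ (2 * r + 1) * (2 * c ^ (N - (2 * r + 1))) := by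
          gcongr
          exact geom _ _ hy hc _
    _ = _ := by ring

theorem R_lower (r N : ℕ) (hN : 2 * r + 1 ≤ N) (t c : ℤ) (ht : 1 ≤ t) (hc : 0 ≤ c) :
    c ^ (N - (2 * r + 1)) ≤ R r N t c := by
  unfold R
  have hmem : 2 * r + 1 ∈ Ico (2 * r + 1) (N + 1) := by
    rw [Finset.mem_Ico]; omega
  refine le_trans ?_ (Finset.single_le_sum (f := fun j => (N.choose j : ℤ) *
    ((j - r - 1).choose r) * t ^ j * c ^ (N - j)) ?_ hmem)
  · have h1 : (1 : ℤ) ≤ (N.choose (2 * r + 1) : ℤ) := by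
      exact_mod_cast Nat.choose_pos hN
    have h2 : (1 : ℤ) ≤ t ^ (2 * r + 1) := one_le_pow₀ ht
    have h3 : ((2 * r + 1 - r - 1).choose r : ℕ) = 1 := by
      rw [show 2 * r + 1 - r - 1 = r by omega, Nat.choose_self]
    simp only [h3, Nat.cast_one, mul_one]
    calc c ^ (N - (2 * r + 1)) = 1 * 1 * c ^ (N - (2 * r + 1)) := by ring
      _ ≤ (N.choose (2 * r + 1) : ℤ) * t ^ (2 * r + 1) * c ^ (N - (2 * r + 1)) := by gcongr
  · intro j _
    have : 0 ≤ t := by linarith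
    positivity

/-- Two numbers close to `n` cannot be divisible by the same high power of two close integers. -/
theorem engine (r α n c t e1 e2 s1 s2 X M : ℕ) (hα : r + 1 ≤ α)
    (h1 : n + e1 = c ^ α * s1) (h2 : n + e2 = (c + t) ^ α * s2)
    (ht : 1 ≤ t) (hc : 1 ≤ c) (hcX : c + t ≤ X) (he1 : e1 ≤ X) (he2 : e2 ≤ X)
    (hs1 : s1 ≤ M) (hs2 : s2 ≤ M) (hs1' : 1 ≤ s1) (hs2' : 1 ≤ s2)
    (hy : 4 * (α + r) * t ≤ c)
    (hup : 8 * M * (2 * (α + r) * t) ^ (2 * r + 1) < c ^ (r + 1))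
    (hlow : 4 * X * M * ((r + 1) * ((α + r) ^ r * 4 ^ r * X ^ r)) * X ^ (r + 1) < n) : False := by
  set N := α + r with hN
  have hcX' : c ≤ X := by omega
  have htX' : t ≤ X := by omega
  have hX1 : 1 ≤ X := by omega
  have hN1 : 1 ≤ N := by omega
  have hn0 : 0 < n := by omega
  -- integer versions
  set a : ℤ := A r N t (c + t) with ha
  set b : ℤ := B r N t c with hb
  set ρ : ℤ := R r N t c with hρ
  set Z : ℤ := (r + 1) * ((N : ℤ) ^ r * 4 ^ r * X ^ r) with hZ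
  have hid : ((c : ℤ) + t) ^ α * a = (c : ℤ) ^ α * b + (-1) ^ r * ρ := pade r α hα c t
  have haZ : |a| ≤ Z := A_bound r N X hN1 t (c + t) (by positivity) (by exact_mod_cast htX')
    (by positivity) (by exact_mod_cast hcX)
  have hbZ : b ≤ Z := B_bound r N X hN1 t c (by positivity) (by exact_mod_cast htX')
    (by positivity) (by exact_mod_cast hcX')
  have hb0 : 0 ≤ b := B_nonneg r N t c (by positivity) (by positivity)
  have hZ0 : 0 ≤ Z := hb0.trans hbZ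
  have hρl : (c : ℤ) ^ (N - (2 * r + 1)) ≤ ρ :=
    R_lower r N (by omega) t c (by exact_mod_cast ht) (by positivity)
  have hρu : ρ ≤ 2 * ((2 * N * t) ^ (2 * r + 1) * (c : ℤ) ^ (N - (2 * r + 1))) :=
    R_upper r N (by omega) t c (by positivity) (by
      have : (4 * N * t : ℤ) ≤ c := by exact_mod_cast hy
      linarith)
  have hρ0 : 0 ≤ ρ := le_trans (by positivity) hρl
  have hexp : (c : ℤ) ^ (N - (2 * r + 1)) * (c : ℤ) ^ (r + 1) = (c : ℤ) ^ α := by
    rw [← pow_add]; congr 1; omega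
  have h1z : (n : ℤ) + e1 = (c : ℤ) ^ α * s1 := by exact_mod_cast h1
  have h2z : (n : ℤ) + e2 = ((c : ℤ) + t) ^ α * s2 := by exact_mod_cast h2
  -- the key relation
  have hkey : (n : ℤ) * (a * s1 - b * s2) =
      (-1) ^ r * ρ * s1 * s2 - e2 * a * s1 + e1 * b * s2 := by
    have e : (n : ℤ) * (a * s1 - b * s2) = (((c : ℤ) + t) ^ α * s2 - e2) * (a * s1) -
        ((c : ℤ) ^ α * s1 - e1) * (b * s2) := by
      rw [← h2z, ← h1z]; ring
    rw [e]
    have : ((c : ℤ) + t) ^ α * s2 * (a * s1) = (((c : ℤ) + t) ^ α * a) * s1 * s2 := by ring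
    have h3 : (((c : ℤ) + t) ^ α * s2 - e2) * (a * s1) =
      (((c : ℤ) + t) ^ α * a) * s1 * s2 - e2 * a * s1 := by ring
    rw [h3, hid]
    ring
  have hs1z : (1 : ℤ) ≤ s1 := by exact_mod_cast hs1'
  have hs2z : (1 : ℤ) ≤ s2 := by exact_mod_cast hs2'
  have hs1M : (s1 : ℤ) ≤ M := by exact_mod_cast hs1
  have hs2M : (s2 : ℤ) ≤ M := by exact_mod_cast hs2
  have he1z : (e1 : ℤ) ≤ X := by exact_mod_cast he1
  have he2z : (e2 : ℤ) ≤ X := by exact_mod_cast he2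
  have hX1z : (1 : ℤ) ≤ X := by exact_mod_cast hX1
  have hcz : (1 : ℤ) ≤ c := by exact_mod_cast hc
  have hnz : (0 : ℤ) < n := by exact_mod_cast hn0
  have hM1 : (1 : ℤ) ≤ M := hs1z.trans hs1M
  have hlowz : 4 * X * M * Z * (X : ℤ) ^ (r + 1) < n := by
    rw [hZ]; exact_mod_cast hlow
  have hupz : 8 * (M : ℤ) * (2 * N * t) ^ (2 * r + 1) < (c : ℤ) ^ (r + 1) := by
    exact_mod_cast hup
  have hXr1 : (1 : ℤ) ≤ (X : ℤ) ^ (r + 1) := one_le_pow₀ hX1z
  -- size of the perturbation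
  have hpert : |e1 * b * s2 - e2 * a * s1| ≤ 2 * (X * Z * M) := by
    have h3 : |(e1 : ℤ) * b * s2| ≤ X * Z * M := by
      rw [abs_of_nonneg (by positivity)]
      gcongr
    have h4 : |(e2 : ℤ) * a * s1| ≤ X * Z * M := by
      rw [abs_mul, abs_mul, Nat.abs_cast, Nat.abs_cast]
      gcongr
    calc _ ≤ |(e1 : ℤ) * b * s2| + |(e2 : ℤ) * a * s1| := abs_sub _ _
      _ ≤ _ := by linarith
  have hXZM : 0 ≤ (X : ℤ) * Z * M := by positivity
  have hXZM2 : 4 * (X * Z * M) < (n : ℤ) := by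
    calc 4 * ((X : ℤ) * Z * M) = 4 * (X * Z * M) * 1 := by ring
      _ ≤ 4 * (X * Z * M) * (X : ℤ) ^ (r + 1) := by gcongr
      _ = 4 * X * M * Z * (X : ℤ) ^ (r + 1) := by ring
      _ < n := hlowz
  -- upper bound for the main term
  have hmain_up : 2 * (ρ * s1 * s2) < n := by
    have hpos : (0 : ℤ) < (c : ℤ) ^ (r + 1) := by positivity
    have h5 : ρ * s1 * s2 * (c : ℤ) ^ (r + 1) ≤ 4 * M * (2 * N * t) ^ (2 * r + 1) * n := by
      calc ρ * s1 * s2 * (c : ℤ) ^ (r + 1)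
          ≤ 2 * ((2 * N * t) ^ (2 * r + 1) * (c : ℤ) ^ (N - (2 * r + 1))) * s1 * s2 *
            (c : ℤ) ^ (r + 1) := by gcongr
        _ = 2 * (2 * N * t) ^ (2 * r + 1) * (((c : ℤ) ^ (N - (2 * r + 1)) * (c : ℤ) ^ (r + 1)) *
              s1) * s2 := by ring
        _ = 2 * (2 * N * t) ^ (2 * r + 1) * ((n : ℤ) + e1) * s2 := by rw [hexp, h1z]
        _ ≤ 2 * (2 * N * t) ^ (2 * r + 1) * ((n : ℤ) + n) * M := by
            have : (e1 : ℤ) ≤ n := by
              have h6 : (X : ℤ) ≤ 4 * X * M * Z * (X : ℤ) ^ (r + 1) := by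
                have hZ1 : (1 : ℤ) ≤ Z := by
                  have hN0 : (0 : ℤ) < N := by exact_mod_cast hN1
                  have hX0 : (0 : ℤ) < X := lt_of_lt_of_le one_pos hX1z
                  have : (0 : ℤ) < Z := by rw [hZ]; positivity
                  exact Int.add_one_le_iff.mpr this
                calc (X : ℤ) = 1 * X * 1 * 1 * 1 := by ring
                  _ ≤ 4 * X * M * Z * (X : ℤ) ^ (r + 1) := by gcongr; norm_num
              linarith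
            gcongr
        _ = 4 * M * (2 * N * t) ^ (2 * r + 1) * n := by ring
    have h6 : 2 * (ρ * s1 * s2) * (c : ℤ) ^ (r + 1) < n * (c : ℤ) ^ (r + 1) := by
      calc 2 * (ρ * s1 * s2) * (c : ℤ) ^ (r + 1)
          = 2 * (ρ * s1 * s2 * (c : ℤ) ^ (r + 1)) := by ring
        _ ≤ 2 * (4 * M * (2 * N * t) ^ (2 * r + 1) * n) := by gcongr
        _ = (8 * M * (2 * N * t) ^ (2 * r + 1)) * n := by ring
        _ < (c : ℤ) ^ (r + 1) * n := by gcongr
        _ = n * (c : ℤ) ^ (r + 1) := by ring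
    exact lt_of_mul_lt_mul_right h6 hpos.le
  -- lower bound for the main term
  have hmain_low : 2 * (X * Z * M) < ρ * s1 * s2 := by
    have hpos : (0 : ℤ) < (X : ℤ) ^ (r + 1) := by positivity
    have h5 : (n : ℤ) ≤ ρ * s1 * s2 * (X : ℤ) ^ (r + 1) := by
      calc (n : ℤ) ≤ (n : ℤ) + e1 := by linarith [Int.natCast_nonneg e1]
        _ = ((c : ℤ) ^ (N - (2 * r + 1)) * (c : ℤ) ^ (r + 1)) * s1 := by rw [hexp, h1z]
        _ = (c : ℤ) ^ (N - (2 * r + 1)) * s1 * 1 * (c : ℤ) ^ (r + 1) := by ring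
        _ ≤ ρ * s1 * s2 * (X : ℤ) ^ (r + 1) := by
            have : (c : ℤ) ≤ X := by exact_mod_cast hcX'
            gcongr
    have h6 : 2 * (X * Z * M) * (X : ℤ) ^ (r + 1) < ρ * s1 * s2 * (X : ℤ) ^ (r + 1) := by
      calc 2 * (X * Z * M) * (X : ℤ) ^ (r + 1) ≤ 4 * X * M * Z * (X : ℤ) ^ (r + 1) := by
            have e0 : 0 ≤ (X : ℤ) * Z * M * (X : ℤ) ^ (r + 1) := by positivity
            have e1 : 4 * (X : ℤ) * M * Z * (X : ℤ) ^ (r + 1) =
              2 * (X * Z * M) * (X : ℤ) ^ (r + 1) + 2 * (X * Z * M * (X : ℤ) ^ (r + 1)) := by ring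
            rw [e1]
            linarith
        _ < n := hlowz
        _ ≤ _ := h5
    exact lt_of_mul_lt_mul_right h6 hpos.le
  have habs : |(-1 : ℤ) ^ r * ρ * s1 * s2| = ρ * s1 * s2 := by
    rw [abs_mul, abs_mul, abs_mul, abs_pow, abs_neg, abs_one, one_pow, one_mul,
      abs_of_nonneg hρ0, Nat.abs_cast, Nat.abs_cast]
  -- the integer vanishes
  have hzero : a * s1 - b * s2 = 0 := by
    by_contra hne
    have h7 : (1 : ℤ) ≤ |a * s1 - b * s2| := Int.one_le_abs hne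
    have h8 : (n : ℤ) ≤ |(n : ℤ) * (a * s1 - b * s2)| := by
      rw [abs_mul, Nat.abs_cast]
      exact le_mul_of_one_le_right hnz.le h7
    rw [hkey] at h8
    have h9 : |(-1) ^ r * ρ * s1 * s2 - e2 * a * s1 + e1 * b * s2| ≤
        ρ * s1 * s2 + 2 * (X * Z * M) := by
      calc _ = |(-1) ^ r * ρ * s1 * s2 + (e1 * b * s2 - e2 * a * s1)| := by ring_nf
        _ ≤ |(-1) ^ r * ρ * s1 * s2| + |e1 * b * s2 - e2 * a * s1| := abs_add_le _ _
        _ ≤ _ := by rw [habs]; linarith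
    linarith
  rw [hzero, mul_zero] at hkey
  have h10 : (-1) ^ r * ρ * s1 * s2 = -(e1 * b * s2 - e2 * a * s1) := by linarith
  have h11 : ρ * s1 * s2 ≤ 2 * (X * Z * M) := by
    rw [← habs, h10, abs_neg]
    exact hpert
  linarith

end Pool.Agent.Helper377.Engine
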