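import Mathlib
import Pool.Agent.Helper377.Count
import Pool.Agent.Helper377.Engine

namespace Pool.Agent.Helper377.Final

open Finset Nat Pool.Agent.Helper377.Mass Pool.Agent.Helper377.Count Pool.Agent.Helper377.Engine

theorem pow_big (w : ℕ) (hw : 64 ≤ w) : 8000 * w ^ 2 ≤ 2 ^ (w - 1) := by
  induction w, hw using Nat.le_induction with
  | base => norm_num
  | succ w hw ih =>
    have h1 : 2 ^ (w + 1 - 1) = 2 * 2 ^ (w - 1) := by
      rw [show w + 1 - 1 = (w - 1) + 1 by omega]; ring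
    rw [h1]
    nlinarith

theorem pow_big' (w : ℕ) (hw : 64 ≤ w) : 512 * w < 2 ^ w := by
  have := pow_big w hw
  have h2 : 2 ^ w = 2 * 2 ^ (w - 1) := by
    conv_lhs => rw [show w = (w - 1) + 1 by omega]
    ring
  nlinarith

/-- The numerical part: many good primes give two close ones with the same exponent. -/
theorem finish (n L w X : ℕ) (hw : 64 ≤ w) (hL1 : 2 ^ (w - 1) ≤ L) (hL2 : L < 2 ^ w)
    (hn1 : 2 ^ L ≤ n) (hn2 : n < 2 ^ (L + 1)) (hX : X = 2 ^ (16 * w))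
    (G : Finset ℕ) (hGX : ∀ p ∈ G, p ≤ X) (hG1 : ∀ p ∈ G, 2 ^ (15 * w) ≤ p)
    (a : ℕ → ℕ) (k : ℕ → ℕ) (hk : ∀ p ∈ G, k p ≤ X) (hdvd : ∀ p ∈ G, p ^ a p ∣ n + k p)
    (hgood : ∀ p ∈ G, n < 2 ^ (1152 * w ^ 2) * p ^ a p)
    (hcard : X ≤ 128 * w * G.card) : False := by
  have hw1 := pow_big w hw
  have hw2 := pow_big' w hw
  have hXn : X ≤ n := by
    rw [hX]
    refine le_trans (Nat.pow_le_pow_right (by norm_num) ?_) hn1
    nlinarith
  have hale : ∀ p ∈ G, a p < L + 2 := by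
    intro p hp
    have h1 : p ^ a p ≤ n + k p := Nat.le_of_dvd (by have := Nat.one_le_two_pow (n := L); omega) (hdvd p hp)
    have h2 : 2 ^ a p ≤ p ^ a p := by
      apply Nat.pow_le_pow_left
      have := hG1 p hp
      have h3 : 2 ^ 1 ≤ 2 ^ (15 * w) := Nat.pow_le_pow_right (by norm_num) (by omega)
      omega
    have h3 : 2 ^ a p < 2 ^ (L + 2) := by
      have h4 := hk p hp
      have h5 : 2 ^ (L + 2) = 2 * 2 ^ (L + 1) := by ring
      omega
    exact (Nat.pow_lt_pow_iff_right (by norm_num)).1 h3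
  -- pigeonhole
  have hpig : ∃ p ∈ G, ∃ q ∈ G, p ≠ q ∧
      (fun p => (a p, p / 2 ^ (2 * w))) p = (fun p => (a p, p / 2 ^ (2 * w))) q := by
    apply Finset.exists_ne_map_eq_of_card_lt_of_maps_to
      (t := (range (L + 2)) ×ˢ (range (2 ^ (14 * w) + 1)))
    · rw [Finset.card_product, Finset.card_range, Finset.card_range]
      by_contra hcon
      rw [not_lt] at hcon
      have h1 : (L + 2) * (2 ^ (14 * w) + 1) ≤ 4 * 2 ^ (15 * w) := by
        have h2 : L + 2 ≤ 2 * 2 ^ w := by omega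
        have h3 : 2 ^ (14 * w) + 1 ≤ 2 * 2 ^ (14 * w) := by
          have := Nat.one_le_two_pow (n := 14 * w)
          omega
        calc (L + 2) * (2 ^ (14 * w) + 1) ≤ (2 * 2 ^ w) * (2 * 2 ^ (14 * w)) :=
              Nat.mul_le_mul h2 h3
          _ = 4 * (2 ^ (w + 14 * w)) := by rw [pow_add]; ring
          _ = 4 * 2 ^ (15 * w) := by congr 2; ring
      have h4 : X ≤ 128 * w * (4 * 2 ^ (15 * w)) :=
        hcard.trans (Nat.mul_le_mul_left _ (hcon.trans h1))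
      have h5 : 128 * w * (4 * 2 ^ (15 * w)) = (512 * w) * 2 ^ (15 * w) := by ring
      have h6 : X = 2 ^ w * 2 ^ (15 * w) := by rw [hX, ← pow_add]; congr 1; ring
      rw [h5, h6] at h4
      have h7 := Nat.le_of_mul_le_mul_right h4 (by positivity)
      omega
    · intro p hp
      have hp' : p ∈ G := hp
      show (a p, p / 2 ^ (2 * w)) ∈ _
      rw [Finset.mem_coe, Finset.mem_product, Finset.mem_range, Finset.mem_range]
      refine ⟨hale p hp', ?_⟩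
      have h1 : p / 2 ^ (2 * w) ≤ 2 ^ (16 * w) / 2 ^ (2 * w) :=
        Nat.div_le_div_right (hX ▸ hGX p hp')
      have h2 : 2 ^ (16 * w) / 2 ^ (2 * w) = 2 ^ (14 * w) := by
        rw [Nat.pow_div (by omega) (by norm_num)]
        congr 1; omega
      omega
  -- extract an ordered pair
  obtain ⟨c, hc, q, hq, hcq, haeq, hdiv⟩ : ∃ c ∈ G, ∃ q ∈ G, c < q ∧ a c = a q ∧
      c / 2 ^ (2 * w) = q / 2 ^ (2 * w) := by
    obtain ⟨p, hp, q, hq, hne, heq⟩ := hpig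
    simp only [Prod.mk.injEq] at heq
    rcases Nat.lt_or_gt_of_ne hne with h | h
    · exact ⟨p, hp, q, hq, h, heq.1, heq.2⟩
    · exact ⟨q, hq, p, hp, h, heq.1.symm, heq.2.symm⟩
  obtain ⟨t, rfl⟩ := Nat.exists_eq_add_of_le hcq.le
  have ht1 : 1 ≤ t := by omega
  have ht2 : t < 2 ^ (2 * w) := by
    have h1 := Nat.div_add_mod c (2 ^ (2 * w))
    have h2 := Nat.div_add_mod (c + t) (2 ^ (2 * w))
    have h3 := Nat.mod_lt (c + t) (show 0 < 2 ^ (2 * w) by positivity)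
    rw [← hdiv] at h2
    omega
  obtain ⟨s1, hs1⟩ := hdvd c hc
  obtain ⟨s2, hs2⟩ := hdvd (c + t) hq
  rw [← haeq] at hs2
  set α := a c with hα
  have hc1 : 2 ^ (15 * w) ≤ c := hG1 c hc
  have hcpos : 1 ≤ c := le_trans Nat.one_le_two_pow hc1
  have hn0 : 0 < n := by omega
  have hs1pos : 1 ≤ s1 := by
    rcases Nat.eq_zero_or_pos s1 with h | h
    · rw [h, mul_zero] at hs1; omega
    · exact h
  have hs2pos : 1 ≤ s2 := by
    rcases Nat.eq_zero_or_pos s2 with h | h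
    · rw [h, mul_zero] at hs2; omega
    · exact h
  have hs1M : s1 ≤ 2 ^ (1152 * w ^ 2 + 1) := by
    have h1 := hgood c hc
    rw [← hα] at h1
    have h2 := hk c hc
    have h3 : c ^ α * s1 ≤ c ^ α * 2 ^ (1152 * w ^ 2 + 1) := by
      calc c ^ α * s1 = n + k c := hs1.symm
        _ ≤ 2 * n := by omega
        _ ≤ 2 * (2 ^ (1152 * w ^ 2) * c ^ α) := by omega
        _ = c ^ α * 2 ^ (1152 * w ^ 2 + 1) := by ring
    exact Nat.le_of_mul_le_mul_left h3 (by positivity)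
  have hs2M : s2 ≤ 2 ^ (1152 * w ^ 2 + 1) := by
    have h1 := hgood (c + t) hq
    rw [← haeq] at h1
    have h2 := hk (c + t) hq
    have h3 : (c + t) ^ α * s2 ≤ (c + t) ^ α * 2 ^ (1152 * w ^ 2 + 1) := by
      calc (c + t) ^ α * s2 = n + k (c + t) := hs2.symm
        _ ≤ 2 * n := by omega
        _ ≤ 2 * (2 ^ (1152 * w ^ 2) * (c + t) ^ α) := by omega
        _ = (c + t) ^ α * 2 ^ (1152 * w ^ 2 + 1) := by ring
    exact Nat.le_of_mul_le_mul_left h3 (by positivity)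
  have hαL : α < L + 2 := hale c hc
  obtain ⟨r, hr⟩ : ∃ r, r = 165 * w := ⟨_, rfl⟩
  have hαr : α + r ≤ 2 ^ (w + 1) := by
    have : 2 ^ (w + 1) = 2 * 2 ^ w := by ring
    omega
  have hcX : c ≤ X := hGX c hc
  -- apply the engine with r = 165 w
  refine engine r α n c t (k c) (k (c + t)) s1 s2 X (2 ^ (1152 * w ^ 2 + 1)) ?_ hs1 hs2
    ht1 hcpos (hGX _ hq) (hk c hc) (hk _ hq) hs1M hs2M hs1pos hs2pos ?_ ?_ ?_
  · -- r + 1 ≤ α
    by_contra hcon
    rw [not_le] at hcon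
    have h1 := hgood c hc
    rw [← hα] at h1
    have h2 : c ^ α ≤ (2 ^ (16 * w)) ^ r := by
      calc c ^ α ≤ (2 ^ (16 * w)) ^ α := Nat.pow_le_pow_left (hX ▸ hcX) _
        _ ≤ (2 ^ (16 * w)) ^ r := Nat.pow_le_pow_right (by positivity) (by omega)
    have h3 : 2 ^ L < 2 ^ (1152 * w ^ 2 + 16 * w * r) := by
      calc 2 ^ L ≤ n := hn1
        _ < 2 ^ (1152 * w ^ 2) * c ^ α := h1
        _ ≤ 2 ^ (1152 * w ^ 2) * (2 ^ (16 * w)) ^ r := Nat.mul_le_mul_left _ h2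
        _ = 2 ^ (1152 * w ^ 2 + 16 * w * r) := by rw [← pow_mul, ← pow_add]
    have h4 := (Nat.pow_lt_pow_iff_right (by norm_num)).1 h3
    have e1 : 1152 * w ^ 2 + 16 * w * r = 3792 * w ^ 2 := by rw [hr]; ring
    rw [e1] at h4
    linarith [Nat.zero_le (w ^ 2)]
  · -- 4 (α + r) t ≤ c
    calc 4 * (α + r) * t ≤ 4 * 2 ^ (w + 1) * 2 ^ (2 * w) :=
          Nat.mul_le_mul (Nat.mul_le_mul_left _ hαr) ht2.le
      _ = 2 ^ (2 + (w + 1) + 2 * w) := by ring
      _ ≤ 2 ^ (15 * w) := Nat.pow_le_pow_right (by norm_num) (by omega)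
      _ ≤ c := hc1
  · -- the main term is small
    have h1 : 2 * (α + r) * t ≤ 2 ^ (3 * w + 2) := by
      calc 2 * (α + r) * t ≤ 2 * 2 ^ (w + 1) * 2 ^ (2 * w) :=
            Nat.mul_le_mul (Nat.mul_le_mul_left _ hαr) ht2.le
        _ = 2 ^ (3 * w + 2) := by ring
    calc 8 * 2 ^ (1152 * w ^ 2 + 1) * (2 * (α + r) * t) ^ (2 * r + 1)
        ≤ 8 * 2 ^ (1152 * w ^ 2 + 1) * (2 ^ (3 * w + 2)) ^ (2 * r + 1) :=
          Nat.mul_le_mul_left _ (Nat.pow_le_pow_left h1 _)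
      _ = 2 ^ 3 * 2 ^ (1152 * w ^ 2 + 1) * 2 ^ ((3 * w + 2) * (2 * r + 1)) := by
          rw [pow_mul 2 (3 * w + 2) (2 * r + 1)]; norm_num
      _ = 2 ^ (3 + (1152 * w ^ 2 + 1) + (3 * w + 2) * (2 * r + 1)) := by
          rw [pow_add 2 (3 + (1152 * w ^ 2 + 1)), pow_add 2 3]
      _ < 2 ^ (15 * w * (r + 1)) := by
          apply Nat.pow_lt_pow_right (by norm_num)
          have e1 : 3 + (1152 * w ^ 2 + 1) + (3 * w + 2) * (2 * r + 1) =
            2142 * w ^ 2 + 663 * w + 6 := by rw [hr]; ring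
          have e2 : 15 * w * (r + 1) = 2475 * w ^ 2 + 15 * w := by rw [hr]; ring
          rw [e1, e2]
          nlinarith
      _ = (2 ^ (15 * w)) ^ (r + 1) := by rw [← pow_mul]
      _ ≤ c ^ (r + 1) := Nat.pow_le_pow_left hc1 _
  · -- n is large
    have h1 : r + 1 ≤ 2 ^ (r + 1) := Nat.lt_two_pow_self.le
    have h2 : (α + r) ^ r ≤ 2 ^ ((w + 1) * r) := by
      rw [pow_mul]; exact Nat.pow_le_pow_left hαr _
    have h3 : (4 : ℕ) ^ r = 2 ^ (2 * r) := by rw [pow_mul]; norm_num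
    have h4 : X ^ r = 2 ^ (16 * w * r) := by rw [hX, ← pow_mul]
    have h5 : X ^ (r + 1) = 2 ^ (16 * w * (r + 1)) := by rw [hX, ← pow_mul]
    have h6 : (r + 1) * ((α + r) ^ r * 4 ^ r * X ^ r) ≤
        2 ^ (r + 1 + ((w + 1) * r + 2 * r + 16 * w * r)) := by
      rw [h3, h4, pow_add 2 (r + 1), pow_add 2 ((w + 1) * r + 2 * r), pow_add 2 ((w + 1) * r)]
      exact Nat.mul_le_mul h1 (Nat.mul_le_mul_right _ (Nat.mul_le_mul_right _ h2))
    obtain ⟨E, hE⟩ : ∃ E, E = 2 + 16 * w + (1152 * w ^ 2 + 1) +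
      (r + 1 + ((w + 1) * r + 2 * r + 16 * w * r)) + 16 * w * (r + 1) := ⟨_, rfl⟩
    have hEL : E < L := by
      have e1 : E = 6597 * w ^ 2 + 692 * w + 4 := by rw [hE, hr]; ring
      have e2 : 692 * w + 4 < 1403 * w ^ 2 := by nlinarith
      rw [e1]
      linarith
    have h7 : 4 * X * 2 ^ (1152 * w ^ 2 + 1) * 2 ^ (r + 1 + ((w + 1) * r + 2 * r + 16 * w * r)) *
        X ^ (r + 1) = 2 ^ E := by
      rw [h5, hX, hE, pow_add 2 (2 + 16 * w + (1152 * w ^ 2 + 1) +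
            (r + 1 + ((w + 1) * r + 2 * r + 16 * w * r))), pow_add 2 (2 + 16 * w +
            (1152 * w ^ 2 + 1)), pow_add 2 (2 + 16 * w), pow_add 2 2]
      norm_num
    have h8 : 4 * X * 2 ^ (1152 * w ^ 2 + 1) * ((r + 1) * ((α + r) ^ r * 4 ^ r * X ^ r)) *
        X ^ (r + 1) ≤ 2 ^ E := by
      rw [← h7]
      exact Nat.mul_le_mul_right _ (Nat.mul_le_mul_left _ h6)
    have h9 : 2 ^ E < 2 ^ L := Nat.pow_lt_pow_right (by norm_num) hEL
    exact lt_of_le_of_lt h8 (lt_of_lt_of_le h9 hn1)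

end Pool.Agent.Helper377.Final
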