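import Mathlib

set_option autoImplicit false

/-! Murty-Simon: the edge inequality (helper638's F, helper377's proof). -/

namespace Pool.Agent.Helper377.MSEdge

/-- the `t`-brace: key inequality -/
theorem key_t (x y c a b P : ℝ) (hx : 0 ≤ x) (hy : 0 ≤ y) (hc : 0 ≤ c) (ha : 0 ≤ a)
    (hab : a + 1 ≤ b) (hP : (y + c + 1) + x ≤ P) :
    2 * x / (x + 2 * c + 2 * b + 1) ≤ P / (y + c + 1) + 2 * y / (y + 2 * c + 2 * a + 1) := by
  have hv : 0 < y + c + 1 := by positivity
  have hY : 0 < y + 2 * c + 2 * a + 1 := by positivity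
  have hb : 0 ≤ b := by linarith
  have hX : 0 < x + 2 * c + 2 * b + 1 := by positivity
  have h1 : ((y + c + 1) + x) / (y + c + 1) ≤ P / (y + c + 1) :=
    div_le_div_of_nonneg_right hP hv.le
  rcases le_or_gt (2 * c + 2 * a + 1) y with hyZ | hyZ
  · have h2 : 1 ≤ 2 * y / (y + 2 * c + 2 * a + 1) := by
      rw [le_div_iff₀ hY]; linarith
    have h3 : 1 ≤ ((y + c + 1) + x) / (y + c + 1) := by
      rw [le_div_iff₀ hv]; linarith
    have h4 : 2 * x / (x + 2 * c + 2 * b + 1) ≤ 2 := by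
      rw [div_le_iff₀ hX]; nlinarith
    linarith
  · have h2 : 0 ≤ 2 * y / (y + 2 * c + 2 * a + 1) := by positivity
    have h3 : 2 * x / (x + 2 * c + 2 * b + 1) ≤ ((y + c + 1) + x) / (y + c + 1) := by
      rw [div_le_div_iff₀ hX hv]
      have hv2 : y + c + 1 ≤ 2 * (2 * c + 2 * b + 1) := by linarith
      have hw : 0 ≤ 2 * c + 2 * b + 1 := by positivity
      generalize y + c + 1 = v at *
      have e : x + 2 * c + 2 * b + 1 = x + (2 * c + 2 * b + 1) := by ring
      rw [e]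
      generalize 2 * c + 2 * b + 1 = w at *
      nlinarith [sq_nonneg (x - v / 2), mul_nonneg hx (sub_nonneg.2 hv2),
        mul_nonneg hv.le (sub_nonneg.2 hv2), sq_nonneg v, sq_nonneg x]
    linarith

theorem brace_t (x r y q c a b P Q : ℝ) (hx : 0 ≤ x) (hr : 0 ≤ r) (hy : 0 ≤ y) (hq : 0 ≤ q)
    (hc : 0 ≤ c) (ha : 1 ≤ a) (hab : b = a ∨ a + 1 ≤ b)
    (hP : (y + c + 1) + x ≤ P) (hQ : b ≤ Q) :
    0 ≤ (a + r - 1) * Q / (x + c + 1) + (b + q - 1) * P / (y + c + 1)
      + 2 * y * (b - a) / (y + 2 * c + 2 * a + 1) + q * (b - a) / (y + c + a + 1)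
      - 2 * x * (b - a) / (x + 2 * c + 2 * b + 1) - r * (b - a) / (x + c + b + 1) := by
  have hP0 : 0 ≤ P := by linarith
  have hb1 : 1 ≤ b := by rcases hab with h | h <;> linarith
  have hQ0 : 0 ≤ Q := by linarith
  have hd : 0 ≤ b - a := by rcases hab with h | h <;> linarith
  have h1 : (r * (b - a)) / (x + c + b + 1) ≤ (a + r - 1) * Q / (x + c + 1) := by
    apply div_le_div₀ (mul_nonneg (by linarith) hQ0) _ (by positivity) (by linarith)
    have : r * (b - a) ≤ r * Q := mul_le_mul_of_nonneg_left (by linarith) hr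
    have h' : 0 ≤ (a - 1) * Q := mul_nonneg (by linarith) hQ0
    nlinarith
  have h2 : (b - a) * P / (y + c + 1) ≤ (b + q - 1) * P / (y + c + 1) := by
    apply div_le_div_of_nonneg_right _ (by positivity)
    exact mul_le_mul_of_nonneg_right (by linarith) hP0
  have h3 : 0 ≤ q * (b - a) / (y + c + a + 1) := by positivity
  have h4 : 2 * x * (b - a) / (x + 2 * c + 2 * b + 1) ≤
      (b - a) * P / (y + c + 1) + 2 * y * (b - a) / (y + 2 * c + 2 * a + 1) := by
    rcases hab with h | h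
    · subst h; simp
    · have := mul_le_mul_of_nonneg_left (key_t x y c a b P hx hy hc (by linarith) h hP) hd
      calc 2 * x * (b - a) / (x + 2 * c + 2 * b + 1)
          = (b - a) * (2 * x / (x + 2 * c + 2 * b + 1)) := by ring
        _ ≤ _ := this
        _ = _ := by ring
  linarith

theorem brace_y (x r y c a b Q : ℝ) (hx : x = 0 ∨ 1 ≤ x) (hr : 0 ≤ r) (hy : 1 ≤ y)
    (hc : 0 ≤ c) (ha : 0 ≤ a) (hab : a ≤ b) (hQ : x + r ≤ Q) :
    0 ≤ (y - 1) * Q / (y + 2 * c + 2 * a + 1) + 2 * x * (b - a) / (y + 2 * c + 2 * a + 1)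
      + 2 * r * (b - a) / (y + 2 * c + 2 * a + 1)
      - 2 * x * (b - a) / (x + 2 * c + 2 * b + 1) - r * (b - a) / (x + c + b + 1) := by
  have hx0 : 0 ≤ x := by rcases hx with h | h <;> linarith
  have hb0 : 0 ≤ b := by linarith
  have hY : 0 < y + 2 * c + 2 * a + 1 := by positivity
  have hX : 0 < x + 2 * c + 2 * b + 1 := by positivity
  have hD : 0 < x + c + b + 1 := by positivity
  have hd : 0 ≤ b - a := by linarith
  have h1 : 2 * x * (b - a) / (x + 2 * c + 2 * b + 1) ≤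
      ((y - 1) * x + 2 * x * (b - a)) / (y + 2 * c + 2 * a + 1) := by
    rw [div_le_div_iff₀ hX hY]
    rcases hx with h | h
    · subst h; simp
    · have key : 2 * (b - a) * (y + 2 * c + 2 * a + 1 - (x + 2 * c + 2 * b + 1)) ≤
          (y - 1) * (x + 2 * c + 2 * b + 1) := by
        have e1 : y + 2 * c + 2 * a + 1 - (x + 2 * c + 2 * b + 1) ≤ y - 1 := by linarith
        have e2 : 2 * (b - a) * (y + 2 * c + 2 * a + 1 - (x + 2 * c + 2 * b + 1)) ≤
            2 * (b - a) * (y - 1) := mul_le_mul_of_nonneg_left e1 (by linarith)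
        have e3 : 2 * (b - a) * (y - 1) ≤ (x + 2 * c + 2 * b + 1) * (y - 1) :=
          mul_le_mul_of_nonneg_right (by linarith) (by linarith)
        linarith
      have := mul_le_mul_of_nonneg_left key hx0
      nlinarith
  have h2 : r * (b - a) / (x + c + b + 1) ≤
      ((y - 1) * r + 2 * r * (b - a)) / (y + 2 * c + 2 * a + 1) := by
    rw [div_le_div_iff₀ hD hY]
    have key : (b - a) * (y + 2 * c + 2 * a + 1 - 2 * (x + c + b + 1)) ≤
        (y - 1) * (x + c + b + 1) := by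
      have e1 : y + 2 * c + 2 * a + 1 - 2 * (x + c + b + 1) ≤ y - 1 := by linarith
      have e2 : (b - a) * (y + 2 * c + 2 * a + 1 - 2 * (x + c + b + 1)) ≤
          (b - a) * (y - 1) := mul_le_mul_of_nonneg_left e1 (by linarith)
      have e3 : (b - a) * (y - 1) ≤ (x + c + b + 1) * (y - 1) :=
        mul_le_mul_of_nonneg_right (by linarith) (by linarith)
      linarith
    have := mul_le_mul_of_nonneg_left key hr
    nlinarith
  have h3 : ((y - 1) * x + 2 * x * (b - a)) / (y + 2 * c + 2 * a + 1)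
      + ((y - 1) * r + 2 * r * (b - a)) / (y + 2 * c + 2 * a + 1) ≤
      (y - 1) * Q / (y + 2 * c + 2 * a + 1) + 2 * x * (b - a) / (y + 2 * c + 2 * a + 1)
      + 2 * r * (b - a) / (y + 2 * c + 2 * a + 1) := by
    rw [← add_div, ← add_div, ← add_div]
    apply div_le_div_of_nonneg_right _ hY.le
    have := mul_le_mul_of_nonneg_left hQ (by linarith : 0 ≤ y - 1)
    nlinarith
  linarith

theorem brace_q (x r y q c a b Q : ℝ) (hx : x = 0 ∨ 1 ≤ x) (hr : 0 ≤ r) (hy : 0 ≤ y)
    (hq : 1 ≤ q) (hc : 0 ≤ c) (ha : 0 ≤ a) (hab : a ≤ b) (hQ : x + r ≤ Q) :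
    0 ≤ 2 * y * Q / (y + 2 * c + 2 * a + 1) + (q - 1) * Q / (y + c + a + 1)
      + x * (b - a) / (y + c + a + 1) + r * (b - a) / (y + c + a + 1)
      - 2 * x * (b - a) / (x + 2 * c + 2 * b + 1) - r * (b - a) / (x + c + b + 1) := by
  have hx0 : 0 ≤ x := by rcases hx with h | h <;> linarith
  have hb0 : 0 ≤ b := by linarith
  have hQ0 : 0 ≤ Q := by linarith
  have hY : 0 < y + 2 * c + 2 * a + 1 := by positivity
  have hX : 0 < x + 2 * c + 2 * b + 1 := by positivity
  have hD : 0 < x + c + b + 1 := by positivity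
  have hE : 0 < y + c + a + 1 := by positivity
  have hd : 0 ≤ b - a := by linarith
  have h0 : y * Q / (y + c + a + 1) ≤ 2 * y * Q / (y + 2 * c + 2 * a + 1) := by
    rw [div_le_div_iff₀ hE hY]
    have := mul_nonneg hy hQ0
    nlinarith
  have h0' : 0 ≤ (q - 1) * Q / (y + c + a + 1) :=
    div_nonneg (mul_nonneg (by linarith) hQ0) hE.le
  have h1 : 2 * x * (b - a) / (x + 2 * c + 2 * b + 1) ≤
      (y * x + x * (b - a)) / (y + c + a + 1) := by
    rw [div_le_div_iff₀ hX hE]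
    rcases hx with h | h
    · subst h; simp
    · have key : (b - a) * (2 * (y + c + a + 1) - (x + 2 * c + 2 * b + 1)) ≤
          y * (x + 2 * c + 2 * b + 1) := by
        have e1 : 2 * (y + c + a + 1) - (x + 2 * c + 2 * b + 1) ≤ 2 * y := by linarith
        have e2 := mul_le_mul_of_nonneg_left e1 hd
        have e3 : 2 * (b - a) * y ≤ (x + 2 * c + 2 * b + 1) * y :=
          mul_le_mul_of_nonneg_right (by linarith) hy
        nlinarith
      have := mul_le_mul_of_nonneg_left key hx0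
      nlinarith
  have h2 : r * (b - a) / (x + c + b + 1) ≤
      (y * r + r * (b - a)) / (y + c + a + 1) := by
    rw [div_le_div_iff₀ hD hE]
    have key : (b - a) * ((y + c + a + 1) - (x + c + b + 1)) ≤
        y * (x + c + b + 1) := by
      have e1 : (y + c + a + 1) - (x + c + b + 1) ≤ y := by linarith
      have e2 := mul_le_mul_of_nonneg_left e1 hd
      have e3 : (b - a) * y ≤ (x + c + b + 1) * y :=
        mul_le_mul_of_nonneg_right (by linarith) hy
      nlinarith
    have := mul_le_mul_of_nonneg_left key hr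
    nlinarith
  have h3 : (y * x + x * (b - a)) / (y + c + a + 1)
      + (y * r + r * (b - a)) / (y + c + a + 1) ≤
      y * Q / (y + c + a + 1) + x * (b - a) / (y + c + a + 1)
      + r * (b - a) / (y + c + a + 1) := by
    rw [← add_div, ← add_div, ← add_div]
    apply div_le_div_of_nonneg_right _ hE.le
    have := mul_le_mul_of_nonneg_left hQ hy
    nlinarith
  linarith

/-- the edge inequality when `a ≤ b` -/
theorem edge_le (t x r y q c a b : ℕ) (hta : 0 < t → 1 ≤ a) (hab : a ≤ b)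
    (P Q : ℝ) (hP : P = t + x + r + y + q + c + a) (hQ : Q = t + x + r + y + q + c + b)
    (hP0 : 0 < P) :
    ((t : ℝ) + y + q) / P + ((t : ℝ) + x + r) / Q ≤
      ((a : ℝ) + x + r + c) / P * (t / (x + c + 1) + 2 * x / (x + 2 * c + 2 * b + 1)
        + r / (x + c + b + 1))
      + ((b : ℝ) + y + q + c) / Q * (t / (y + c + 1) + 2 * y / (y + 2 * c + 2 * a + 1)
        + q / (y + c + a + 1)) := by
  have habR : (a : ℝ) ≤ b := by exact_mod_cast hab
  have hQ0 : 0 < Q := by rw [hQ]; rw [hP] at hP0; linarith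
  have ht0 : (0 : ℝ) ≤ t := by positivity
  have hx0 : (0 : ℝ) ≤ x := by positivity
  have hr0 : (0 : ℝ) ≤ r := by positivity
  have hy0 : (0 : ℝ) ≤ y := by positivity
  have hq0 : (0 : ℝ) ≤ q := by positivity
  have hc0 : (0 : ℝ) ≤ c := by positivity
  have ha0 : (0 : ℝ) ≤ a := by positivity
  have hb0 : (0 : ℝ) ≤ b := by positivity
  have hxx : (x : ℝ) = 0 ∨ (1 : ℝ) ≤ x := by
    rcases Nat.eq_zero_or_pos x with h | h
    · left; exact_mod_cast h
    · right; exact_mod_cast h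
  have hrr : (r : ℝ) = 0 ∨ (1 : ℝ) ≤ r := by
    rcases Nat.eq_zero_or_pos r with h | h
    · left; exact_mod_cast h
    · right; exact_mod_cast h
  -- braces
  have T : 0 ≤ (t : ℝ) * (((a : ℝ) + r - 1) * Q / (x + c + 1) + (b + q - 1) * P / (y + c + 1)
      + 2 * y * (b - a) / (y + 2 * c + 2 * a + 1) + q * (b - a) / (y + c + a + 1)
      - 2 * x * (b - a) / (x + 2 * c + 2 * b + 1) - r * (b - a) / (x + c + b + 1)) := by
    rcases Nat.eq_zero_or_pos t with h | h
    · rw [h]; simp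
    · apply mul_nonneg ht0
      have h1 : (1 : ℝ) ≤ t := by exact_mod_cast h
      have ha1 : (1 : ℝ) ≤ a := by exact_mod_cast hta h
      apply brace_t _ _ _ _ _ _ _ _ _ hx0 hr0 hy0 hq0 hc0 ha1
      · rcases Nat.eq_or_lt_of_le hab with h' | h'
        · left; exact_mod_cast h'.symm
        · right; exact_mod_cast h'
      · rw [hP]; linarith
      · rw [hQ]; linarith
  have Y : 0 ≤ (y : ℝ) * (((y : ℝ) - 1) * Q / (y + 2 * c + 2 * a + 1)
      + 2 * x * (b - a) / (y + 2 * c + 2 * a + 1)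
      + 2 * r * (b - a) / (y + 2 * c + 2 * a + 1)
      - 2 * x * (b - a) / (x + 2 * c + 2 * b + 1) - r * (b - a) / (x + c + b + 1)) := by
    rcases Nat.eq_zero_or_pos y with h | h
    · rw [h]; simp
    · apply mul_nonneg hy0
      have h1 : (1 : ℝ) ≤ y := by exact_mod_cast h
      apply brace_y _ _ _ _ _ _ _ hxx hr0 h1 hc0 ha0 habR
      rw [hQ]; linarith
  have Z : 0 ≤ (q : ℝ) * (2 * (y : ℝ) * Q / (y + 2 * c + 2 * a + 1) + (q - 1) * Q / (y + c + a + 1)
      + x * (b - a) / (y + c + a + 1) + r * (b - a) / (y + c + a + 1)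
      - 2 * x * (b - a) / (x + 2 * c + 2 * b + 1) - r * (b - a) / (x + c + b + 1)) := by
    rcases Nat.eq_zero_or_pos q with h | h
    · rw [h]; simp
    · apply mul_nonneg hq0
      have h1 : (1 : ℝ) ≤ q := by exact_mod_cast h
      apply brace_q _ _ _ _ _ _ _ _ hxx hr0 hy0 h1 hc0 ha0 habR
      rw [hQ]; linarith
  have R1 : 0 ≤ (x : ℝ) * P * (x + 2 * r - 1) / (x + 2 * c + 2 * b + 1) := by
    rcases hxx with h | h
    · rw [h]; simp
    · have : (0 : ℝ) ≤ x + 2 * r - 1 := by linarith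
      positivity
  have R2 : 0 ≤ (r : ℝ) * P * (r - 1) / (x + c + b + 1) := by
    rcases hrr with h | h
    · rw [h]; simp
    · have : (0 : ℝ) ≤ r - 1 := by linarith
      positivity
  have n1 : ((x : ℝ) + c + 1) ≠ 0 := by positivity
  have n2 : ((x : ℝ) + 2 * c + 2 * b + 1) ≠ 0 := by positivity
  have n3 : ((x : ℝ) + c + b + 1) ≠ 0 := by positivity
  have n4 : ((y : ℝ) + c + 1) ≠ 0 := by positivity
  have n5 : ((y : ℝ) + 2 * c + 2 * a + 1) ≠ 0 := by positivity
  have n6 : ((y : ℝ) + c + a + 1) ≠ 0 := by positivity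
  -- piecewise identities
  have I1 : P * Q * (((a : ℝ) + x + r + c) / P * (t / (x + c + 1)) - t / P) =
      t * (((a : ℝ) + r - 1) * Q / (x + c + 1)) := by
    field_simp
    ring
  have I2 : P * Q * (((b : ℝ) + y + q + c) / Q * (t / (y + c + 1)) - t / Q) =
      t * (((b : ℝ) + q - 1) * P / (y + c + 1)) := by
    field_simp
    ring
  have I3 : P * Q * (((a : ℝ) + x + r + c) / P * (2 * x / (x + 2 * c + 2 * b + 1)) - x / Q) =
      x * (P * (x + 2 * r - 1) - 2 * (t + y + q) * (b - a)) / (x + 2 * c + 2 * b + 1) := by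
    field_simp
    rw [hP, hQ]
    ring
  have I4 : P * Q * (((a : ℝ) + x + r + c) / P * (r / (x + c + b + 1)) - r / Q) =
      r * (P * (r - 1) - (t + y + q) * (b - a)) / (x + c + b + 1) := by
    field_simp
    rw [hP, hQ]
    ring
  have I5 : P * Q * (((b : ℝ) + y + q + c) / Q * (2 * y / (y + 2 * c + 2 * a + 1)) - y / P) =
      y * (Q * (y + 2 * q - 1) + 2 * (t + x + r) * (b - a)) / (y + 2 * c + 2 * a + 1) := by
    field_simp
    rw [hP, hQ]
    ring
  have I6 : P * Q * (((b : ℝ) + y + q + c) / Q * (q / (y + c + a + 1)) - q / P) =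
      q * (Q * (q - 1) + (t + x + r) * (b - a)) / (y + c + a + 1) := by
    field_simp
    rw [hP, hQ]
    ring
  have tot : P * Q * ((((a : ℝ) + x + r + c) / P * (t / (x + c + 1)
        + 2 * x / (x + 2 * c + 2 * b + 1) + r / (x + c + b + 1))
      + ((b : ℝ) + y + q + c) / Q * (t / (y + c + 1) + 2 * y / (y + 2 * c + 2 * a + 1)
        + q / (y + c + a + 1))) - (((t : ℝ) + y + q) / P + ((t : ℝ) + x + r) / Q)) =
      (t : ℝ) * (((a : ℝ) + r - 1) * Q / (x + c + 1) + (b + q - 1) * P / (y + c + 1)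
      + 2 * y * (b - a) / (y + 2 * c + 2 * a + 1) + q * (b - a) / (y + c + a + 1)
      - 2 * x * (b - a) / (x + 2 * c + 2 * b + 1) - r * (b - a) / (x + c + b + 1))
      + (y : ℝ) * (((y : ℝ) - 1) * Q / (y + 2 * c + 2 * a + 1)
      + 2 * x * (b - a) / (y + 2 * c + 2 * a + 1)
      + 2 * r * (b - a) / (y + 2 * c + 2 * a + 1)
      - 2 * x * (b - a) / (x + 2 * c + 2 * b + 1) - r * (b - a) / (x + c + b + 1))
      + (q : ℝ) * (2 * (y : ℝ) * Q / (y + 2 * c + 2 * a + 1) + (q - 1) * Q / (y + c + a + 1)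
      + x * (b - a) / (y + c + a + 1) + r * (b - a) / (y + c + a + 1)
      - 2 * x * (b - a) / (x + 2 * c + 2 * b + 1) - r * (b - a) / (x + c + b + 1))
      + (x : ℝ) * P * (x + 2 * r - 1) / (x + 2 * c + 2 * b + 1)
      + (r : ℝ) * P * (r - 1) / (x + c + b + 1) := by
    have e : P * Q * ((((a : ℝ) + x + r + c) / P * (t / (x + c + 1)
        + 2 * x / (x + 2 * c + 2 * b + 1) + r / (x + c + b + 1))
      + ((b : ℝ) + y + q + c) / Q * (t / (y + c + 1) + 2 * y / (y + 2 * c + 2 * a + 1)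
        + q / (y + c + a + 1))) - (((t : ℝ) + y + q) / P + ((t : ℝ) + x + r) / Q)) =
        P * Q * (((a : ℝ) + x + r + c) / P * (t / (x + c + 1)) - t / P)
        + P * Q * (((b : ℝ) + y + q + c) / Q * (t / (y + c + 1)) - t / Q)
        + P * Q * (((a : ℝ) + x + r + c) / P * (2 * x / (x + 2 * c + 2 * b + 1)) - x / Q)
        + P * Q * (((a : ℝ) + x + r + c) / P * (r / (x + c + b + 1)) - r / Q)
        + P * Q * (((b : ℝ) + y + q + c) / Q * (2 * y / (y + 2 * c + 2 * a + 1)) - y / P)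
        + P * Q * (((b : ℝ) + y + q + c) / Q * (q / (y + c + a + 1)) - q / P) := by ring
    rw [e, I1, I2, I3, I4, I5, I6]
    ring
  have hPQ : 0 < P * Q := mul_pos hP0 hQ0
  have fin : 0 ≤ P * Q * ((((a : ℝ) + x + r + c) / P * (t / (x + c + 1)
        + 2 * x / (x + 2 * c + 2 * b + 1) + r / (x + c + b + 1))
      + ((b : ℝ) + y + q + c) / Q * (t / (y + c + 1) + 2 * y / (y + 2 * c + 2 * a + 1)
        + q / (y + c + a + 1))) - (((t : ℝ) + y + q) / P + ((t : ℝ) + x + r) / Q)) := by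
    rw [tot]; linarith
  have := nonneg_of_mul_nonneg_right fin hPQ
  linarith

/-- **the edge inequality** `κ + κ' ≤ F + F'`.  For an edge `ww'` of `G[W]`:
`t = |K ∩ K'|`, `x = |M ∩ K'|`, `r = |(U \ M) ∩ K'|`, `y = |K ∩ M'|`, `q = |K ∩ (U' \ M')|`,
`c = |U ∩ U'|`, `a = |A' \ A|`, `b = |A \ A'|`; `P = h(w)`, `Q = h(w')`. -/
theorem edge_ineq (t x r y q c a b : ℕ) (hta : 0 < t → 1 ≤ a) (htb : 0 < t → 1 ≤ b)
    (P Q : ℝ) (hP : P = t + x + r + y + q + c + a) (hQ : Q = t + x + r + y + q + c + b)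
    (hP0 : 0 < P) (hQ0 : 0 < Q) :
    ((t : ℝ) + y + q) / P + ((t : ℝ) + x + r) / Q ≤
      ((a : ℝ) + x + r + c) / P * (t / (x + c + 1) + 2 * x / (x + 2 * c + 2 * b + 1)
        + r / (x + c + b + 1))
      + ((b : ℝ) + y + q + c) / Q * (t / (y + c + 1) + 2 * y / (y + 2 * c + 2 * a + 1)
        + q / (y + c + a + 1)) := by
  rcases le_total a b with h | h
  · exact edge_le t x r y q c a b hta h P Q hP hQ hP0
  · have := edge_le t y q x r c b a htb h Q P (by rw [hQ]; ring) (by rw [hP]; ring) hQ0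
    linarith

end Pool.Agent.Helper377.MSEdge
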