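import Mathlib
import Pool.Agent.Helper377.Final

namespace Pool.Agent.Helper377.Main

open Finset Nat Pool.Agent.Helper377.Mass Pool.Agent.Helper377.Count Pool.Agent.Helper377.Final

theorem kdvd (q n : ℕ) (hq : 0 < q) : q ∣ n + (q - n % q) % q := by
  have h1 := Nat.div_add_mod n q
  have h2 := Nat.mod_lt n hq
  by_cases h : n % q = 0
  · rw [h, Nat.sub_zero, Nat.mod_self, Nat.add_zero]
    exact Nat.dvd_of_mod_eq_zero h
  · rw [Nat.mod_eq_of_lt (show q - n % q < q by omega)]
    refine ⟨n / q + 1, ?_⟩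
    rw [mul_add, mul_one]
    omega

/-- For every fixed `l` and all large `n`, some `n + k` with `k ≥ l` has two distinct prime
factors exceeding `k`. -/
theorem main (l : ℕ) : ∃ N0 : ℕ, ∀ n ≥ N0, ∃ k, l ≤ k ∧ ∃ p q : ℕ, p.Prime ∧ q.Prime ∧ p ≠ q ∧
    k < p ∧ k < q ∧ p ∣ n + k ∧ q ∣ n + k := by
  refine ⟨2 ^ (2 ^ (64 + l)), ?_⟩
  intro n hn
  by_contra hcon
  have hbad : ∀ k, l ≤ k → ∀ p q : ℕ, p.Prime → q.Prime → p ≠ q → k < p → k < q →
      p ∣ n + k → q ∣ n + k → False := by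
    intro k hk p q hp hq hpq h1 h2 h3 h4
    exact hcon ⟨k, hk, p, q, hp, hq, hpq, h1, h2, h3, h4⟩
  have hn0 : 0 < n := lt_of_lt_of_le (by positivity) hn
  obtain ⟨L, hL⟩ : ∃ L, L = Nat.log 2 n := ⟨_, rfl⟩
  have hn1 : 2 ^ L ≤ n := by rw [hL]; exact Nat.pow_log_le_self 2 hn0.ne'
  have hn2 : n < 2 ^ (L + 1) := by rw [hL]; exact Nat.lt_pow_succ_log_self (by norm_num) n
  have hLbig : 2 ^ (64 + l) ≤ L := by
    have h1 : 2 ^ (2 ^ (64 + l)) < 2 ^ (L + 1) := lt_of_le_of_lt hn hn2
    have h2 := (Nat.pow_lt_pow_iff_right (by norm_num)).1 h1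
    omega
  have hL0 : 0 < L := lt_of_lt_of_le (by positivity) hLbig
  obtain ⟨w, hw⟩ : ∃ w, w = Nat.log 2 L + 1 := ⟨_, rfl⟩
  have hL1 : 2 ^ (w - 1) ≤ L := by
    rw [hw, Nat.add_sub_cancel]; exact Nat.pow_log_le_self 2 hL0.ne'
  have hL2 : L < 2 ^ w := by rw [hw]; exact Nat.lt_pow_succ_log_self (by norm_num) L
  have hwl : 64 + l < w := by
    exact (Nat.pow_lt_pow_iff_right (by norm_num)).1 (lt_of_le_of_lt hLbig hL2)
  have hw64 : 64 ≤ w := by omega
  obtain ⟨X, hX⟩ : ∃ X, X = 2 ^ (16 * w) := ⟨_, rfl⟩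
  have hw1 := pow_big w hw64
  have hw2 := pow_big' w hw64
  have hX0 : 0 < X := by rw [hX]; positivity
  have hXn : X ≤ n := by
    rw [hX]
    refine le_trans (Nat.pow_le_pow_right (by norm_num) ?_) hn1
    nlinarith
  have hln : l ≤ n := by
    have h1 : w < 2 ^ w := Nat.lt_two_pow_self
    have h2 : 2 ^ w ≤ 2 ^ (16 * w) := Nat.pow_le_pow_right (by norm_num) (by omega)
    omega
  -- the primes up to X
  set P := (range (X + 1)).filter Nat.Prime with hP
  set Q := ∏ j ∈ range l, (n + j) with hQ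
  have hQ0 : Q ≠ 0 := by
    rw [hQ, Finset.prod_ne_zero_iff]
    intro a _
    omega
  set A := P.filter (fun q => ¬ q ∣ Q) with hA
  set k : ℕ → ℕ := fun q => (q - n % q) % q with hk
  have hPmem : ∀ q ∈ P, q ≤ X ∧ q.Prime := by
    intro q hq
    rw [hP, Finset.mem_filter, Finset.mem_range] at hq
    exact ⟨by omega, hq.2⟩
  have hAP : ∀ q ∈ A, q ∈ P := fun q hq => (Finset.mem_filter.1 hq).1
  have hklt : ∀ q ∈ A, k q < q := fun q hq => Nat.mod_lt _ (hPmem q (hAP q hq)).2.pos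
  have hkdvd : ∀ q ∈ A, q ∣ n + k q := fun q hq => kdvd q n (hPmem q (hAP q hq)).2.pos
  have hkl : ∀ q ∈ A, l ≤ k q := by
    intro q hq
    by_contra h
    rw [not_le] at h
    apply (Finset.mem_filter.1 hq).2
    exact (hkdvd q hq).trans (Finset.dvd_prod_of_mem (fun j => n + j) (Finset.mem_range.2 h))
  have hkX : ∀ q ∈ A, k q ≤ X := by
    intro q hq
    have := hklt q hq
    have := (hPmem q (hAP q hq)).1
    omega
  have hinj : Set.InjOn k A := by
    intro q hq q' hq' heq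
    by_contra hne
    have hq1 : q ∈ A := hq
    have hq2 : q' ∈ A := hq'
    refine hbad (k q) (hkl q hq1) q q' (hPmem q (hAP q hq1)).2 (hPmem q' (hAP q' hq2)).2 hne
      (hklt q hq1) ?_ (hkdvd q hq1) ?_
    · rw [heq]; exact hklt q' hq2
    · rw [heq]; exact hkdvd q' hq2
  have hsm : ∀ q ∈ A, ∀ p, p.Prime → p ∣ n + k q → p ≤ X := by
    intro q hq p hp hpd
    by_contra h
    rw [not_le] at h
    have h1 := (hPmem q (hAP q hq)).1
    have h2 := hklt q hq
    exact hbad (k q) (hkl q hq) q p (hPmem q (hAP q hq)).2 hp (by omega) h2 (by omega)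
      (hkdvd q hq) hpd
  -- the number of primes dividing Q
  set D := (P.filter (fun q => q ∣ Q)).card with hD
  have hPcard : P.card = A.card + D := by
    rw [hA, hD, add_comm]
    exact (Finset.card_filter_add_card_filter_not (fun q => q ∣ Q)).symm
  have hQle : Q ≤ 2 ^ ((L + 2) * l) := by
    rw [pow_mul, hQ]
    calc ∏ j ∈ range l, (n + j) ≤ ∏ _j ∈ range l, 2 ^ (L + 2) := by
          apply Finset.prod_le_prod
          · intro i _; positivity
          · intro i hi
            rw [Finset.mem_range] at hi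
            have : 2 ^ (L + 2) = 2 * 2 ^ (L + 1) := by ring
            omega
      _ = (2 ^ (L + 2)) ^ l := by rw [Finset.prod_const, Finset.card_range]
  have hDle : D ≤ (L + 2) * l := by
    have h1 : 2 ^ D ≤ Q := by
      apply card_le_log _ _ hQ0
      intro p hp
      rw [Finset.mem_filter] at hp
      exact ⟨(hPmem p hp.1).2, hp.2⟩
    exact (Nat.pow_le_pow_iff_right (by norm_num)).1 (h1.trans hQle)
  have hLl : (L + 1) * ((L + 2) * l) ≤ X := by
    have h0 : 1 ≤ 2 ^ w := Nat.one_le_two_pow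
    have h1 : L + 1 ≤ 2 ^ w := hL2
    have h2 : L + 2 ≤ 2 ^ (w + 1) := by
      have : 2 ^ (w + 1) = 2 * 2 ^ w := by ring
      omega
    have h3 : l ≤ 2 ^ w := by
      have h1 : w < 2 ^ w := Nat.lt_two_pow_self
      omega
    calc (L + 1) * ((L + 2) * l) ≤ 2 ^ w * (2 ^ (w + 1) * 2 ^ w) :=
          Nat.mul_le_mul h1 (Nat.mul_le_mul h2 h3)
      _ = 2 ^ (w + (w + 1 + w)) := by ring
      _ ≤ X := by rw [hX]; exact Nat.pow_le_pow_right (by norm_num) (by omega)
  -- Chebyshev
  have hcheb : X ≤ 16 * w + 1 + 16 * w * P.card := by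
    have := cheb (16 * w)
    rw [← hX] at this
    exact this
  have hXw : 512 * w * 2 ^ (15 * w) ≤ X := by
    calc 512 * w * 2 ^ (15 * w) ≤ 2 ^ w * 2 ^ (15 * w) := Nat.mul_le_mul_right _ hw2.le
      _ = X := by rw [hX, ← pow_add]; congr 1; ring
  have hw15 : w ≤ 2 ^ (15 * w) := by
    have h1 : w < 2 ^ w := Nat.lt_two_pow_self
    have h2 : 2 ^ w ≤ 2 ^ (15 * w) := Nat.pow_le_pow_right (by norm_num) (by omega)
    omega
  have hXw2 : 512 * w * w ≤ X := le_trans (Nat.mul_le_mul_left _ hw15) hXw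
  have hAne : A.Nonempty := by
    rw [Finset.nonempty_iff_ne_empty]
    intro h
    rw [h, Finset.card_empty, zero_add] at hPcard
    -- then P.card = D is at most (L+2) l, too small
    have h1 : 16 * w * P.card ≤ 16 * w * ((L + 2) * l) := Nat.mul_le_mul_left _ (hPcard ▸ hDle)
    have h2 : (L + 2) * l * 64 ≤ (L + 1) * ((L + 2) * l) := by
      have : 64 ≤ L + 1 := by
        have : 64 ≤ L := le_trans (le_trans (by norm_num) (Nat.pow_le_pow_right (by norm_num)
          (show 6 ≤ 64 + l by omega))) hLbig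
        omega
      nlinarith
    have h3 : 16 * w * ((L + 2) * l) * 2 ≤ X := by
      have h4 : 32 * w ≤ L + 1 := by nlinarith
      calc 16 * w * ((L + 2) * l) * 2 = (32 * w) * ((L + 2) * l) := by ring
        _ ≤ (L + 1) * ((L + 2) * l) := Nat.mul_le_mul_right _ h4
        _ ≤ X := hLl
    have h5 : 2 * X ≤ 2 * (16 * w + 1) + X := by omega
    nlinarith
  obtain ⟨e, he, hmass⟩ := mass X n hn0 A hAne k hkX hinj hsm
  rw [← hP] at hmass
  set a : ℕ → ℕ := fun p => (n + k (e p)).factorization p with ha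
  have hfle : ∀ p ∈ P, p ^ a p ≤ 2 * n := by
    intro p _
    have h1 : p ^ a p ∣ n + k (e p) := Nat.ordProj_dvd _ _
    have h2 := Nat.le_of_dvd (by omega) h1
    have h3 := hkX (e p) (he p)
    omega
  have hbadc := bad_card X n (2 ^ (1152 * w ^ 2)) hn0 P (fun p => p ^ a p) (2 * n) hfle (by omega)
    (by positivity) A.card D hPcard hmass rfl
  set Bd := P.filter (fun p => 2 ^ (1152 * w ^ 2) * p ^ a p ≤ n) with hBd
  have hBdc : 64 * w * Bd.card ≤ X := by
    have hPle : P.card ≤ X + 1 := by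
      calc P.card ≤ (range (X + 1)).card := Finset.card_filter_le _ _
        _ = X + 1 := Finset.card_range _
    have h1 : 2 ^ (1152 * w ^ 2 * Bd.card) ≤ 2 ^ (16 * w * X + ((X + 1) + (L + 1) * D)) := by
      rw [pow_mul]
      refine hbadc.trans ?_
      have e1 : X ^ X = 2 ^ (16 * w * X) := by
        conv_lhs => rw [hX]
        rw [← pow_mul, ← hX]
      rw [pow_add, pow_add, e1]
      apply Nat.mul_le_mul_left
      apply Nat.mul_le_mul
      · exact Nat.pow_le_pow_right (by norm_num) hPle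
      · rw [pow_mul]
        exact Nat.pow_le_pow_left hn2.le _
    have h2 := (Nat.pow_le_pow_iff_right (by norm_num)).1 h1
    have h3 : (L + 1) * D ≤ X := le_trans (Nat.mul_le_mul_left _ hDle) hLl
    have h4 : 18 * w * (64 * w * Bd.card) ≤ 18 * w * X := by
      have e2 : 18 * w * (64 * w * Bd.card) = 1152 * w ^ 2 * Bd.card := by ring
      have e3 : 18 * w * X = 16 * w * X + 2 * w * X := by ring
      rw [e2, e3]
      have h5 : 3 * X ≤ 2 * w * X := Nat.mul_le_mul_right _ (by omega)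
      omega
    exact Nat.le_of_mul_le_mul_left h4 (by omega)
  set G := P.filter (fun p => n < 2 ^ (1152 * w ^ 2) * p ^ a p ∧ 2 ^ (15 * w) ≤ p) with hG
  have hPsub : P ⊆ (Bd ∪ G) ∪ range (2 ^ (15 * w)) := by
    intro p hp
    rw [Finset.mem_union, Finset.mem_union, Finset.mem_range]
    by_cases h1 : 2 ^ (1152 * w ^ 2) * p ^ a p ≤ n
    · left; left
      exact Finset.mem_filter.2 ⟨hp, h1⟩
    · by_cases h2 : 2 ^ (15 * w) ≤ p
      · left; right
        exact Finset.mem_filter.2 ⟨hp, by omega, h2⟩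
      · right; omega
  have hGcard : P.card ≤ Bd.card + G.card + 2 ^ (15 * w) := by
    calc P.card ≤ ((Bd ∪ G) ∪ range (2 ^ (15 * w))).card := Finset.card_le_card hPsub
      _ ≤ (Bd ∪ G).card + (range (2 ^ (15 * w))).card := Finset.card_union_le _ _
      _ ≤ Bd.card + G.card + 2 ^ (15 * w) := by
          rw [Finset.card_range]
          exact Nat.add_le_add_right (Finset.card_union_le _ _) _
  have hG128 : X ≤ 128 * w * G.card := by
    have h1 : 128 * w * P.card ≤ 128 * w * (Bd.card + G.card + 2 ^ (15 * w)) :=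
      Nat.mul_le_mul_left _ hGcard
    have h2 : 128 * w * (Bd.card + G.card + 2 ^ (15 * w)) =
      2 * (64 * w * Bd.card) + 128 * w * G.card + 128 * w * 2 ^ (15 * w) := by ring
    have h3 : 128 * w * P.card = 8 * (16 * w * P.card) := by ring
    have h4 : 4 * (128 * w * 2 ^ (15 * w)) = 512 * w * 2 ^ (15 * w) := by ring
    have h5 : 128 * w + 8 ≤ 512 * w * w := by nlinarith
    omega
  refine finish n L w X hw64 hL1 hL2 hn1 hn2 hX G ?_ ?_ a (fun p => k (e p)) ?_ ?_ ?_ hG128
  · intro p hp; exact (hPmem p (Finset.mem_filter.1 hp).1).1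
  · intro p hp; exact (Finset.mem_filter.1 hp).2.2
  · intro p _; exact hkX (e p) (he p)
  · intro p _; exact Nat.ordProj_dvd _ _
  · intro p hp; exact (Finset.mem_filter.1 hp).2.1

end Pool.Agent.Helper377.Main
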