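import Mathlib

set_option autoImplicit false

namespace Pool.Agent.Helper377.MaxSum

/-- Admissible sets: subsets of `{1,…,n}` whose elements are pairwise coprime. -/
def Admissible (n : ℕ) (S : Finset ℕ) : Prop :=
  S ⊆ Finset.Icc 1 n ∧ (S : Set ℕ).Pairwise Nat.Coprime

/-- Maximising sets: admissible sets of maximal sum. -/
def Maximising (n : ℕ) (S : Finset ℕ) : Prop :=
  Admissible n S ∧ ∀ T : Finset ℕ, Admissible n T → ∑ a ∈ T, a ≤ ∑ a ∈ S, a

/-- a prime that only occurs in `S` as the element itself, if at all -/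
def Free (S : Finset ℕ) (P : ℕ) : Prop := ∀ s ∈ S, P ∣ s → s = P

theorem exchange {n : ℕ} {S : Finset ℕ} (hS : Maximising n S) (R B : Finset ℕ)
    (hB : ∀ b ∈ B, 2 ≤ b ∧ b ≤ n) (hBc : (B : Set ℕ).Pairwise Nat.Coprime)
    (hcross : ∀ b ∈ B, ∀ s ∈ S, s ∉ R → Nat.Coprime b s) :
    ∑ b ∈ B, b ≤ ∑ r ∈ R, r := by
  classical
  obtain ⟨⟨hS1, hS2⟩, hmax⟩ := hS
  have hT : Admissible n ((S \ R) ∪ B) := by
    constructor
    · intro x hx
      rcases Finset.mem_union.mp hx with h | h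
      · exact hS1 (Finset.sdiff_subset h)
      · have := hB x h
        rw [Finset.mem_Icc]; omega
    · intro x hx y hy hxy
      simp only [Finset.coe_union, Finset.coe_sdiff, Set.mem_union, Set.mem_diff, Finset.mem_coe] at hx hy
      rcases hx with hx | hx <;> rcases hy with hy | hy
      · exact hS2 hx.1 hy.1 hxy
      · exact (hcross y hy x hx.1 hx.2).symm
      · exact hcross x hx y hy.1 hy.2
      · exact hBc hx hy hxy
  have hdisj : Disjoint (S \ R) B := by
    rw [Finset.disjoint_left]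
    intro x hx hxB
    rw [Finset.mem_sdiff] at hx
    have := hcross x hxB x hx.1 hx.2
    rw [Nat.coprime_self] at this
    have := (hB x hxB).1
    omega
  have h1 := hmax _ hT
  rw [Finset.sum_union hdisj] at h1
  have h2 : ∑ a ∈ S, a = ∑ a ∈ S \ R, a + ∑ a ∈ S ∩ R, a := by
    rw [← Finset.sum_inter_add_sum_sdiff S R, add_comm]
  have h3 : ∑ a ∈ S ∩ R, a ≤ ∑ r ∈ R, r :=
    Finset.sum_le_sum_of_subset Finset.inter_subset_right
  omega

theorem prime_coprime_of_mem {n : ℕ} {S : Finset ℕ} (hS : Admissible n S) {a p s : ℕ}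
    (ha : a ∈ S) (hp : p.Prime) (hpa : p ∣ a) (hs : s ∈ S) (hne : s ≠ a) : Nat.Coprime p s :=
  Nat.Coprime.coprime_dvd_left hpa (hS.2 ha hs (Ne.symm hne))

theorem free_coprime {S : Finset ℕ} {P s : ℕ} (hP : P.Prime) (hf : Free S P) (hs : s ∈ S)
    (hne : s ≠ P) : Nat.Coprime P s := by
  rw [hP.coprime_iff_not_dvd]
  intro h
  exact hne (hf s hs h)

theorem sum_insert_le (a : ℕ) (s : Finset ℕ) : ∑ x ∈ insert a s, x ≤ a + ∑ x ∈ s, x := by
  classical
  by_cases h : a ∈ s
  · rw [Finset.insert_eq_of_mem h]; omega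
  · rw [Finset.sum_insert h]

/-- Exchange 1. -/
theorem ex1 {n : ℕ} {S : Finset ℕ} (hS : Maximising n S) {a p q P Q : ℕ} (ha : a ∈ S)
    (hp : p.Prime) (hq : q.Prime) (hpq : p ≠ q) (hpa : p ∣ a) (hqa : q ∣ a)
    (hP : P.Prime) (hQ : Q.Prime) (hPQ : P ≠ Q) (hfP : Free S P) (hfQ : Free S Q)
    (h1 : p * P ≤ n) (h2 : q * Q ≤ n) :
    p * P + q * Q ≤ a + P + Q := by
  classical
  have notself : ∀ X : ℕ, X.Prime → Free S X → ¬ X ∣ a := by
    intro X hX hf h
    have h3 := hf a ha h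
    rw [h3] at hpa hqa
    have h4 := (Nat.prime_dvd_prime_iff_eq hp hX).mp hpa
    have h5 := (Nat.prime_dvd_prime_iff_eq hq hX).mp hqa
    exact hpq (h4.trans h5.symm)
  have hPp : P ≠ p := fun h => notself P hP hfP (h ▸ hpa)
  have hPq : P ≠ q := fun h => notself P hP hfP (h ▸ hqa)
  have hQp : Q ≠ p := fun h => notself Q hQ hfQ (h ▸ hpa)
  have hQq : Q ≠ q := fun h => notself Q hQ hfQ (h ▸ hqa)
  have cop : Nat.Coprime (p * P) (q * Q) := by
    apply Nat.Coprime.mul_left
    · apply Nat.Coprime.mul_right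
      · exact (Nat.coprime_primes hp hq).mpr hpq
      · exact (Nat.coprime_primes hp hQ).mpr hQp.symm
    · apply Nat.Coprime.mul_right
      · exact (Nat.coprime_primes hP hq).mpr hPq
      · exact (Nat.coprime_primes hP hQ).mpr hPQ
  have hne : p * P ≠ q * Q := by
    intro h
    rw [h, Nat.coprime_self] at cop
    have := hq.two_le
    have := hQ.two_le
    nlinarith
  have h := exchange hS {a, P, Q} {p * P, q * Q} (by
      intro b hb
      simp only [Finset.mem_insert, Finset.mem_singleton] at hb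
      rcases hb with rfl | rfl
      · refine ⟨?_, h1⟩
        have := hp.two_le; have := hP.two_le; nlinarith
      · refine ⟨?_, h2⟩
        have := hq.two_le; have := hQ.two_le; nlinarith) (by
      intro x hx y hy hxy
      simp only [Finset.coe_insert, Finset.coe_singleton, Set.mem_insert_iff, Set.mem_singleton_iff] at hx hy
      rcases hx with rfl | rfl <;> rcases hy with rfl | rfl
      · exact absurd rfl hxy
      · exact cop
      · exact cop.symm
      · exact absurd rfl hxy) (by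
      intro b hb s hs hsR
      simp only [Finset.mem_insert, Finset.mem_singleton, not_or] at hb hsR
      obtain ⟨hsa, hsP, hsQ⟩ := hsR
      rcases hb with rfl | rfl
      · exact Nat.Coprime.mul_left (prime_coprime_of_mem hS.1 ha hp hpa hs hsa)
          (free_coprime hP hfP hs hsP)
      · exact Nat.Coprime.mul_left (prime_coprime_of_mem hS.1 ha hq hqa hs hsa)
          (free_coprime hQ hfQ hs hsQ))
  rw [Finset.sum_pair hne] at h
  have h3 : ∑ r ∈ ({a, P, Q} : Finset ℕ), r ≤ a + P + Q := by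
    refine (sum_insert_le _ _).trans ?_
    have := sum_insert_le P {Q}
    rw [Finset.sum_singleton] at this
    omega
  omega

/-- Exchange 2. -/
theorem ex2 {n : ℕ} {S : Finset ℕ} (hS : Maximising n S) {a b p q u P Q X : ℕ}
    (ha : a ∈ S) (hb : b ∈ S) (hab : a ≠ b)
    (hp : p.Prime) (hq : q.Prime) (hpq : p ≠ q) (hpa : p ∣ a) (hqa : q ∣ a)
    (hX : X.Prime) (hu : u.Prime) (hXu : X ≠ u) (hXb : X ∣ b) (hub : u ∣ b)
    (hP : P.Prime) (hQ : Q.Prime) (hPQ : P ≠ Q) (hfP : Free S P) (hfQ : Free S Q)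
    (h1 : p * P ≤ n) (h2 : q * X ≤ n) (h3 : u * Q ≤ n) :
    p * P + q * X + u * Q ≤ a + b + P + Q := by
  classical
  have notself : ∀ (c x y Z : ℕ), c ∈ S → x.Prime → y.Prime → x ≠ y → x ∣ c → y ∣ c →
      Z.Prime → Free S Z → Z ≠ x ∧ Z ≠ y := by
    intro c x y Z hc hx hy hxy hxc hyc hZ hf
    have : ¬ Z ∣ c := by
      intro h
      have h3 := hf c hc h
      rw [h3] at hxc hyc
      have h4 := (Nat.prime_dvd_prime_iff_eq hx hZ).mp hxc
      have h5 := (Nat.prime_dvd_prime_iff_eq hy hZ).mp hyc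
      exact hxy (h4.trans h5.symm)
    exact ⟨fun h => this (h ▸ hxc), fun h => this (h ▸ hyc)⟩
  obtain ⟨hPp, hPq⟩ := notself a p q P ha hp hq hpq hpa hqa hP hfP
  obtain ⟨hQp, hQq⟩ := notself a p q Q ha hp hq hpq hpa hqa hQ hfQ
  obtain ⟨hPX, hPu⟩ := notself b X u P hb hX hu hXu hXb hub hP hfP
  obtain ⟨hQX, hQu⟩ := notself b X u Q hb hX hu hXu hXb hub hQ hfQ
  have cab : Nat.Coprime a b := hS.1.2 ha hb hab
  have cne : ∀ x y : ℕ, x.Prime → x ∣ a → y ∣ b → x ≠ y := by
    intro x y hx hxa hyb h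
    subst h
    exact hx.one_lt.ne' (Nat.eq_one_of_dvd_coprimes cab hxa hyb)
  have hpX := cne p X hp hpa hXb
  have hpu := cne p u hp hpa hub
  have hqX := cne q X hq hqa hXb
  have hqu := cne q u hq hqa hub
  have cp : ∀ x y : ℕ, x.Prime → y.Prime → x ≠ y → Nat.Coprime x y :=
    fun x y hx hy h => (Nat.coprime_primes hx hy).mpr h
  have c12 : Nat.Coprime (p * P) (q * X) :=
    Nat.Coprime.mul_left (Nat.Coprime.mul_right (cp _ _ hp hq hpq) (cp _ _ hp hX hpX))
      (Nat.Coprime.mul_right (cp _ _ hP hq hPq) (cp _ _ hP hX hPX))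
  have c13 : Nat.Coprime (p * P) (u * Q) :=
    Nat.Coprime.mul_left (Nat.Coprime.mul_right (cp _ _ hp hu hpu) (cp _ _ hp hQ hQp.symm))
      (Nat.Coprime.mul_right (cp _ _ hP hu hPu) (cp _ _ hP hQ hPQ))
  have c23 : Nat.Coprime (q * X) (u * Q) :=
    Nat.Coprime.mul_left (Nat.Coprime.mul_right (cp _ _ hq hu hqu) (cp _ _ hq hQ hQq.symm))
      (Nat.Coprime.mul_right (cp _ _ hX hu hXu) (cp _ _ hX hQ hQX.symm))
  have big : ∀ x y : ℕ, x.Prime → y.Prime → 2 ≤ x * y := by
    intro x y hx hy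
    have := hx.two_le; have := hy.two_le; nlinarith
  have nne : ∀ x y : ℕ, 2 ≤ x → Nat.Coprime x y → x ≠ y := by
    intro x y hx hc h
    subst h
    rw [Nat.coprime_self] at hc
    omega
  have h := exchange hS {a, b, P, Q} {p * P, q * X, u * Q} (by
      intro c hc
      simp only [Finset.mem_insert, Finset.mem_singleton] at hc
      rcases hc with rfl | rfl | rfl
      · exact ⟨big _ _ hp hP, h1⟩
      · exact ⟨big _ _ hq hX, h2⟩
      · exact ⟨big _ _ hu hQ, h3⟩) (by
      intro x hx y hy hxy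
      simp only [Finset.coe_insert, Finset.coe_singleton, Set.mem_insert_iff, Set.mem_singleton_iff] at hx hy
      rcases hx with rfl | rfl | rfl <;> rcases hy with rfl | rfl | rfl
      · exact absurd rfl hxy
      · exact c12
      · exact c13
      · exact c12.symm
      · exact absurd rfl hxy
      · exact c23
      · exact c13.symm
      · exact c23.symm
      · exact absurd rfl hxy) (by
      intro c hc s hs hsR
      simp only [Finset.mem_insert, Finset.mem_singleton, not_or] at hc hsR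
      obtain ⟨hsa, hsb, hsP, hsQ⟩ := hsR
      rcases hc with rfl | rfl | rfl
      · exact Nat.Coprime.mul_left (prime_coprime_of_mem hS.1 ha hp hpa hs hsa)
          (free_coprime hP hfP hs hsP)
      · exact Nat.Coprime.mul_left (prime_coprime_of_mem hS.1 ha hq hqa hs hsa)
          (prime_coprime_of_mem hS.1 hb hX hXb hs hsb)
      · exact Nat.Coprime.mul_left (prime_coprime_of_mem hS.1 hb hu hub hs hsb)
          (free_coprime hQ hfQ hs hsQ))
  rw [Finset.sum_insert, Finset.sum_pair (nne _ _ (big _ _ hq hX) c23)] at h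
  · have h4 : ∑ r ∈ ({a, b, P, Q} : Finset ℕ), r ≤ a + b + P + Q := by
      refine (sum_insert_le _ _).trans ?_
      have e1 := sum_insert_le b {P, Q}
      have e2 := sum_insert_le P {Q}
      rw [Finset.sum_singleton] at e2
      omega
    omega
  · simp only [Finset.mem_insert, Finset.mem_singleton, not_or]
    exact ⟨nne _ _ (big _ _ hp hP) c12, nne _ _ (big _ _ hp hP) c13⟩

/-- Exchange 3. -/
theorem ex3 {n : ℕ} {S : Finset ℕ} (hS : Maximising n S) {a p q r P : ℕ} (ha : a ∈ S)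
    (hp : p.Prime) (hq : q.Prime) (hr : r.Prime) (hpq : p ≠ q) (hpr : p ≠ r) (hqr : q ≠ r)
    (hpa : p ∣ a) (hqa : q ∣ a) (hra : r ∣ a)
    (hP : P.Prime) (hfP : Free S P)
    (h1 : p * P ≤ n) (h2 : q * q ≤ n) (h3 : r * r ≤ n) :
    p * P + q * q + r * r ≤ a + P := by
  classical
  have notself : ¬ P ∣ a := by
    intro h
    have h3 := hfP a ha h
    rw [h3] at hpa hqa
    have h4 := (Nat.prime_dvd_prime_iff_eq hp hP).mp hpa
    have h5 := (Nat.prime_dvd_prime_iff_eq hq hP).mp hqa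
    exact hpq (h4.trans h5.symm)
  have hPp : P ≠ p := fun h => notself (h ▸ hpa)
  have hPq : P ≠ q := fun h => notself (h ▸ hqa)
  have hPr : P ≠ r := fun h => notself (h ▸ hra)
  have cp : ∀ x y : ℕ, x.Prime → y.Prime → x ≠ y → Nat.Coprime x y :=
    fun x y hx hy h => (Nat.coprime_primes hx hy).mpr h
  have c12 : Nat.Coprime (p * P) (q * q) :=
    Nat.Coprime.mul_left (Nat.Coprime.mul_right (cp _ _ hp hq hpq) (cp _ _ hp hq hpq))
      (Nat.Coprime.mul_right (cp _ _ hP hq hPq) (cp _ _ hP hq hPq))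
  have c13 : Nat.Coprime (p * P) (r * r) :=
    Nat.Coprime.mul_left (Nat.Coprime.mul_right (cp _ _ hp hr hpr) (cp _ _ hp hr hpr))
      (Nat.Coprime.mul_right (cp _ _ hP hr hPr) (cp _ _ hP hr hPr))
  have c23 : Nat.Coprime (q * q) (r * r) :=
    Nat.Coprime.mul_left (Nat.Coprime.mul_right (cp _ _ hq hr hqr) (cp _ _ hq hr hqr))
      (Nat.Coprime.mul_right (cp _ _ hq hr hqr) (cp _ _ hq hr hqr))
  have big : ∀ x y : ℕ, x.Prime → y.Prime → 2 ≤ x * y := by
    intro x y hx hy
    have := hx.two_le; have := hy.two_le; nlinarith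
  have nne : ∀ x y : ℕ, 2 ≤ x → Nat.Coprime x y → x ≠ y := by
    intro x y hx hc h
    subst h
    rw [Nat.coprime_self] at hc
    omega
  have h := exchange hS {a, P} {p * P, q * q, r * r} (by
      intro c hc
      simp only [Finset.mem_insert, Finset.mem_singleton] at hc
      rcases hc with rfl | rfl | rfl
      · exact ⟨big _ _ hp hP, h1⟩
      · exact ⟨big _ _ hq hq, h2⟩
      · exact ⟨big _ _ hr hr, h3⟩) (by
      intro x hx y hy hxy
      simp only [Finset.coe_insert, Finset.coe_singleton, Set.mem_insert_iff, Set.mem_singleton_iff] at hx hy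
      rcases hx with rfl | rfl | rfl <;> rcases hy with rfl | rfl | rfl
      · exact absurd rfl hxy
      · exact c12
      · exact c13
      · exact c12.symm
      · exact absurd rfl hxy
      · exact c23
      · exact c13.symm
      · exact c23.symm
      · exact absurd rfl hxy) (by
      intro c hc s hs hsR
      simp only [Finset.mem_insert, Finset.mem_singleton, not_or] at hc hsR
      obtain ⟨hsa, hsP⟩ := hsR
      rcases hc with rfl | rfl | rfl
      · exact Nat.Coprime.mul_left (prime_coprime_of_mem hS.1 ha hp hpa hs hsa)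
          (free_coprime hP hfP hs hsP)
      · exact Nat.Coprime.mul_left (prime_coprime_of_mem hS.1 ha hq hqa hs hsa)
          (prime_coprime_of_mem hS.1 ha hq hqa hs hsa)
      · exact Nat.Coprime.mul_left (prime_coprime_of_mem hS.1 ha hr hra hs hsa)
          (prime_coprime_of_mem hS.1 ha hr hra hs hsa))
  rw [Finset.sum_insert, Finset.sum_pair (nne _ _ (big _ _ hq hq) c23)] at h
  · have h4 : ∑ r ∈ ({a, P} : Finset ℕ), r ≤ a + P := by
      have e1 := sum_insert_le a {P}
      rw [Finset.sum_singleton] at e1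
      exact e1
    omega
  · simp only [Finset.mem_insert, Finset.mem_singleton, not_or]
    exact ⟨nne _ _ (big _ _ hp hP) c12, nne _ _ (big _ _ hp hP) c13⟩

/-- Non-free primes have a partner. -/
theorem partner {n : ℕ} {S : Finset ℕ} (hS : Admissible n S) {P : ℕ} (hP : P.Prime)
    (hf : ¬ Free S P) (hPn : n < P * P) :
    ∃ u s : ℕ, u.Prime ∧ s ∈ S ∧ P ∣ s ∧ u ∣ s ∧ u * P ≤ n ∧ u ≠ P := by
  unfold Free at hf
  push Not at hf
  obtain ⟨s, hs, ⟨c, hc⟩, hne⟩ := hf
  have hs1 := Finset.mem_Icc.mp (hS.1 hs)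
  have hc1 : c ≠ 1 := by rintro rfl; exact hne (by rw [hc, mul_one])
  have hc0 : 0 < c := by
    rcases Nat.eq_zero_or_pos c with h | h
    · subst h; rw [mul_zero] at hc; omega
    · exact h
  refine ⟨c.minFac, s, Nat.minFac_prime hc1, hs, ⟨c, hc⟩, ?_, ?_, ?_⟩
  · rw [hc]; exact Dvd.dvd.mul_left (Nat.minFac_dvd c) P
  · have h1 := Nat.minFac_le hc0
    have : c.minFac * P ≤ c * P := Nat.mul_le_mul_right P h1
    rw [hc] at hs1
    nlinarith [hs1.2]
  · intro h
    have h1 := Nat.minFac_le hc0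
    rw [h] at h1
    have : P * P ≤ P * c := Nat.mul_le_mul_left P h1
    rw [← hc] at this
    omega

/-- Injection from non-free large primes to their partners. -/
theorem injection {n : ℕ} {S : Finset ℕ} (hS : Admissible n S) (T : Finset ℕ)
    (hT : ∀ P ∈ T, P.Prime ∧ n < P * P ∧ ¬ Free S P) (hTn : ∀ P ∈ T, ∀ Q ∈ T, n < P * Q) :
    ∃ f : ℕ → ℕ, Set.InjOn f (T : Set ℕ) ∧ ∀ P ∈ T, (f P).Prime ∧ f P * P ≤ n ∧ f P ≠ P ∧
      ∃ s ∈ S, P ∣ s ∧ f P ∣ s := by
  classical
  have h : ∀ P : ℕ, ∃ u : ℕ, P ∈ T → ∃ s : ℕ, u.Prime ∧ s ∈ S ∧ P ∣ s ∧ u ∣ s ∧ u * P ≤ n ∧ u ≠ P := by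
    intro P
    by_cases hPT : P ∈ T
    · obtain ⟨h1, h2, h3⟩ := hT P hPT
      obtain ⟨u, s, h⟩ := partner hS h1 h3 h2
      exact ⟨u, fun _ => ⟨s, h⟩⟩
    · exact ⟨0, fun h => absurd h hPT⟩
  choose f hf using h
  refine ⟨f, ?_, ?_⟩
  · intro P hP Q hQ hPQ
    obtain ⟨s, h1, h2, h3, h4, h5, h6⟩ := hf P hP
    obtain ⟨t, g1, g2, g3, g4, g5, g6⟩ := hf Q hQ
    by_contra hne
    have hst : s = t := by
      by_contra hst
      have := hS.2 h2 g2 hst
      rw [← hPQ] at g4
      exact h1.one_lt.ne' (Nat.eq_one_of_dvd_coprimes this h4 g4)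
    subst hst
    have hcop : Nat.Coprime P Q := (Nat.coprime_primes (hT P hP).1 (hT Q hQ).1).mpr hne
    have hd : P * Q ∣ s := hcop.mul_dvd_of_dvd_of_dvd h3 g3
    have hs1 := Finset.mem_Icc.mp (hS.1 h2)
    have := Nat.le_of_dvd (by omega) hd
    have := hTn P hP Q hQ
    omega
  · intro P hP
    obtain ⟨s, h1, h2, h3, h4, h5, h6⟩ := hf P hP
    exact ⟨h1, h5, h6, s, h2, h3, h4⟩

end Pool.Agent.Helper377.MaxSum
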