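import Mathlib
import Pool.Agent.Helper377.PNT

set_option autoImplicit false

open Filter Topology

namespace Pool.Agent.Helper377.PntUnif

theorem pnt_unif_small (κ : ℝ) (hκ : 0 < κ) (hκ1 : κ ≤ 1) :
    ∃ Y0 : ℝ, 2 ≤ Y0 ∧ ∀ Y : ℝ, Y0 ≤ Y → ∀ x : ℝ, 0 ≤ x → x ≤ Y →
      |(Nat.primeCounting ⌊x⌋₊ : ℝ) * Real.log Y - x| ≤ κ * Y := by
  set θ : ℝ := κ / 4 with hθ
  have hθ0 : 0 < θ := by positivity
  have hθ1 : θ < 1 := by rw [hθ]; linarith
  have h1 := Pool.Agent.Helper377.PNT.pi_tendsto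
  rw [Metric.tendsto_atTop] at h1
  obtain ⟨X0, hX0⟩ := h1 (κ / 3) (by positivity)
  have h2 : Tendsto (fun Y : ℝ => Real.log (θ * Y)) atTop atTop :=
    Real.tendsto_log_atTop.comp (Tendsto.const_mul_atTop hθ0 tendsto_id)
  obtain ⟨Y1, hY1⟩ := (tendsto_atTop_atTop.mp h2) (max 1 (-Real.log θ / (κ / 3)))
  refine ⟨max 2 (max Y1 (max (X0 / θ) (2 / θ))), le_max_left _ _, ?_⟩
  intro Y hY x hx0 hxY
  have hY2 : 2 ≤ Y := le_trans (le_max_left _ _) hY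
  have hYY1 : Y1 ≤ Y := le_trans (le_trans (le_max_left _ _) (le_max_right _ _)) hY
  have hYX0 : X0 / θ ≤ Y :=
    le_trans (le_trans (le_trans (le_max_left _ _) (le_max_right _ _)) (le_max_right _ _)) hY
  have hY3 : 2 / θ ≤ Y :=
    le_trans (le_trans (le_trans (le_max_right _ _) (le_max_right _ _)) (le_max_right _ _)) hY
  have hθY : X0 ≤ θ * Y := by rw [div_le_iff₀ hθ0] at hYX0; linarith
  have hθY2 : 2 ≤ θ * Y := by rw [div_le_iff₀ hθ0] at hY3; linarith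
  have hY0 : 0 < Y := by linarith
  have hlog := hY1 Y hYY1
  have hl1 : 1 ≤ Real.log (θ * Y) := le_trans (le_max_left _ _) hlog
  have hl2 : -Real.log θ / (κ / 3) ≤ Real.log (θ * Y) := le_trans (le_max_right _ _) hlog
  rw [div_le_iff₀ (by positivity)] at hl2
  -- key estimate for z ≥ θ Y
  have key : ∀ z : ℝ, θ * Y ≤ z → z ≤ Y →
      (1 - κ / 3) * z ≤ (Nat.primeCounting ⌊z⌋₊ : ℝ) * Real.log Y ∧
      (Nat.primeCounting ⌊z⌋₊ : ℝ) * Real.log Y ≤ (1 + κ / 3) * (1 + κ / 3) * z := by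
    intro z hz1 hz2
    have hz0 : 0 < z := by linarith
    have hzl : Real.log (θ * Y) ≤ Real.log z := Real.log_le_log (by linarith) hz1
    have hzl1 : 1 ≤ Real.log z := le_trans hl1 hzl
    have h3 := hX0 z (le_trans hθY hz1)
    rw [Real.dist_eq, abs_lt] at h3
    obtain ⟨h4, h5⟩ := h3
    have h6 : (1 - κ / 3) * z ≤ (Nat.primeCounting ⌊z⌋₊ : ℝ) * Real.log z := by
      have : (1 - κ / 3) ≤ (Nat.primeCounting ⌊z⌋₊ : ℝ) * Real.log z / z := by linarith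
      rwa [le_div_iff₀ hz0] at this
    have h7 : (Nat.primeCounting ⌊z⌋₊ : ℝ) * Real.log z ≤ (1 + κ / 3) * z := by
      have : (Nat.primeCounting ⌊z⌋₊ : ℝ) * Real.log z / z ≤ (1 + κ / 3) := by linarith
      rwa [div_le_iff₀ hz0] at this
    have h8 : Real.log z ≤ Real.log Y := Real.log_le_log hz0 hz2
    have h9 : Real.log Y ≤ (1 + κ / 3) * Real.log z := by
      have e : Real.log (θ * Y) = Real.log θ + Real.log Y := Real.log_mul hθ0.ne' hY0.ne'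
      nlinarith
    have h10 : (0 : ℝ) ≤ (Nat.primeCounting ⌊z⌋₊ : ℝ) := Nat.cast_nonneg _
    constructor
    · exact h6.trans (mul_le_mul_of_nonneg_left h8 h10)
    · calc (Nat.primeCounting ⌊z⌋₊ : ℝ) * Real.log Y
          ≤ (Nat.primeCounting ⌊z⌋₊ : ℝ) * ((1 + κ / 3) * Real.log z) :=
            mul_le_mul_of_nonneg_left h9 h10
        _ = (1 + κ / 3) * ((Nat.primeCounting ⌊z⌋₊ : ℝ) * Real.log z) := by ring
        _ ≤ (1 + κ / 3) * ((1 + κ / 3) * z) :=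
            mul_le_mul_of_nonneg_left h7 (by positivity)
        _ = _ := by ring
  rcases le_or_gt (θ * Y) x with h | h
  · obtain ⟨ha, hb⟩ := key x h hxY
    rw [abs_le]
    constructor
    · nlinarith
    · have : (1 + κ / 3) * (1 + κ / 3) ≤ 1 + κ := by nlinarith
      nlinarith
  · obtain ⟨-, hb⟩ := key (θ * Y) le_rfl (by nlinarith)
    have hmono : (Nat.primeCounting ⌊x⌋₊ : ℝ) ≤ (Nat.primeCounting ⌊θ * Y⌋₊ : ℝ) := by
      exact_mod_cast Nat.monotone_primeCounting (Nat.floor_le_floor h.le)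
    have hlY : 0 ≤ Real.log Y := Real.log_nonneg (by linarith)
    have h10 : (0 : ℝ) ≤ (Nat.primeCounting ⌊x⌋₊ : ℝ) := Nat.cast_nonneg _
    have h11 : (Nat.primeCounting ⌊x⌋₊ : ℝ) * Real.log Y ≤ (Nat.primeCounting ⌊θ * Y⌋₊ : ℝ) * Real.log Y :=
      mul_le_mul_of_nonneg_right hmono hlY
    have h12 : (1 + κ / 3) * (1 + κ / 3) ≤ 4 := by nlinarith
    have h13 : (1 + κ / 3) * (1 + κ / 3) * (θ * Y) ≤ 4 * (θ * Y) :=
      mul_le_mul_of_nonneg_right h12 (by positivity)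
    have h14 : 4 * (θ * Y) = κ * Y := by rw [hθ]; ring
    have h15 : 0 ≤ (Nat.primeCounting ⌊x⌋₊ : ℝ) * Real.log Y := mul_nonneg h10 hlY
    rw [abs_le]
    constructor
    · nlinarith
    · linarith

theorem pnt_unif (κ : ℝ) (hκ : 0 < κ) :
    ∃ Y0 : ℝ, 2 ≤ Y0 ∧ ∀ Y : ℝ, Y0 ≤ Y → ∀ x : ℝ, 0 ≤ x → x ≤ Y →
      |(Nat.primeCounting ⌊x⌋₊ : ℝ) * Real.log Y - x| ≤ κ * Y := by
  obtain ⟨Y0, h2, h⟩ := pnt_unif_small (min κ 1) (lt_min hκ one_pos) (min_le_right _ _)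
  refine ⟨Y0, h2, fun Y hY x hx hxY => (h Y hY x hx hxY).trans ?_⟩
  exact mul_le_mul_of_nonneg_right (min_le_left _ _) (by linarith)

end Pool.Agent.Helper377.PntUnif
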