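import Mathlib
import Pool.Agent.Helper377.PntUnif
import Pool.Agent.Helper377.MaxSum

set_option autoImplicit false

open Filter

namespace Pool.Agent.Helper377.MaxSum

/-- primes in the interval `(α, β]` -/
noncomputable def PI (α β : ℝ) : Finset ℕ := (Finset.Ioc ⌊α⌋₊ ⌊β⌋₊).filter Nat.Prime

theorem mem_PI {α β : ℝ} (hα : 0 ≤ α) (hβ : 0 ≤ β) (P : ℕ) :
    P ∈ PI α β ↔ P.Prime ∧ α < P ∧ (P : ℝ) ≤ β := by
  unfold PI
  rw [Finset.mem_filter, Finset.mem_Ioc, Nat.floor_lt hα, Nat.le_floor_iff hβ]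
  tauto

theorem card_PI {α β : ℝ} (h : α ≤ β) :
    ((PI α β).card : ℝ) = (Nat.primeCounting ⌊β⌋₊ : ℝ) - (Nat.primeCounting ⌊α⌋₊ : ℝ) := by
  have hab : ⌊α⌋₊ ≤ ⌊β⌋₊ := Nat.floor_le_floor h
  have e : ∀ m : ℕ, Nat.primeCounting m = ((Finset.range (m + 1)).filter Nat.Prime).card := by
    intro m
    rw [Nat.primeCounting, Nat.primeCounting', Nat.count_eq_card_filter_range]
  have hu : (Finset.range (⌊β⌋₊ + 1)).filter Nat.Prime =
      (Finset.range (⌊α⌋₊ + 1)).filter Nat.Prime ∪ PI α β := by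
    ext x
    unfold PI
    simp only [Finset.mem_filter, Finset.mem_range, Finset.mem_union, Finset.mem_Ioc]
    constructor
    · rintro ⟨h1, h2⟩
      by_cases hx : x < ⌊α⌋₊ + 1
      · exact Or.inl ⟨hx, h2⟩
      · exact Or.inr ⟨⟨by omega, by omega⟩, h2⟩
    · rintro (⟨h1, h2⟩ | ⟨⟨h1, h3⟩, h2⟩)
      · exact ⟨by omega, h2⟩
      · exact ⟨by omega, h2⟩
  have hd : Disjoint ((Finset.range (⌊α⌋₊ + 1)).filter Nat.Prime) (PI α β) := by
    rw [Finset.disjoint_left]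
    intro x hx hx2
    unfold PI at hx2
    simp only [Finset.mem_filter, Finset.mem_range, Finset.mem_Ioc] at hx hx2
    omega
  rw [e, e, hu, Finset.card_union_of_disjoint hd]
  push_cast
  ring

theorem log_small (c : ℝ) (hc : 0 < c) : ∃ Y0 : ℝ, ∀ Y : ℝ, Y0 ≤ Y → Real.log Y < c * Y := by
  have h := Real.isLittleO_log_id_atTop.bound (half_pos hc)
  rw [eventually_atTop] at h
  obtain ⟨Y0, hY0⟩ := h
  refine ⟨max Y0 1, fun Y hY => ?_⟩
  have h1 := hY0 Y (le_trans (le_max_left _ _) hY)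
  have h2 : 1 ≤ Y := le_trans (le_max_right _ _) hY
  rw [id, Real.norm_of_nonneg (Real.log_nonneg h2), Real.norm_of_nonneg (by linarith)] at h1
  nlinarith

theorem free_exists : ∃ N0 : ℕ, ∀ n : ℕ, N0 ≤ n → ∀ S : Finset ℕ, Admissible n S →
    ∀ v : ℕ, 1 ≤ v → 625 * (v * v) ≤ n → ∀ x : ℕ,
    ∃ P : ℕ, P.Prime ∧ Free S P ∧ P ≠ x ∧ v * P ≤ n ∧ 99 * n < 100 * (v * P) := by
  classical
  obtain ⟨Y0, hY02, hY0⟩ := Pool.Agent.Helper377.PntUnif.pnt_unif (1 / 1000) (by norm_num)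
  obtain ⟨Y1, hY1⟩ := log_small (1 / 1000) (by norm_num)
  refine ⟨⌈max Y0 Y1⌉₊ ^ 2 + 1, ?_⟩
  intro n hn S hS v hv hvn x
  have hvR : (1 : ℝ) ≤ v := by exact_mod_cast hv
  have hv0 : (0 : ℝ) < v := by linarith
  have hnR : (625 : ℝ) * (v * v) ≤ n := by exact_mod_cast hvn
  have hn0 : (0 : ℝ) < n := by nlinarith
  set Y : ℝ := (n : ℝ) / v with hY
  have hvY : (v : ℝ) * Y = n := by rw [hY]; field_simp
  have hY00 : 0 < Y := by rw [hY]; positivity
  have hv625 : 625 * (v : ℝ) ≤ Y := by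
    rw [hY, le_div_iff₀ hv0]; nlinarith
  have hYn : (n : ℝ) ≤ Y * Y := by nlinarith
  have hYbig : max Y0 Y1 ≤ Y := by
    have h1 : (⌈max Y0 Y1⌉₊ : ℝ) ^ 2 + 1 ≤ n := by exact_mod_cast hn
    have h2 : max Y0 Y1 ≤ (⌈max Y0 Y1⌉₊ : ℝ) := Nat.le_ceil _
    by_contra hlt
    push Not at hlt
    have h3 : Y < (⌈max Y0 Y1⌉₊ : ℝ) := lt_of_lt_of_le hlt h2
    nlinarith
  have hYY0 : Y0 ≤ Y := le_trans (le_max_left _ _) hYbig
  have hlog := hY1 Y (le_trans (le_max_right _ _) hYbig)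
  by_contra hcon
  push Not at hcon
  -- the set of primes in (0.99 Y, Y] other than x
  have hmem : ∀ P ∈ PI (99 / 100 * Y) Y, P.Prime ∧ 99 / 100 * Y < (P : ℝ) ∧ (P : ℝ) ≤ Y :=
    fun P hP => (mem_PI (by positivity) hY00.le P).mp hP
  have hnf : ∀ P ∈ (PI (99 / 100 * Y) Y).erase x, ¬ Free S P := by
    intro P hP hf
    rw [Finset.mem_erase] at hP
    obtain ⟨hPx, hP⟩ := hP
    obtain ⟨h1, h2, h3⟩ := hmem P hP
    have h4 : v * P ≤ n := by
      have : (v : ℝ) * P ≤ n := by rw [← hvY]; exact mul_le_mul_of_nonneg_left h3 hv0.le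
      exact_mod_cast this
    have h5 := hcon P h1 hf hPx h4
    have h6 : (100 : ℝ) * (v * P) ≤ 99 * n := by exact_mod_cast h5
    nlinarith
  have hprod : ∀ P ∈ (PI (99 / 100 * Y) Y).erase x, ∀ Q ∈ (PI (99 / 100 * Y) Y).erase x,
      n < P * Q := by
    intro P hP Q hQ
    obtain ⟨-, h2, h3⟩ := hmem P (Finset.mem_of_mem_erase hP)
    obtain ⟨-, g2, g3⟩ := hmem Q (Finset.mem_of_mem_erase hQ)
    have h5 : (99 / 100 * Y) * (99 / 100 * Y) < (P : ℝ) * Q := by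
      apply mul_lt_mul'' h2 g2 <;> positivity
    have h6 : (n : ℝ) < (P : ℝ) * Q := by
      have : (625 : ℝ) * (n : ℝ) ≤ Y * Y := by nlinarith
      nlinarith
    exact_mod_cast h6
  obtain ⟨f, hinj, hf⟩ := injection hS ((PI (99 / 100 * Y) Y).erase x)
    (fun P hP => ⟨(hmem P (Finset.mem_of_mem_erase hP)).1, hprod P hP P hP, hnf P hP⟩) hprod
  have hmaps : ∀ P ∈ (PI (99 / 100 * Y) Y).erase x, f P ∈ PI 0 (100 / 99 * v) := by
    intro P hP
    obtain ⟨h1, h2, h3, -⟩ := hf P hP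
    obtain ⟨-, g2, g3⟩ := hmem P (Finset.mem_of_mem_erase hP)
    rw [mem_PI le_rfl (by positivity)]
    refine ⟨h1, by exact_mod_cast h1.pos, ?_⟩
    have h4 : (f P : ℝ) * P ≤ n := by exact_mod_cast h2
    have h5 : (0 : ℝ) < f P := by exact_mod_cast h1.pos
    by_contra hlt
    push Not at hlt
    have : (100 / 99 * (v : ℝ)) * (99 / 100 * Y) < (f P : ℝ) * P := by
      apply mul_lt_mul'' hlt g2 <;> positivity
    nlinarith
  have hcard := Finset.card_le_card_of_injOn f (fun P hP => hmaps P hP) hinj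
  have hcard2 : (PI (99 / 100 * Y) Y).card ≤ (PI 0 (100 / 99 * v)).card + 1 := by
    have := Finset.pred_card_le_card_erase (s := PI (99 / 100 * Y) Y) (a := x)
    omega
  have hcard3 : ((PI (99 / 100 * Y) Y).card : ℝ) ≤ ((PI 0 (100 / 99 * v)).card : ℝ) + 1 := by
    exact_mod_cast hcard2
  rw [card_PI (by linarith), card_PI (by positivity)] at hcard3
  have hz : (Nat.primeCounting ⌊(0 : ℝ)⌋₊ : ℝ) = 0 := by simp
  rw [hz] at hcard3
  have p1 := abs_le.mp (hY0 Y hYY0 Y hY00.le le_rfl)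
  have p2 := abs_le.mp (hY0 Y hYY0 (99 / 100 * Y) (by positivity) (by linarith))
  have p3 := abs_le.mp (hY0 Y hYY0 (100 / 99 * v) (by positivity) (by linarith))
  have hlY : 0 < Real.log Y := Real.log_pos (by linarith)
  have h7 := mul_le_mul_of_nonneg_right hcard3 hlY.le
  have h8 : ((Nat.primeCounting ⌊Y⌋₊ : ℝ) - (Nat.primeCounting ⌊99 / 100 * Y⌋₊ : ℝ)) * Real.log Y
      = (Nat.primeCounting ⌊Y⌋₊ : ℝ) * Real.log Y -
        (Nat.primeCounting ⌊99 / 100 * Y⌋₊ : ℝ) * Real.log Y := by ring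
  have h9 : ((Nat.primeCounting ⌊100 / 99 * (v : ℝ)⌋₊ : ℝ) - 0 + 1) * Real.log Y
      = (Nat.primeCounting ⌊100 / 99 * (v : ℝ)⌋₊ : ℝ) * Real.log Y + Real.log Y := by ring
  rw [h8, h9] at h7
  obtain ⟨p1a, p1b⟩ := p1
  obtain ⟨p2a, p2b⟩ := p2
  obtain ⟨p3a, p3b⟩ := p3
  linarith

theorem caseB : ∃ N0 : ℕ, ∀ n : ℕ, N0 ≤ n → ∀ S : Finset ℕ, Admissible n S →
    ∀ q : ℕ, n < 625 * (q * q) → 4 * (q * q) ≤ n →
    ∃ P : ℕ, P.Prime ∧ q * P ≤ n ∧ 55 * n < 100 * (q * P) ∧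
      (Free S P ∨ ∃ u s : ℕ, u.Prime ∧ s ∈ S ∧ P ∣ s ∧ u ∣ s ∧ u ≠ P ∧ 100 < u ∧
        625 * (u * u) ≤ n) := by
  classical
  obtain ⟨Y0, hY02, hY0⟩ := Pool.Agent.Helper377.PntUnif.pnt_unif (1 / 1000) (by norm_num)
  obtain ⟨Y1, hY1⟩ := log_small (1 / 1000000) (by norm_num)
  refine ⟨⌈max Y0 Y1⌉₊ ^ 2 + 1, ?_⟩
  intro n hn S hS q hqn1 hqn2
  have hnR1 : (n : ℝ) < 625 * (q * q) := by exact_mod_cast hqn1
  have hnR2 : (4 : ℝ) * (q * q) ≤ n := by exact_mod_cast hqn2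
  have hq0' : 0 < q := by
    rcases Nat.eq_zero_or_pos q with h | h
    · subst h; omega
    · exact h
  have hqR : (1 : ℝ) ≤ q := by exact_mod_cast hq0'
  have hq0 : (0 : ℝ) < q := by linarith
  have hn0 : (0 : ℝ) < n := by nlinarith
  set r : ℝ := Real.sqrt n with hr
  have hr0 : 0 < r := Real.sqrt_pos.mpr hn0
  have hrr : r * r = n := Real.mul_self_sqrt hn0.le
  set X : ℝ := (n : ℝ) / q with hX
  have hqX : (q : ℝ) * X = n := by rw [hX]; field_simp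
  have hX00 : 0 < X := by rw [hX]; positivity
  have hq4 : 4 * (q : ℝ) ≤ X := by
    rw [hX, le_div_iff₀ hq0]; nlinarith
  have hXX : 4 * (n : ℝ) ≤ X * X := by nlinarith
  have hX2r : 2 * r ≤ X := by
    by_contra hlt
    push Not at hlt
    nlinarith
  have hqr : 2 * (q : ℝ) ≤ r := by
    by_contra hlt
    push Not at hlt
    nlinarith
  have hqr2 : r < 25 * q := by
    by_contra hlt
    push Not at hlt
    nlinarith
  have hXr : X < 25 * r := by
    by_contra hlt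
    push Not at hlt
    have : 25 * r * q ≤ X * q := mul_le_mul_of_nonneg_right hlt hq0.le
    nlinarith
  have hXbig : max Y0 Y1 ≤ X := by
    have h1 : (⌈max Y0 Y1⌉₊ : ℝ) ^ 2 + 1 ≤ n := by exact_mod_cast hn
    have h2 : max Y0 Y1 ≤ (⌈max Y0 Y1⌉₊ : ℝ) := Nat.le_ceil _
    by_contra hlt
    push Not at hlt
    have h3 : X < (⌈max Y0 Y1⌉₊ : ℝ) := lt_of_lt_of_le hlt h2
    nlinarith
  have hYY0 : Y0 ≤ X := le_trans (le_max_left _ _) hXbig
  have hlog := hY1 X (le_trans (le_max_right _ _) hXbig)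
  by_contra hcon
  push Not at hcon
  have hmem : ∀ P ∈ PI (55 / 100 * X) X, P.Prime ∧ 55 / 100 * X < (P : ℝ) ∧ (P : ℝ) ≤ X :=
    fun P hP => (mem_PI (by positivity) hX00.le P).mp hP
  have hcon' : ∀ P ∈ PI (55 / 100 * X) X, ¬ Free S P ∧ ∀ u s : ℕ, u.Prime → s ∈ S → P ∣ s →
      u ∣ s → u ≠ P → 100 < u → n < 625 * (u * u) := by
    intro P hP
    obtain ⟨h1, h2, h3⟩ := hmem P hP
    have h4 : q * P ≤ n := by
      have : (q : ℝ) * P ≤ n := by rw [← hqX]; exact mul_le_mul_of_nonneg_left h3 hq0.le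
      exact_mod_cast this
    have h5 : 55 * n < 100 * (q * P) := by
      have : (55 : ℝ) * n < 100 * (q * P) := by nlinarith
      exact_mod_cast this
    exact hcon P h1 h4 h5
  have hprod : ∀ P ∈ PI (55 / 100 * X) X, ∀ Q ∈ PI (55 / 100 * X) X, n < P * Q := by
    intro P hP Q hQ
    obtain ⟨-, h2, h3⟩ := hmem P hP
    obtain ⟨-, g2, g3⟩ := hmem Q hQ
    have h5 : (55 / 100 * X) * (55 / 100 * X) < (P : ℝ) * Q := by
      apply mul_lt_mul'' h2 g2 <;> positivity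
    have h6 : (n : ℝ) < (P : ℝ) * Q := by nlinarith
    exact_mod_cast h6
  obtain ⟨f, hinj, hf⟩ := injection hS (PI (55 / 100 * X) X)
    (fun P hP => ⟨(hmem P hP).1, hprod P hP P hP, (hcon' P hP).1⟩) hprod
  have hmaps : ∀ P ∈ PI (55 / 100 * X) X,
      f P ∈ Finset.range 101 ∪ PI (1 / 25 * r) (100 / 55 * q) := by
    intro P hP
    obtain ⟨h1, h2, h3, s, hs, hPs, hfs⟩ := hf P hP
    obtain ⟨-, g2, g3⟩ := hmem P hP
    rw [Finset.mem_union]
    by_cases h100 : f P ≤ 100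
    · left
      rw [Finset.mem_range]; omega
    · right
      rw [mem_PI (by positivity) (by positivity)]
      have h6 := (hcon' P hP).2 (f P) s h1 hs hPs hfs h3 (by omega)
      have h7 : (n : ℝ) < 625 * ((f P : ℝ) * f P) := by exact_mod_cast h6
      have h5 : (0 : ℝ) < f P := by exact_mod_cast h1.pos
      refine ⟨h1, ?_, ?_⟩
      · by_contra hlt
        push Not at hlt
        nlinarith
      · have h4 : (f P : ℝ) * P ≤ n := by exact_mod_cast h2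
        by_contra hlt
        push Not at hlt
        have : (100 / 55 * (q : ℝ)) * (55 / 100 * X) < (f P : ℝ) * P := by
          apply mul_lt_mul'' hlt g2 <;> positivity
        nlinarith
  have hcard := Finset.card_le_card_of_injOn f (fun P hP => hmaps P hP) hinj
  have hcard1 := Finset.card_union_le (Finset.range 101) (PI (1 / 25 * r) (100 / 55 * q))
  rw [Finset.card_range] at hcard1
  have hcard2 : (PI (55 / 100 * X) X).card ≤ 101 + (PI (1 / 25 * r) (100 / 55 * q)).card :=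
    le_trans hcard hcard1
  have hcard3 : ((PI (55 / 100 * X) X).card : ℝ) ≤
      101 + ((PI (1 / 25 * r) (100 / 55 * q)).card : ℝ) := by
    have h := (Nat.cast_le (α := ℝ)).mpr hcard2
    rw [Nat.cast_add] at h
    exact h
  rw [card_PI (by linarith), card_PI (by linarith)] at hcard3
  have p1 := abs_le.mp (hY0 X hYY0 X hX00.le le_rfl)
  have p2 := abs_le.mp (hY0 X hYY0 (55 / 100 * X) (by linarith) (by linarith))
  have p3 := abs_le.mp (hY0 X hYY0 (100 / 55 * q) (by linarith) (by linarith))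
  have p4 := abs_le.mp (hY0 X hYY0 (1 / 25 * r) (by linarith) (by linarith))
  have hlY : 0 < Real.log X := Real.log_pos (by linarith)
  have h7 := mul_le_mul_of_nonneg_right hcard3 hlY.le
  have h8 : ((Nat.primeCounting ⌊X⌋₊ : ℝ) - (Nat.primeCounting ⌊55 / 100 * X⌋₊ : ℝ)) * Real.log X
      = (Nat.primeCounting ⌊X⌋₊ : ℝ) * Real.log X -
        (Nat.primeCounting ⌊55 / 100 * X⌋₊ : ℝ) * Real.log X := by ring
  have h9 : (101 + ((Nat.primeCounting ⌊100 / 55 * (q : ℝ)⌋₊ : ℝ) -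
      (Nat.primeCounting ⌊1 / 25 * r⌋₊ : ℝ))) * Real.log X
      = 101 * Real.log X + (Nat.primeCounting ⌊100 / 55 * (q : ℝ)⌋₊ : ℝ) * Real.log X -
        (Nat.primeCounting ⌊1 / 25 * r⌋₊ : ℝ) * Real.log X := by ring
  rw [h8, h9] at h7
  obtain ⟨p1a, p1b⟩ := p1
  obtain ⟨p2a, p2b⟩ := p2
  obtain ⟨p3a, p3b⟩ := p3
  obtain ⟨p4a, p4b⟩ := p4
  linarith

end Pool.Agent.Helper377.MaxSum
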